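import Mathlib

/-!
# The Burnside process and its mixing time; 2-regular graphs
-/

set_option autoImplicit false

namespace Pool.Agent.Helper95.Burnside

open MulAction

section Chain

variable (G : Type*) {Ω : Type*} [Group G] [Finite G] [Finite Ω] [MulAction G Ω]

/-- One step of the Burnside chain `M(Ω, G)` from the state `α`: choose `g` uniformly at random
from the stabilizer `G_α = {g | g • α = α}`, then choose the new state uniformly at random from
`fix(g) = {β | g • β = β}`. -/
noncomputable def step (α : Ω) : PMF Ω :=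
  haveI := Fintype.ofFinite (stabilizer G α)
  (PMF.uniformOfFintype (stabilizer G α)).bind fun g =>
    haveI := Fintype.ofFinite (fixedBy Ω (g : G))
    haveI : Nonempty (fixedBy Ω (g : G)) := ⟨⟨α, g.2⟩⟩
    (PMF.uniformOfFintype (fixedBy Ω (g : G))).map Subtype.val

/-- The law after `t` steps of the chain started from `α₀`. -/
noncomputable def law (α₀ : Ω) : ℕ → PMF Ω
  | 0 => PMF.pure α₀
  | t + 1 => (law α₀ t).bind (step G)

/-- The stationary distribution `π(α) = 1 / (|α^G| N)`, with `N` the number of orbits. -/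
noncomputable def statio (α : Ω) : ℝ :=
  1 / ((Nat.card (orbit G α) : ℝ) * (Nat.card (orbitRel.Quotient G Ω) : ℝ))

/-- The total variation distance between the law after `t` steps from `α₀` and the stationary
distribution. -/
noncomputable def dtv (α₀ : Ω) (t : ℕ) : ℝ :=
  1 / 2 * ∑' β : Ω, |(law G α₀ t β).toReal - statio G β|

/-- `τ_{α₀}(ε)`: the least `t` such that the distance is at most `ε` at all times `t' ≥ t`
(`⊤` if there is none). -/
noncomputable def tauFrom (α₀ : Ω) (ε : ℝ) : ℕ∞ :=
  ⨅ (t : ℕ) (_ : ∀ t' ≥ t, dtv G α₀ t' ≤ ε), (t : ℕ∞)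

/-- The mixing time `τ(ε) = max_{α₀} τ_{α₀}(ε)`. -/
noncomputable def tau (Ω : Type*) [Finite Ω] [MulAction G Ω] (ε : ℝ) : ℕ∞ :=
  ⨆ α₀ : Ω, tauFrom G α₀ ε

end Chain

/-- The simple graphs on the vertex set `Fin n` in which every vertex has degree exactly `2`. -/
def TwoRegular (n : ℕ) : Type :=
  {A : SimpleGraph (Fin n) // ∀ v, (A.neighborSet v).ncard = 2}

instance (n : ℕ) : Finite (TwoRegular n) := by
  unfold TwoRegular
  infer_instance

/-- The symmetric group acts by relabelling vertices: `u` and `v` are adjacent in `σ • A` if and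
only if `σ⁻¹ u` and `σ⁻¹ v` are adjacent in `A`. -/
instance (n : ℕ) : MulAction (Equiv.Perm (Fin n)) (TwoRegular n) where
  smul σ A := ⟨A.1.comap (σ⁻¹ : Equiv.Perm (Fin n)), fun v => by
    have h : (A.1.comap (σ⁻¹ : Equiv.Perm (Fin n))).neighborSet v =
        σ '' A.1.neighborSet (σ⁻¹ v) := by
      ext w
      simp only [SimpleGraph.mem_neighborSet, SimpleGraph.comap_adj, Set.mem_image]
      constructor
      · intro h
        exact ⟨σ⁻¹ w, h, by simp⟩
      · rintro ⟨u, hu, rfl⟩
        simpa using hu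
    rw [h, Set.ncard_image_of_injective _ σ.injective]
    exact A.2 _⟩
  one_smul A := Subtype.ext (by ext u v; rfl)
  mul_smul σ ρ A := Subtype.ext (by
    ext u v
    change A.1.Adj ((σ * ρ)⁻¹ u) ((σ * ρ)⁻¹ v) ↔ A.1.Adj (ρ⁻¹ (σ⁻¹ u)) (ρ⁻¹ (σ⁻¹ v))
    rw [mul_inv_rev]
    rfl)

end Pool.Agent.Helper95.Burnside
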