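import Mathlib
import Pool.Agent.Helper95.Burnside.Defs

/-!
# The `L²` theory of the Burnside chain
-/

set_option autoImplicit false
set_option linter.unusedSectionVars false

namespace Pool.Agent.Helper95.Burnside

open MulAction Finset

open Classical

section

variable (G : Type*) {Ω : Type*} [Group G] [Fintype G] [Fintype Ω] [MulAction G Ω]

/-- stabilizer as a finset -/
noncomputable def St (α : Ω) : Finset G := univ.filter (fun g => g • α = α)

/-- fixed points as a finset -/
noncomputable def Fx (Ω : Type*) [Fintype Ω] [MulAction G Ω] (g : G) : Finset Ω :=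
  univ.filter (fun α => g • α = α)

variable {G}

lemma mem_St {α : Ω} {g : G} : g ∈ St G α ↔ g • α = α := by simp [St]

lemma mem_Fx {α : Ω} {g : G} : α ∈ Fx G Ω g ↔ g • α = α := by simp [Fx]

lemma one_mem_St (α : Ω) : (1 : G) ∈ St G α := mem_St.2 (one_smul _ _)

variable (G) in
lemma St_card_pos (α : Ω) : 0 < (St G α).card := card_pos.2 ⟨1, one_mem_St α⟩

lemma Fx_card_pos {α : Ω} {g : G} (h : g • α = α) : 0 < (Fx G Ω g).card :=
  card_pos.2 ⟨α, mem_Fx.2 h⟩

/-- swapping the order of summation over pairs `(α, g)` with `g • α = α` -/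
lemma sum_swap {M : Type*} [AddCommMonoid M] (F : Ω → G → M) :
    ∑ α, ∑ g ∈ St G α, F α g = ∑ g, ∑ α ∈ Fx G Ω g, F α g := by
  simp only [St, Fx, sum_filter]
  exact sum_comm

lemma map_unif_apply {X : Type*} (s : Set X) [Fintype s] [Nonempty s] (β : X) :
    ((PMF.uniformOfFintype s).map Subtype.val β).toReal =
      if β ∈ s then 1 / (Fintype.card s : ℝ) else 0 := by
  rw [PMF.map_apply, tsum_fintype]
  split_ifs with h
  · rw [Finset.sum_eq_single (⟨β, h⟩ : s)]
    · rw [if_pos rfl, PMF.uniformOfFintype_apply, ENNReal.toReal_inv, ENNReal.toReal_natCast,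
        one_div]
    · intro b _ hb
      rw [if_neg]
      rintro rfl
      exact hb rfl
    · intro h1
      exact absurd (mem_univ _) h1
  · rw [Finset.sum_eq_zero]
    · rfl
    · intro b _
      rw [if_neg]
      rintro rfl
      exact h b.2

lemma step_apply (α β : Ω) : (step G α β).toReal =
    ∑ g ∈ St G α, if g • β = β then 1 / (((St G α).card : ℝ) * (Fx G Ω g).card) else 0 := by
  unfold step
  simp only [PMF.bind_apply, tsum_fintype]
  rw [ENNReal.toReal_sum]
  · simp only [ENNReal.toReal_mul, map_unif_apply]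
    have h1 : ∀ (I : Fintype (stabilizer G α)) (g : stabilizer G α),
        (@PMF.uniformOfFintype (stabilizer G α) I _ g).toReal =
        1 / ((St G α).card : ℝ) := by
      intro I g
      rw [PMF.uniformOfFintype_apply, ENNReal.toReal_inv, ENNReal.toReal_natCast, one_div]
      congr 2
      rw [Fintype.card_subtype]
      unfold St
      congr 1
    have h2 : ∀ (g : G) (I : Fintype (fixedBy Ω g)), (@Fintype.card (fixedBy Ω g) I) =
        (Fx G Ω g).card := by
      intro g I
      rw [Fintype.card_subtype]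
      unfold Fx
      congr 1
    simp only [h1, h2, mem_fixedBy]
    rw [← Finset.sum_coe_sort (St G α)]
    refine Fintype.sum_equiv (Equiv.subtypeEquivRight fun g => ?_) _ _ ?_
    · rw [mem_St]; rfl
    · intro g
      simp only [Equiv.subtypeEquivRight_apply_coe]
      split_ifs with h
      · rw [one_div_mul_one_div]
      · rw [mul_zero]
  · intro g _
    exact ENNReal.mul_ne_top (PMF.apply_ne_top _ _) (PMF.apply_ne_top _ _)

/-- `|G|` -/
noncomputable def gc (G : Type*) [Fintype G] : ℝ := Fintype.card G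

/-- number of orbits -/
noncomputable def nOrb (G Ω : Type*) [Group G] [MulAction G Ω] : ℝ :=
  Nat.card (orbitRel.Quotient G Ω)

lemma gc_pos (G : Type*) [Group G] [Fintype G] : 0 < gc G := by
  unfold gc
  exact_mod_cast Fintype.card_pos

lemma nOrb_pos (α₀ : Ω) : 0 < nOrb G Ω := by
  unfold nOrb
  have : Nonempty (orbitRel.Quotient G Ω) := ⟨Quotient.mk'' α₀⟩
  have : Finite (orbitRel.Quotient G Ω) := Quotient.finite _
  exact_mod_cast Nat.card_pos

variable (G) in
lemma orbit_mul_St (α : Ω) : (Nat.card (orbit G α) : ℝ) * (St G α).card = gc G := by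
  have h1 := card_orbit_mul_card_stabilizer_eq_card_group G α
  have h2 : Fintype.card (stabilizer G α) = (St G α).card := by
    rw [Fintype.card_subtype]
    unfold St
    congr 1
  rw [h2, ← Nat.card_eq_fintype_card] at h1
  unfold gc
  exact_mod_cast h1

lemma statio_eq (α : Ω) : statio G α = (St G α).card / (gc G * nOrb G Ω) := by
  have h1 := orbit_mul_St G α
  have h2 : (0 : ℝ) < (St G α).card := by exact_mod_cast St_card_pos G α
  have h3 := nOrb_pos (G := G) α
  have h4 := gc_pos G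
  have h5 : (Nat.card (orbit G α) : ℝ) ≠ 0 := by
    intro h
    rw [h, zero_mul] at h1
    linarith
  unfold statio
  rw [show (Nat.card (orbitRel.Quotient G Ω) : ℝ) = nOrb G Ω from rfl, ← h1]
  field_simp

lemma statio_pos (α : Ω) : 0 < statio G α := by
  rw [statio_eq]
  have h2 : (0 : ℝ) < (St G α).card := by exact_mod_cast St_card_pos G α
  have h3 := nOrb_pos (G := G) α
  have h4 := gc_pos G
  positivity

/-- Burnside's lemma -/
lemma burnside_count [Nonempty Ω] : ∑ α : Ω, ((St G α).card : ℝ) = gc G * nOrb G Ω := by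
  have : Fintype (orbitRel.Quotient G Ω) := Fintype.ofFinite _
  have h1 := sum_card_fixedBy_eq_card_orbits_mul_card_group G Ω
  have h2 : ∀ g : G, Fintype.card (fixedBy Ω g) = (Fx G Ω g).card := by
    intro g
    rw [Fintype.card_subtype]
    unfold Fx
    congr 1
  have h3 : ∑ α : Ω, (St G α).card = ∑ g : G, (Fx G Ω g).card := by
    have := sum_swap (G := G) (Ω := Ω) (fun _ _ => 1)
    simpa using this
  simp only [h2] at h1
  rw [← h3] at h1
  unfold gc nOrb
  rw [Nat.card_eq_fintype_card]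
  have h4 : (Fintype.card (Quotient (orbitRel G Ω)) : ℝ) =
      Fintype.card (orbitRel.Quotient G Ω) := by
    rfl
  rw [← h4, mul_comm]
  exact_mod_cast h1

lemma sum_statio [Nonempty Ω] : ∑ α : Ω, statio G α = 1 := by
  simp only [statio_eq]
  rw [← Finset.sum_div, burnside_count]
  have h3 := nOrb_pos (G := G) (Classical.arbitrary Ω)
  have h4 := gc_pos G
  exact div_self (by positivity)

/-- average over the fixed points of `g` -/
noncomputable def UU (f : Ω → ℝ) (g : G) : ℝ := (∑ β ∈ Fx G Ω g, f β) / (Fx G Ω g).card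

variable (G) in
/-- the transition operator -/
noncomputable def KK (f : Ω → ℝ) (α : Ω) : ℝ := (∑ g ∈ St G α, UU f g) / (St G α).card

variable (G) in
/-- local energy -/
noncomputable def ee (f : Ω → ℝ) (α : Ω) : ℝ := ∑ g ∈ St G α, (f α - UU f g) ^ 2

lemma ee_nonneg (f : Ω → ℝ) (α : Ω) : 0 ≤ ee G f α := sum_nonneg fun _ _ => sq_nonneg _

variable (G) in
/-- squared norm -/
noncomputable def nrm (f : Ω → ℝ) : ℝ := ∑ α, statio G α * f α ^ 2

lemma nrm_nonneg (f : Ω → ℝ) : 0 ≤ nrm G f :=
  sum_nonneg fun α _ => mul_nonneg (statio_pos α).le (sq_nonneg _)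

lemma Fx_sum_eq (f : Ω → ℝ) (g : G) :
    ∑ α ∈ Fx G Ω g, f α ^ 2 = ∑ α ∈ Fx G Ω g, (f α - UU f g) ^ 2 +
      (Fx G Ω g).card * UU f g ^ 2 := by
  have h1 : ∑ α ∈ Fx G Ω g, f α = (Fx G Ω g).card * UU f g := by
    unfold UU
    rcases Nat.eq_zero_or_pos (Fx G Ω g).card with h | h
    · rw [Finset.card_eq_zero.1 h]; simp
    · have : ((Fx G Ω g).card : ℝ) ≠ 0 := by positivity
      field_simp
  have h2 : ∑ α ∈ Fx G Ω g, (f α - UU f g) ^ 2 = ∑ α ∈ Fx G Ω g, f α ^ 2 -
      2 * UU f g * ∑ α ∈ Fx G Ω g, f α + (Fx G Ω g).card * UU f g ^ 2 := by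
    rw [mul_sum, ← sum_sub_distrib]
    have h3 : ((Fx G Ω g).card : ℝ) * UU f g ^ 2 = ∑ α ∈ Fx G Ω g, UU f g ^ 2 := by
      rw [sum_const, nsmul_eq_mul]
    rw [h3, ← sum_add_distrib]
    refine sum_congr rfl fun α _ => ?_
    ring
  rw [h2, h1]; ring

lemma nrm_eq [Nonempty Ω] (f : Ω → ℝ) : gc G * nOrb G Ω * nrm G f =
    ∑ α, ee G f α + ∑ g : G, (Fx G Ω g).card * UU f g ^ 2 := by
  have h3 := nOrb_pos (G := G) (Classical.arbitrary Ω)
  have h4 := gc_pos G
  unfold nrm
  rw [mul_sum]
  have h1 : ∀ α : Ω, gc G * nOrb G Ω * (statio G α * f α ^ 2) = ∑ g ∈ St G α, f α ^ 2 := by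
    intro α
    rw [statio_eq, sum_const, nsmul_eq_mul]
    field_simp
  rw [sum_congr rfl (fun α _ => h1 α), sum_swap (fun α (_ : G) => f α ^ 2)]
  unfold ee
  rw [sum_swap (fun α (g : G) => (f α - UU f g) ^ 2), ← sum_add_distrib]
  exact sum_congr rfl fun g _ => Fx_sum_eq f g

lemma nrm_KK_le [Nonempty Ω] (f : Ω → ℝ) : gc G * nOrb G Ω * nrm G (KK G f) ≤
    ∑ g : G, (Fx G Ω g).card * UU f g ^ 2 := by
  have h3 := nOrb_pos (G := G) (Classical.arbitrary Ω)
  have h4 := gc_pos G
  unfold nrm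
  rw [mul_sum]
  have h1 : ∀ α : Ω, gc G * nOrb G Ω * (statio G α * KK G f α ^ 2) ≤
      ∑ g ∈ St G α, UU f g ^ 2 := by
    intro α
    have h5 : (0 : ℝ) < (St G α).card := by exact_mod_cast St_card_pos G α
    have h6 := sq_sum_le_card_mul_sum_sq (s := St G α) (f := fun g => UU f g)
    rw [statio_eq]
    unfold KK
    have h7 : gc G * nOrb G Ω * ((St G α).card / (gc G * nOrb G Ω) *
        ((∑ g ∈ St G α, UU f g) / (St G α).card) ^ 2) =
        (∑ g ∈ St G α, UU f g) ^ 2 / (St G α).card := by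
      field_simp
    rw [h7, div_le_iff₀ h5, mul_comm]
    exact h6
  refine (sum_le_sum fun α _ => h1 α).trans ?_
  rw [sum_swap (fun (_ : Ω) (g : G) => UU f g ^ 2)]
  refine (sum_congr rfl fun g _ => ?_).le
  rw [sum_const, nsmul_eq_mul]

lemma sum_KK [Nonempty Ω] (f : Ω → ℝ) :
    ∑ α, statio G α * KK G f α = ∑ α, statio G α * f α := by
  have h3 := nOrb_pos (G := G) (Classical.arbitrary Ω)
  have h4 := gc_pos G
  have h1 : ∀ α : Ω, statio G α * KK G f α =
      (gc G * nOrb G Ω)⁻¹ * ∑ g ∈ St G α, UU f g := by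
    intro α
    have h5 : (0 : ℝ) < (St G α).card := by exact_mod_cast St_card_pos G α
    rw [statio_eq]
    unfold KK
    field_simp
  have h2 : ∀ α : Ω, statio G α * f α = (gc G * nOrb G Ω)⁻¹ * ∑ g ∈ St G α, f α := by
    intro α
    rw [statio_eq, sum_const, nsmul_eq_mul]
    field_simp
  rw [sum_congr rfl (fun α _ => h1 α), sum_congr rfl (fun α _ => h2 α), ← mul_sum, ← mul_sum,
    sum_swap (fun (_ : Ω) (g : G) => UU f g), sum_swap (fun α (_ : G) => f α)]
  congr 1
  refine sum_congr rfl fun g _ => ?_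
  rw [sum_const, nsmul_eq_mul]
  unfold UU
  rcases Nat.eq_zero_or_pos (Fx G Ω g).card with h | h
  · rw [Finset.card_eq_zero.1 h]; simp
  · have : ((Fx G Ω g).card : ℝ) ≠ 0 := by positivity
    field_simp

variable (G) in
/-- the density of the law at time `t` -/
noncomputable def dens (α₀ : Ω) (t : ℕ) (β : Ω) : ℝ := (law G α₀ t β).toReal / statio G β

lemma law_succ (α₀ : Ω) (t : ℕ) (β : Ω) : (law G α₀ (t + 1) β).toReal =
    ∑ α, (law G α₀ t α).toReal * (step G α β).toReal := by
  show (((law G α₀ t).bind (step G)) β).toReal = _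
  rw [PMF.bind_apply, tsum_fintype, ENNReal.toReal_sum]
  · simp only [ENNReal.toReal_mul]
  · intro α _
    exact ENNReal.mul_ne_top (PMF.apply_ne_top _ _) (PMF.apply_ne_top _ _)

lemma dens_succ (α₀ : Ω) (t : ℕ) : dens G α₀ (t + 1) = KK G (dens G α₀ t) := by
  have : Nonempty Ω := ⟨α₀⟩
  have h3 := nOrb_pos (G := G) (Classical.arbitrary Ω)
  have h4 := gc_pos G
  funext β
  have hβ := statio_pos (G := G) β
  have h5 : (0 : ℝ) < (St G β).card := by exact_mod_cast St_card_pos G β
  unfold dens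
  rw [div_eq_iff hβ.ne', law_succ]
  have h1 : ∀ α : Ω, (law G α₀ t α).toReal * (step G α β).toReal =
      ∑ g ∈ St G α, (if g • β = β then
        (gc G * nOrb G Ω)⁻¹ * (dens G α₀ t α / (Fx G Ω g).card) else 0) := by
    intro α
    rw [step_apply, mul_sum]
    refine sum_congr rfl fun g hg => ?_
    split_ifs with hgb
    · have h6 : (0 : ℝ) < (St G α).card := by exact_mod_cast St_card_pos G α
      have h7 : (0 : ℝ) < (Fx G Ω g).card := by exact_mod_cast Fx_card_pos hgb
      unfold dens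
      rw [statio_eq]
      field_simp
    · rw [mul_zero]
  rw [sum_congr rfl (fun α _ => h1 α), sum_swap]
  have h2 : ∀ g : G, ∑ α ∈ Fx G Ω g, (if g • β = β then
      (gc G * nOrb G Ω)⁻¹ * (dens G α₀ t α / (Fx G Ω g).card) else 0) =
      if g • β = β then (gc G * nOrb G Ω)⁻¹ * UU (dens G α₀ t) g else 0 := by
    intro g
    split_ifs with hgb
    · rw [← mul_sum, ← Finset.sum_div]; rfl
    · rw [sum_const_zero]
  rw [sum_congr rfl (fun g _ => h2 g), ← sum_filter, ← mul_sum]
  rw [statio_eq]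
  unfold KK
  rw [show (univ.filter (fun g : G => g • β = β)) = St G β from rfl]
  field_simp
  rfl

lemma KK_sub_one [Nonempty Ω] (f : Ω → ℝ) :
    KK G (fun α => f α - 1) = fun α => KK G f α - 1 := by
  funext α
  have h5 : (0 : ℝ) < (St G α).card := by exact_mod_cast St_card_pos G α
  unfold KK
  have h1 : ∀ g ∈ St G α, UU (fun α => f α - 1) g = UU f g - 1 := by
    intro g hg
    have h7 : (0 : ℝ) < (Fx G Ω g).card := by exact_mod_cast Fx_card_pos (mem_St.1 hg)
    unfold UU
    rw [sum_sub_distrib, sum_const, nsmul_eq_mul, mul_one, sub_div, div_self h7.ne']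
  rw [sum_congr rfl h1, sum_sub_distrib, sum_const, nsmul_eq_mul, mul_one, sub_div,
    div_self h5.ne']

lemma sum_dens [Nonempty Ω] (α₀ : Ω) (t : ℕ) : ∑ α, statio G α * dens G α₀ t α = 1 := by
  have h1 : ∀ α, statio G α * dens G α₀ t α = (law G α₀ t α).toReal := by
    intro α
    have := (statio_pos (G := G) α).ne'
    unfold dens
    field_simp
  rw [sum_congr rfl (fun α _ => h1 α), ← ENNReal.toReal_sum (fun _ _ => PMF.apply_ne_top _ _),
    ← tsum_fintype (L := .unconditional _), PMF.tsum_coe]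
  rfl

/-- Poincaré inequality with constant `A` -/
def Poinc (G Ω : Type*) [Group G] [Fintype G] [Fintype Ω] [MulAction G Ω] (A : ℝ) : Prop :=
  ∀ f : Ω → ℝ, ∑ α, statio G α * f α = 0 →
    gc G * nOrb G Ω * nrm G f ≤ A * ∑ α, ee G f α

lemma nrm_contract [Nonempty Ω] {A : ℝ} (hA : 1 ≤ A) (hP : Poinc G Ω A) (f : Ω → ℝ)
    (hf : ∑ α, statio G α * f α = 0) : nrm G (KK G f) ≤ (1 - 1 / A) * nrm G f := by
  have h3 := nOrb_pos (G := G) (Classical.arbitrary Ω)
  have h4 := gc_pos G
  have h1 := hP f hf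
  have h2 := nrm_eq (G := G) f
  have h5 := nrm_KK_le (G := G) f
  have hA0 : 0 < A := by linarith
  have h6 : gc G * nOrb G Ω * nrm G f * (1 / A) ≤ ∑ α, ee G f α := by
    rw [mul_one_div, div_le_iff₀ hA0]
    linarith
  have h7 : gc G * nOrb G Ω * nrm G (KK G f) ≤
      gc G * nOrb G Ω * ((1 - 1 / A) * nrm G f) := by
    calc gc G * nOrb G Ω * nrm G (KK G f) ≤ ∑ g : G, (Fx G Ω g).card * UU f g ^ 2 := h5
      _ = gc G * nOrb G Ω * nrm G f - ∑ α, ee G f α := by linarith
      _ ≤ gc G * nOrb G Ω * nrm G f - gc G * nOrb G Ω * nrm G f * (1 / A) := by linarith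
      _ = gc G * nOrb G Ω * ((1 - 1 / A) * nrm G f) := by ring
  exact le_of_mul_le_mul_left h7 (by positivity)

lemma dens_bound {A : ℝ} (hA : 1 ≤ A) (hP : Poinc G Ω A) (α₀ : Ω) (t : ℕ) :
    nrm G (fun β => dens G α₀ t β - 1) ≤ (1 - 1 / A) ^ t * (1 / statio G α₀) := by
  have : Nonempty Ω := ⟨α₀⟩
  have hA0 : 0 < A := by linarith
  have hA1 : 0 ≤ 1 - 1 / A := by
    rw [sub_nonneg, div_le_one hA0]; exact hA
  induction t with
  | zero =>
    rw [pow_zero, one_mul]
    have h0 : ∀ β, dens G α₀ 0 β = if β = α₀ then 1 / statio G α₀ else 0 := by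
      intro β
      unfold dens
      show ((PMF.pure α₀ β).toReal) / statio G β = _
      rw [PMF.pure_apply]
      split_ifs with h
      · rw [h]; simp
      · simp
    have hs := sum_dens (G := G) α₀ 0
    unfold nrm
    have h1 : ∀ α, statio G α * (dens G α₀ 0 α - 1) ^ 2 = statio G α * dens G α₀ 0 α ^ 2 -
        2 * (statio G α * dens G α₀ 0 α) + statio G α := by
      intro α; ring
    rw [sum_congr rfl (fun α _ => h1 α), sum_add_distrib, sum_sub_distrib, ← mul_sum, hs,
      sum_statio]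
    have h2 : ∑ α, statio G α * dens G α₀ 0 α ^ 2 = 1 / statio G α₀ := by
      rw [Finset.sum_eq_single α₀]
      · rw [h0, if_pos rfl]
        have := (statio_pos (G := G) α₀).ne'
        field_simp
      · intro b _ hb
        rw [h0, if_neg hb]; simp
      · intro h; exact absurd (mem_univ _) h
    rw [h2]
    linarith
  | succ t ih =>
    have h1 : (fun β => dens G α₀ (t + 1) β - 1) = KK G (fun β => dens G α₀ t β - 1) := by
      rw [KK_sub_one, dens_succ]
    rw [h1]
    refine (nrm_contract hA hP _ ?_).trans ?_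
    · have h2 : ∀ α, statio G α * (dens G α₀ t α - 1) = statio G α * dens G α₀ t α -
          statio G α := by intro α; ring
      rw [sum_congr rfl (fun α _ => h2 α), sum_sub_distrib, sum_dens, sum_statio, sub_self]
    · rw [pow_succ, mul_comm ((1 - 1 / A) ^ t), mul_assoc]
      exact mul_le_mul_of_nonneg_left ih hA1

/-- bound for the total variation distance -/
theorem dtv_sq_le {A : ℝ} (hA : 1 ≤ A) (hP : Poinc G Ω A) (α₀ : Ω) (t : ℕ) :
    dtv G α₀ t ^ 2 ≤ (1 - 1 / A) ^ t * (1 / statio G α₀) := by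
  have : Nonempty Ω := ⟨α₀⟩
  have h1 := dens_bound hA hP α₀ t
  have h2 : dtv G α₀ t = 1 / 2 * ∑ β, statio G β * |dens G α₀ t β - 1| := by
    unfold dtv
    rw [tsum_fintype]
    congr 1
    refine sum_congr rfl fun β _ => ?_
    have h3 := statio_pos (G := G) β
    have h4 : (law G α₀ t β).toReal - statio G β = statio G β * (dens G α₀ t β - 1) := by
      unfold dens
      field_simp
    rw [h4, abs_mul, abs_of_pos h3]
  have h3 : (∑ β, statio G β * |dens G α₀ t β - 1|) ^ 2 ≤
      nrm G (fun β => dens G α₀ t β - 1) := by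
    have h4 := Finset.sum_mul_sq_le_sq_mul_sq univ (fun β : Ω => √(statio G β))
      (fun β : Ω => √(statio G β) * |dens G α₀ t β - 1|)
    have h5 : ∀ β : Ω, √(statio G β) * (√(statio G β) * |dens G α₀ t β - 1|) =
        statio G β * |dens G α₀ t β - 1| := by
      intro β
      rw [← mul_assoc, Real.mul_self_sqrt (statio_pos (G := G) β).le]
    have h6 : ∀ β : Ω, √(statio G β) ^ 2 = statio G β := fun β =>
      Real.sq_sqrt (statio_pos (G := G) β).le
    have h7 : ∀ β : Ω, (√(statio G β) * |dens G α₀ t β - 1|) ^ 2 =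
        statio G β * (dens G α₀ t β - 1) ^ 2 := by
      intro β
      rw [mul_pow, h6, sq_abs]
    simp only [h5, h6, h7] at h4
    rw [sum_statio (G := G), one_mul] at h4
    exact h4
  rw [h2, mul_pow]
  have h8 : (0 : ℝ) ≤ (∑ β, statio G β * |dens G α₀ t β - 1|) ^ 2 := sq_nonneg _
  nlinarith

end

end Pool.Agent.Helper95.Burnside
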