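import Mathlib

/-!
# The discrete mountain climbing lemma
-/

set_option autoImplicit false

namespace Pool.Agent.Helper95.Burnside

/-- diagonal neighbours -/
def AdjP (p q : ℤ × ℤ) : Prop :=
  (q.1 = p.1 + 1 ∨ q.1 = p.1 - 1) ∧ (q.2 = p.2 + 1 ∨ q.2 = p.2 - 1)

lemma AdjP.symm {p q : ℤ × ℤ} (h : AdjP p q) : AdjP q p := by
  unfold AdjP at *
  omega

/-- valid positions: both climbers are at the same height -/
def ValP (a b : ℤ) (f g : ℤ → ℤ) (p : ℤ × ℤ) : Prop :=
  0 ≤ p.1 ∧ p.1 ≤ a ∧ 0 ≤ p.2 ∧ p.2 ≤ b ∧ f p.1 = g p.2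

lemma parity_aux {a b h i j v x1 x2 y1 y2 : ℤ} (hh : 0 < h) (hi0 : 0 ≤ i) (hia : i ≤ a)
    (hj0 : 0 ≤ j) (hjb : j ≤ b) (ha : 0 < a) (hb : 0 < b)
    (hx1 : i < a → (x1 = v + 1 ∨ x1 = v - 1) ∧ 0 ≤ x1 ∧ x1 ≤ h)
    (hx2 : 0 < i → (x2 = v + 1 ∨ x2 = v - 1) ∧ 0 ≤ x2 ∧ x2 ≤ h)
    (hy1 : j < b → (y1 = v + 1 ∨ y1 = v - 1) ∧ 0 ≤ y1 ∧ y1 ≤ h)
    (hy2 : 0 < j → (y2 = v + 1 ∨ y2 = v - 1) ∧ 0 ≤ y2 ∧ y2 ≤ h)
    (e1 : i = 0 → v = 0) (e2 : i = a → v = h) (e3 : j = 0 → v = 0) (e4 : j = b → v = h) :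
    (((if i < a ∧ j < b ∧ x1 = y1 then 1 else 0) + (if i < a ∧ 0 < j ∧ x1 = y2 then 1 else 0) +
      (if 0 < i ∧ j < b ∧ x2 = y1 then 1 else 0) +
      (if 0 < i ∧ 0 < j ∧ x2 = y2 then 1 else 0) : ℕ)) % 2 =
      if (i = 0 ∧ j = 0) ∨ (i = a ∧ j = b) then 1 else 0 := by
  split_ifs <;> omega

/-- The relation: diagonal moves between valid positions. -/
def RP (a b : ℤ) (f g : ℤ → ℤ) (p q : ℤ × ℤ) : Prop :=
  ValP a b f g p ∧ ValP a b f g q ∧ AdjP p q

lemma RP.symm {a b : ℤ} {f g : ℤ → ℤ} {p q : ℤ × ℤ} (h : RP a b f g p q) : RP a b f g q p :=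
  ⟨h.2.1, h.1, h.2.2.symm⟩

open Classical in
/-- **Mountain climbing**: two climbers on mountain sides with unit steps from height `0` to
height `h` can climb so that they are always at the same height. -/
theorem climb {a b h : ℤ} {f g : ℤ → ℤ} (hh : 0 < h) (ha : 0 ≤ a) (hb : 0 ≤ b)
    (hf0 : f 0 = 0) (hg0 : g 0 = 0) (hfa : f a = h) (hgb : g b = h)
    (hf : ∀ i, 0 ≤ i → i < a → (f (i + 1) = f i + 1 ∨ f (i + 1) = f i - 1))
    (hg : ∀ i, 0 ≤ i → i < b → (g (i + 1) = g i + 1 ∨ g (i + 1) = g i - 1))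
    (hf1 : ∀ i, 0 ≤ i → i ≤ a → 0 ≤ f i ∧ f i ≤ h)
    (hg1 : ∀ i, 0 ≤ i → i ≤ b → 0 ≤ g i ∧ g i ≤ h) :
    Relation.ReflTransGen (RP a b f g) (0, 0) (a, b) := by
  have ha' : 0 < a := by
    rcases ha.lt_or_eq with h1 | h1
    · exact h1
    · rw [← h1] at hfa; omega
  have hb' : 0 < b := by
    rcases hb.lt_or_eq with h1 | h1
    · exact h1
    · rw [← h1] at hgb; omega
  by_contra hcon
  set V : Finset (ℤ × ℤ) := (Finset.Icc 0 a ×ˢ Finset.Icc 0 b).filter (fun p => f p.1 = g p.2)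
    with hV
  have memV : ∀ p, p ∈ V ↔ ValP a b f g p := by
    intro p
    simp only [hV, Finset.mem_filter, Finset.mem_product, Finset.mem_Icc, ValP]
    tauto
  set S : Finset (ℤ × ℤ) := V.filter (fun p => Relation.ReflTransGen (RP a b f g) (0, 0) p) with hS
  have memS : ∀ p, p ∈ S ↔ ValP a b f g p ∧ Relation.ReflTransGen (RP a b f g) (0, 0) p := by
    intro p
    rw [hS, Finset.mem_filter, memV]
  have h00 : (0, 0) ∈ S := by
    rw [memS]
    exact ⟨⟨le_rfl, ha, le_rfl, hb, by simp only; rw [hf0, hg0]⟩, Relation.ReflTransGen.refl⟩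
  have hab : (a, b) ∉ S := fun h => hcon ((memS _).1 h).2
  -- degree
  have hdeg : ∀ p ∈ S, (S.filter (fun q => AdjP p q)).card % 2 = if p = (0, 0) then 1 else 0 := by
    rintro ⟨i, j⟩ hp
    have hpv := ((memS _).1 hp).1
    obtain ⟨hi0, hia, hj0, hjb, hij⟩ := hpv
    simp only at hi0 hia hj0 hjb hij
    have hset : S.filter (fun q => AdjP (i, j) q) =
        ({(i + 1, j + 1), (i + 1, j - 1), (i - 1, j + 1), (i - 1, j - 1)} :
          Finset (ℤ × ℤ)).filter (fun q => ValP a b f g q) := by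
      ext q
      simp only [Finset.mem_filter, Finset.mem_insert, Finset.mem_singleton, memS]
      constructor
      · rintro ⟨⟨h1, h2⟩, h3⟩
        refine ⟨?_, h1⟩
        obtain ⟨q1, q2⟩ := q
        simp only [AdjP] at h3
        simp only [Prod.mk.injEq]
        omega
      · rintro ⟨h1, h2⟩
        have h3 : AdjP (i, j) q := by
          obtain ⟨q1, q2⟩ := q
          simp only [Prod.mk.injEq] at h1
          simp only [AdjP]
          omega
        exact ⟨⟨h2, ((memS _).1 hp).2.tail ⟨⟨hi0, hia, hj0, hjb, hij⟩, h2, h3⟩⟩, h3⟩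
    rw [hset, Finset.card_filter, Finset.sum_insert, Finset.sum_insert, Finset.sum_insert,
      Finset.sum_singleton]
    · have key := parity_aux (a := a) (b := b) (h := h) (i := i) (j := j) (v := f i)
        (x1 := f (i + 1)) (x2 := f (i - 1)) (y1 := g (j + 1)) (y2 := g (j - 1)) hh hi0 hia hj0 hjb
        ha' hb' (fun h1 => ⟨hf i hi0 h1, hf1 (i + 1) (by omega) (by omega)⟩)
        (fun h1 => by
          have h2 := hf (i - 1) (by omega) (by omega)
          rw [sub_add_cancel] at h2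
          exact ⟨by omega, hf1 (i - 1) (by omega) (by omega)⟩)
        (fun h1 => by
          have h2 := hg j hj0 h1
          rw [hij]
          exact ⟨h2, hg1 (j + 1) (by omega) (by omega)⟩)
        (fun h1 => by
          have h2 := hg (j - 1) (by omega) (by omega)
          rw [sub_add_cancel] at h2
          rw [hij]
          exact ⟨by omega, hg1 (j - 1) (by omega) (by omega)⟩)
        (fun h1 => by rw [h1, hf0]) (fun h1 => by rw [h1, hfa]) (fun h1 => by rw [hij, h1, hg0])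
        (fun h1 => by rw [hij, h1, hgb])
      have e1 : (ValP a b f g (i + 1, j + 1)) ↔ (i < a ∧ j < b ∧ f (i + 1) = g (j + 1)) := by
        simp only [ValP]
        constructor
        · rintro ⟨h1, h2, h3, h4, h5⟩; exact ⟨by omega, by omega, h5⟩
        · rintro ⟨h1, h2, h3⟩; exact ⟨by omega, by omega, by omega, by omega, h3⟩
      have e2 : (ValP a b f g (i + 1, j - 1)) ↔ (i < a ∧ 0 < j ∧ f (i + 1) = g (j - 1)) := by
        simp only [ValP]
        constructor
        · rintro ⟨h1, h2, h3, h4, h5⟩; exact ⟨by omega, by omega, h5⟩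
        · rintro ⟨h1, h2, h3⟩; exact ⟨by omega, by omega, by omega, by omega, h3⟩
      have e3 : (ValP a b f g (i - 1, j + 1)) ↔ (0 < i ∧ j < b ∧ f (i - 1) = g (j + 1)) := by
        simp only [ValP]
        constructor
        · rintro ⟨h1, h2, h3, h4, h5⟩; exact ⟨by omega, by omega, h5⟩
        · rintro ⟨h1, h2, h3⟩; exact ⟨by omega, by omega, by omega, by omega, h3⟩
      have e4 : (ValP a b f g (i - 1, j - 1)) ↔ (0 < i ∧ 0 < j ∧ f (i - 1) = g (j - 1)) := by
        simp only [ValP]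
        constructor
        · rintro ⟨h1, h2, h3, h4, h5⟩; exact ⟨by omega, by omega, h5⟩
        · rintro ⟨h1, h2, h3⟩; exact ⟨by omega, by omega, by omega, by omega, h3⟩
      simp only [e1, e2, e3, e4]
      have e5 : (i, j) ≠ (a, b) := fun h => hab (h ▸ hp)
      have e6 : (if (i = 0 ∧ j = 0) ∨ (i = a ∧ j = b) then 1 else 0) =
          (if (i, j) = ((0, 0) : ℤ × ℤ) then 1 else 0) := by
        simp only [Prod.mk.injEq, ne_eq] at e5 ⊢
        simp only [e5, or_false]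
      rw [← e6, ← key]
      congr 1
      omega
    · simp only [Finset.mem_singleton, Prod.mk.injEq]; omega
    · simp only [Finset.mem_insert, Finset.mem_singleton, Prod.mk.injEq]; omega
    · simp only [Finset.mem_insert, Finset.mem_singleton, Prod.mk.injEq]; omega
  -- handshake
  have hsum0 : ∑ pq ∈ (S ×ˢ S).filter (fun pq => AdjP pq.1 pq.2), (1 : ZMod 2) = 0 := by
    refine Finset.sum_involution (fun pq _ => (pq.2, pq.1)) ?_ ?_ ?_ ?_
    · intro pq _
      decide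
    · rintro ⟨p, q⟩ hpq _ h1
      rw [Finset.mem_filter] at hpq
      have h2 := hpq.2
      simp only [AdjP] at h2
      simp only [Prod.mk.injEq] at h1
      rw [h1.1] at h2
      omega
    · rintro ⟨p, q⟩ hpq
      simp only [Finset.mem_filter, Finset.mem_product] at hpq ⊢
      exact ⟨⟨hpq.1.2, hpq.1.1⟩, hpq.2.symm⟩
    · rintro ⟨p, q⟩ hpq
      rfl
  have hsum1 : ∑ pq ∈ (S ×ˢ S).filter (fun pq => AdjP pq.1 pq.2), (1 : ZMod 2) = 1 := by
    rw [Finset.sum_filter, Finset.sum_product]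
    have h1 : ∀ p ∈ S, ∑ q ∈ S, (if AdjP p q then (1 : ZMod 2) else 0) =
        if p = (0, 0) then 1 else 0 := by
      intro p hp
      rw [← Finset.sum_filter, Finset.sum_const, nsmul_eq_mul, mul_one]
      have h2 := hdeg p hp
      have h3 : (((S.filter (fun q => AdjP p q)).card : ℕ) : ZMod 2) =
          (((S.filter (fun q => AdjP p q)).card % 2 : ℕ) : ZMod 2) := by
        rw [ZMod.natCast_mod]
      rw [h3, h2]
      split_ifs <;> simp
    rw [Finset.sum_congr rfl h1, Finset.sum_ite_eq' S (0, 0) (fun _ => (1 : ZMod 2)), if_pos h00]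
  rw [hsum0] at hsum1
  exact absurd hsum1 (by decide)

end Pool.Agent.Helper95.Burnside
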