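import Mathlib
import Pool.Agent.Helper95.Burnside.Climb

/-!
# Interpolating between two sequences of the same sum
-/

set_option autoImplicit false

open Relation

namespace Pool.Agent.Helper95.Burnside

/-- Extract a finite sequence from a reflexive transitive closure. -/
lemma exists_seq {α : Type*} {R : α → α → Prop} {x y : α} (h : ReflTransGen R x y) :
    ∃ (m : ℕ) (s : ℕ → α), s 0 = x ∧ s m = y ∧ ∀ i < m, R (s i) (s (i + 1)) := by
  induction h with
  | refl => exact ⟨0, fun _ => x, rfl, rfl, by simp⟩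
  | @tail b c _ hbc ih =>
    obtain ⟨m, s, h0, hm, hs⟩ := ih
    refine ⟨m + 1, fun i => if i ≤ m then s i else c, by simp [h0], by simp, ?_⟩
    intro i hi
    rcases Nat.lt_succ_iff_lt_or_eq.1 hi with h1 | h1
    · have h2 : i ≤ m := h1.le
      have h3 : i + 1 ≤ m := h1
      simp only [h2, h3, if_true]
      exact hs i h1
    · subst h1
      simp only [le_refl, if_true]
      rw [if_neg (by omega), hm]
      exact hbc

/-- between -/
def Btw (a b w : ℕ) : Prop := min a b ≤ w ∧ w ≤ max a b

lemma btw_path {a b : ℕ} : ∀ (d w w' : ℕ), Btw a b w → Btw a b w' → (w' = w + d ∨ w = w' + d) →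
    ReflTransGen (fun u v => Btw a b u ∧ Btw a b v ∧ (v = u + 1 ∨ u = v + 1)) w w' := by
  intro d
  induction d with
  | zero =>
    intro w w' _ _ h
    have : w = w' := by omega
    rw [this]
  | succ d ih =>
    intro w w' hw hw' h
    rcases h with h | h
    · have h1 : Btw a b (w + 1) := by unfold Btw at *; omega
      exact ReflTransGen.head ⟨hw, h1, Or.inl rfl⟩ (ih (w + 1) w' h1 hw' (by omega))
    · have h1 : Btw a b (w - 1) := by unfold Btw at *; omega
      exact ReflTransGen.head ⟨hw, h1, by omega⟩ (ih (w - 1) w' h1 hw' (by omega))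

lemma btw_path' {a b w w' : ℕ} (hw : Btw a b w) (hw' : Btw a b w') :
    ReflTransGen (fun u v => Btw a b u ∧ Btw a b v ∧ (v = u + 1 ∨ u = v + 1)) w w' := by
  rcases le_total w w' with h | h
  · exact btw_path (w' - w) w w' hw hw' (by omega)
  · exact btw_path (w - w') w w' hw hw' (by omega)

variable (A B : ℕ → ℕ)

/-- prefix exchanged up to `m`, weight `w` at `m`. -/
def yv (m w : ℕ) : ℕ → ℕ := fun j => if j < m then B j else if j = m then w else A j

/-- suffix exchanged from `m`, weight `w` at `m`. -/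
def xv (m w : ℕ) : ℕ → ℕ := fun j => if j < m then A j else if j = m then w else B j

/-- unit step of the first climber -/
def RY (i1 : ℕ) (z z' : ℕ → ℕ) : Prop :=
  ∃ m w w', m < i1 ∧ Btw (A m) (B m) w ∧ Btw (A m) (B m) w' ∧ (w' = w + 1 ∨ w = w' + 1) ∧
    z = yv A B m w ∧ z' = yv A B m w'

/-- unit step of the second climber -/
def RX (i1 K : ℕ) (z z' : ℕ → ℕ) : Prop :=
  ∃ m w w', i1 ≤ m ∧ m < K ∧ Btw (A m) (B m) w ∧ Btw (A m) (B m) w' ∧ (w' = w + 1 ∨ w = w' + 1) ∧
    z = xv A B m w ∧ z' = xv A B m w'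

lemma btw_left (a b : ℕ) : Btw a b a := by unfold Btw; omega
lemma btw_right (a b : ℕ) : Btw a b b := by unfold Btw; omega

lemma RY_block {i1 m : ℕ} (hm : m < i1) :
    ReflTransGen (RY A B i1) (yv A B m (A m)) (yv A B m (B m)) := by
  have h := btw_path' (btw_left (A m) (B m)) (btw_right (A m) (B m))
  exact h.lift (yv A B m) fun u v huv => ⟨m, u, v, hm, huv.1, huv.2.1, huv.2.2, rfl, rfl⟩

lemma yv_succ (m : ℕ) : yv A B m (B m) = yv A B (m + 1) (A (m + 1)) := by
  funext j
  unfold yv
  rcases lt_trichotomy j m with h | h | h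
  · rw [if_pos h, if_pos (by omega)]
  · subst h; simp
  · rw [if_neg (by omega : ¬ j < m), if_neg (by omega : ¬ j = m), if_neg (by omega : ¬ j < m + 1)]
    split_ifs with h1
    · rw [h1]
    · rfl

lemma RY_path {i1 : ℕ} : ∀ m ≤ i1, ReflTransGen (RY A B i1) (yv A B 0 (A 0)) (yv A B m (A m)) := by
  intro m
  induction m with
  | zero => intro _; exact ReflTransGen.refl
  | succ m ih =>
    intro hm
    refine (ih (by omega)).trans ?_
    rw [← yv_succ]
    exact RY_block A B (by omega)

lemma RX_block {i1 K m : ℕ} (hm : i1 ≤ m) (hm' : m < K) :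
    ReflTransGen (RX A B i1 K) (xv A B m (A m)) (xv A B m (B m)) := by
  have h := btw_path' (btw_left (A m) (B m)) (btw_right (A m) (B m))
  exact h.lift (xv A B m)
    fun u v huv => ⟨m, u, v, hm, hm', huv.1, huv.2.1, huv.2.2, rfl, rfl⟩

lemma xv_succ (m : ℕ) : xv A B (m + 1) (B (m + 1)) = xv A B m (A m) := by
  funext j
  unfold xv
  rcases lt_trichotomy j m with h | h | h
  · rw [if_pos h, if_pos (by omega)]
  · subst h; simp
  · rw [if_neg (by omega : ¬ j < m + 1), if_neg (by omega : ¬ j < m), if_neg (by omega : ¬ j = m)]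
    split_ifs with h1
    · rw [h1]
    · rfl

lemma RX_path {i1 K : ℕ} : ∀ d, i1 + d < K →
    ReflTransGen (RX A B i1 K) (xv A B (i1 + d) (A (i1 + d))) (xv A B i1 (B i1)) := by
  intro d
  induction d with
  | zero => intro h; exact RX_block A B le_rfl h
  | succ d ih =>
    intro h
    refine (RX_block A B (by omega) h).trans ?_
    rw [show i1 + (d + 1) = (i1 + d) + 1 from rfl, xv_succ]
    exact ih (by omega)

open Finset

/-- partial sums of `A - B` -/
def SS (m : ℕ) : ℤ := ∑ j ∈ range m, ((A j : ℤ) - B j)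

lemma SS_succ (m : ℕ) : SS A B (m + 1) = SS A B m + ((A m : ℤ) - B m) := by
  unfold SS; rw [sum_range_succ]

/-- total weight of a vector -/
def tot (K : ℕ) (z : ℕ → ℕ) : ℤ := ∑ j ∈ range K, (z j : ℤ)

lemma tot_yv {K m w : ℕ} (hm : m < K) :
    tot K A - tot K (yv A B m w) = SS A B m + ((A m : ℤ) - w) := by
  unfold tot SS
  rw [← sum_sub_distrib]
  have h1 : ∀ j ∈ range K, ((A j : ℤ) - (yv A B m w j : ℕ)) =
      (if j < m then ((A j : ℤ) - B j) else 0) + (if j = m then ((A m : ℤ) - w) else 0) := by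
    intro j _
    unfold yv
    rcases lt_trichotomy j m with h | h | h
    · rw [if_pos h, if_pos h, if_neg (by omega)]; ring
    · subst h; simp
    · rw [if_neg (by omega : ¬ j < m), if_neg (by omega : ¬ j = m), if_neg (by omega : ¬ j < m),
        if_neg (by omega : ¬ j = m)]; ring
  rw [sum_congr rfl h1, sum_add_distrib, sum_ite_eq' (range K) m, if_pos (mem_range.2 hm),
    ← sum_filter]
  congr 1
  apply sum_congr _ (fun _ _ => rfl)
  ext j
  simp only [mem_filter, mem_range]
  omega

lemma tot_xv {K m w : ℕ} (hm : m < K) (hAB : tot K A = tot K B) :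
    tot K (xv A B m w) - tot K A = SS A B m + ((w : ℤ) - B m) := by
  have h0 : tot K (xv A B m w) - tot K B = SS A B m + ((w : ℤ) - B m) := by
    unfold tot SS
    rw [← sum_sub_distrib]
    have h1 : ∀ j ∈ range K, (((xv A B m w j : ℕ) : ℤ) - B j) =
        (if j < m then ((A j : ℤ) - B j) else 0) + (if j = m then ((w : ℤ) - B m) else 0) := by
      intro j _
      unfold xv
      rcases lt_trichotomy j m with h | h | h
      · rw [if_pos h, if_pos h, if_neg (by omega)]; ring
      · subst h; simp
      · rw [if_neg (by omega : ¬ j < m), if_neg (by omega : ¬ j = m), if_neg (by omega : ¬ j < m),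
          if_neg (by omega : ¬ j = m)]; ring
    rw [sum_congr rfl h1, sum_add_distrib, sum_ite_eq' (range K) m, if_pos (mem_range.2 hm),
      ← sum_filter]
    congr 1
    apply sum_congr _ (fun _ _ => rfl)
    ext j
    simp only [mem_filter, mem_range]
    omega
  rw [hAB]; exact h0

/-- the interpolating vectors -/
def ZZ (K : ℕ) (z : ℕ → ℕ) : Prop :=
  (∃ l l', l < K ∧ l' < K ∧ (∀ j < K, (j < l ∨ l' < j) → z j = B j) ∧
    (∀ j < K, l < j → j < l' → z j = A j)) ∧
  (∀ j, z j ≤ max (A j) (B j)) ∧ tot K z = tot K A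

/-- steps between interpolating vectors -/
def RZ (K : ℕ) (z z' : ℕ → ℕ) : Prop :=
  ZZ A B K z ∧ ZZ A B K z' ∧ ∑ j ∈ range K, |(z j : ℤ) - z' j| ≤ 2

/-- L1 distance of unit step -/
lemma dist_yv {K m w w' : ℕ} (hm : m < K) (h : w' = w + 1 ∨ w = w' + 1) :
    ∑ j ∈ range K, |((yv A B m w j : ℕ) : ℤ) - (yv A B m w' j : ℕ)| = 1 := by
  have h1 : ∀ j ∈ range K, |((yv A B m w j : ℕ) : ℤ) - (yv A B m w' j : ℕ)| =
      if j = m then 1 else 0 := by
    intro j _
    unfold yv
    rcases lt_trichotomy j m with h2 | h2 | h2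
    · rw [if_pos h2, if_pos h2, if_neg (by omega)]; simp
    · subst h2
      simp only [lt_irrefl, if_false, if_true]
      rcases h with h | h
      · rw [h]; push_cast; rw [show (w : ℤ) - (w + 1) = -1 by ring]; rfl
      · rw [h]; push_cast; rw [show (w' : ℤ) + 1 - w' = 1 by ring]; rfl
    · rw [if_neg (by omega : ¬ j < m), if_neg (by omega : ¬ j = m), if_neg (by omega : ¬ j < m),
        if_neg (by omega : ¬ j = m), if_neg (by omega : ¬ j = m)]; simp
  rw [sum_congr rfl h1, sum_ite_eq' (range K) m, if_pos (mem_range.2 hm)]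

lemma dist_xv {K m w w' : ℕ} (hm : m < K) (h : w' = w + 1 ∨ w = w' + 1) :
    ∑ j ∈ range K, |((xv A B m w j : ℕ) : ℤ) - (xv A B m w' j : ℕ)| = 1 := by
  have h1 : ∀ j ∈ range K, |((xv A B m w j : ℕ) : ℤ) - (xv A B m w' j : ℕ)| =
      if j = m then 1 else 0 := by
    intro j _
    unfold xv
    rcases lt_trichotomy j m with h2 | h2 | h2
    · rw [if_pos h2, if_pos h2, if_neg (by omega)]; simp
    · subst h2
      simp only [lt_irrefl, if_false, if_true]
      rcases h with h | h
      · rw [h]; push_cast; rw [show (w : ℤ) - (w + 1) = -1 by ring]; rfl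
      · rw [h]; push_cast; rw [show (w' : ℤ) + 1 - w' = 1 by ring]; rfl
    · rw [if_neg (by omega : ¬ j < m), if_neg (by omega : ¬ j = m), if_neg (by omega : ¬ j < m),
        if_neg (by omega : ¬ j = m), if_neg (by omega : ¬ j = m)]; simp
  rw [sum_congr rfl h1, sum_ite_eq' (range K) m, if_pos (mem_range.2 hm)]

/-- good positions of the first climber -/
def GY (i1 : ℕ) (z : ℕ → ℕ) : Prop := ∃ m w, m < i1 ∧ Btw (A m) (B m) w ∧ z = yv A B m w

/-- good positions of the second climber -/
def GX (i1 K : ℕ) (z : ℕ → ℕ) : Prop :=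
  ∃ m w, i1 ≤ m ∧ m < K ∧ Btw (A m) (B m) w ∧ z = xv A B m w

/-- combination of the two climbers -/
def comb (y x : ℕ → ℕ) : ℕ → ℕ := fun j => y j + x j - A j

lemma comb_eq {i1 K : ℕ} {y x : ℕ → ℕ} (hy : GY A B i1 y) (hx : GX A B i1 K x) :
    ∀ j, comb A y x j + A j = y j + x j := by
  obtain ⟨m, w, hm, hw, rfl⟩ := hy
  obtain ⟨m', w', hm', hmK, hw', rfl⟩ := hx
  intro j
  unfold comb
  have : A j ≤ yv A B m w j + xv A B m' w' j := by
    unfold yv xv
    rcases lt_or_ge j m' with h | h
    · rw [if_pos h]; omega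
    · rw [if_neg (by omega : ¬ j < m), if_neg (by omega : ¬ j = m)]; omega
  omega

lemma comb_ZZ {i1 K : ℕ} (hi1 : i1 ≤ K)
    {y x : ℕ → ℕ} (hy : GY A B i1 y) (hx : GX A B i1 K x)
    (hyx : tot K A - tot K y = tot K x - tot K A) : ZZ A B K (comb A y x) := by
  have hc := comb_eq A B hy hx
  refine ⟨?_, ?_, ?_⟩
  · obtain ⟨m, w, hm, hw, rfl⟩ := hy
    obtain ⟨m', w', hm', hmK, hw', rfl⟩ := hx
    refine ⟨m, m', by omega, hmK, ?_, ?_⟩
    · rintro j hj (h | h)
      · have := hc j
        have h1 : yv A B m w j = B j := by unfold yv; rw [if_pos h]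
        have h2 : xv A B m' w' j = A j := by unfold xv; rw [if_pos (by omega)]
        omega
      · have := hc j
        have h1 : yv A B m w j = A j := by
          unfold yv; rw [if_neg (by omega : ¬ j < m), if_neg (by omega : ¬ j = m)]
        have h2 : xv A B m' w' j = B j := by
          unfold xv; rw [if_neg (by omega : ¬ j < m'), if_neg (by omega : ¬ j = m')]
        omega
    · intro j hj h1 h2
      have := hc j
      have h3 : yv A B m w j = A j := by
        unfold yv; rw [if_neg (by omega : ¬ j < m), if_neg (by omega : ¬ j = m)]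
      have h4 : xv A B m' w' j = A j := by unfold xv; rw [if_pos h2]
      omega
  · obtain ⟨m, w, hm, hw, rfl⟩ := hy
    obtain ⟨m', w', hm', hmK, hw', rfl⟩ := hx
    intro j
    have := hc j
    unfold Btw at hw hw'
    have h1 : yv A B m w j ≤ max (A j) (B j) := by
      unfold yv
      split_ifs with h1 h2
      · omega
      · subst h2; omega
      · omega
    have h2 : xv A B m' w' j ≤ max (A j) (B j) := by
      unfold xv
      split_ifs with h1 h2
      · omega
      · subst h2; omega
      · omega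
    rcases lt_or_ge j m' with h | h
    · have h2 : xv A B m' w' j = A j := by unfold xv; rw [if_pos h]
      omega
    · have h3 : yv A B m w j = A j := by
        unfold yv; rw [if_neg (by omega : ¬ j < m), if_neg (by omega : ¬ j = m)]
      omega
  · have h1 : tot K (comb A y x) + tot K A = tot K y + tot K x := by
      unfold tot
      rw [← sum_add_distrib, ← sum_add_distrib]
      refine sum_congr rfl fun j _ => ?_
      exact_mod_cast hc j
    linarith

lemma RY.symm {i1 : ℕ} {z z' : ℕ → ℕ} (h : RY A B i1 z z') : RY A B i1 z' z := by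
  obtain ⟨m, w, w', hm, hw, hw', h1, h2, h3⟩ := h
  exact ⟨m, w', w, hm, hw', hw, h1.symm, h3, h2⟩

lemma RX.symm {i1 K : ℕ} {z z' : ℕ → ℕ} (h : RX A B i1 K z z') : RX A B i1 K z' z := by
  obtain ⟨m, w, w', hm, hm', hw, hw', h1, h2, h3⟩ := h
  exact ⟨m, w', w, hm, hm', hw', hw, h1.symm, h3, h2⟩

lemma RY.good {i1 : ℕ} {z z' : ℕ → ℕ} (h : RY A B i1 z z') : GY A B i1 z := by
  obtain ⟨m, w, w', hm, hw, hw', h1, h2, h3⟩ := h
  exact ⟨m, w, hm, hw, h2⟩

lemma RX.good {i1 K : ℕ} {z z' : ℕ → ℕ} (h : RX A B i1 K z z') : GX A B i1 K z := by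
  obtain ⟨m, w, w', hm, hm', hw, hw', h1, h2, h3⟩ := h
  exact ⟨m, w, hm, hm', hw, h2⟩

lemma RY.dist {i1 K : ℕ} (hi1 : i1 ≤ K) {z z' : ℕ → ℕ} (h : RY A B i1 z z') :
    ∑ j ∈ range K, |(z j : ℤ) - z' j| = 1 := by
  obtain ⟨m, w, w', hm, hw, hw', h1, rfl, rfl⟩ := h
  exact dist_yv A B (by omega) h1

lemma RX.dist {i1 K : ℕ} {z z' : ℕ → ℕ} (h : RX A B i1 K z z') :
    ∑ j ∈ range K, |(z j : ℤ) - z' j| = 1 := by
  obtain ⟨m, w, w', hm, hm', hw, hw', h1, rfl, rfl⟩ := h
  exact dist_xv A B hm' h1

lemma RY.height {i1 K : ℕ} (hi1 : i1 ≤ K) {z z' : ℕ → ℕ} (h : RY A B i1 z z') :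
    tot K A - tot K z' = tot K A - tot K z + 1 ∨ tot K A - tot K z' = tot K A - tot K z - 1 := by
  obtain ⟨m, w, w', hm, hw, hw', h1, rfl, rfl⟩ := h
  rw [tot_yv A B (by omega : m < K), tot_yv A B (by omega : m < K)]
  omega

lemma RX.height {i1 K : ℕ} (hAB : tot K A = tot K B) {z z' : ℕ → ℕ} (h : RX A B i1 K z z') :
    tot K z' - tot K A = tot K z - tot K A + 1 ∨ tot K z' - tot K A = tot K z - tot K A - 1 := by
  obtain ⟨m, w, w', hm, hm', hw, hw', h1, rfl, rfl⟩ := h
  rw [tot_xv A B hm' hAB, tot_xv A B hm' hAB]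
  omega

lemma GY.bound {i1 K : ℕ} {h : ℤ} (hi1 : i1 ≤ K) (hb : ∀ m ≤ K, 0 ≤ SS A B m ∧ SS A B m ≤ h)
    {z : ℕ → ℕ} (hz : GY A B i1 z) : 0 ≤ tot K A - tot K z ∧ tot K A - tot K z ≤ h := by
  obtain ⟨m, w, hm, hw, rfl⟩ := hz
  rw [tot_yv A B (by omega : m < K)]
  have h1 := hb m (by omega)
  have h2 := hb (m + 1) (by omega)
  rw [SS_succ] at h2
  unfold Btw at hw
  omega

lemma GX.bound {i1 K : ℕ} {h : ℤ} (hAB : tot K A = tot K B)
    (hb : ∀ m ≤ K, 0 ≤ SS A B m ∧ SS A B m ≤ h)
    {z : ℕ → ℕ} (hz : GX A B i1 K z) : 0 ≤ tot K z - tot K A ∧ tot K z - tot K A ≤ h := by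
  obtain ⟨m, w, hm, hm', hw, rfl⟩ := hz
  rw [tot_xv A B hm' hAB]
  have h1 := hb m (by omega)
  have h2 := hb (m + 1) (by omega)
  rw [SS_succ] at h2
  unfold Btw at hw
  omega

/-- Interpolation between `A` and `B` through vectors of the same total which agree with `B`
outside an interval and with `A` inside it. -/
theorem interp {K : ℕ} (hA : ∀ j, K ≤ j → A j = 0) (hB : ∀ j, K ≤ j → B j = 0)
    (hAB : tot K A = tot K B) (hpos : ∀ m ≤ K, 0 ≤ SS A B m) :
    ReflTransGen (RZ A B K) A B := by
  obtain ⟨i1, hi1, hmax⟩ := Finset.exists_max_image (range (K + 1)) (SS A B) ⟨0, by simp⟩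
  simp only [mem_range] at hi1 hmax
  have hi1K : i1 ≤ K := by omega
  have hSK : SS A B K = 0 := by
    unfold SS
    rw [sum_sub_distrib]
    unfold tot at hAB
    omega
  rcases (hpos i1 hi1K).eq_or_lt with hh | hh
  · -- all partial sums vanish
    have h0 : ∀ m ≤ K, SS A B m = 0 := fun m hm => le_antisymm
      (by rw [hh]; exact hmax m (by omega)) (hpos m hm)
    have hAeqB : A = B := by
      funext j
      rcases lt_or_ge j K with hj | hj
      · have h1 := SS_succ A B j
        rw [h0 j (by omega), h0 (j + 1) (by omega)] at h1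
        omega
      · rw [hA j hj, hB j hj]
    rw [hAeqB]
  · set h := SS A B i1 with hdef
    have hi0 : i1 ≠ 0 := by
      intro h1
      rw [hdef, h1] at hh
      simp [SS] at hh
    have hiK : i1 ≠ K := by
      intro h1
      rw [hdef, h1, hSK] at hh
      exact lt_irrefl _ hh
    have hbd : ∀ m ≤ K, 0 ≤ SS A B m ∧ SS A B m ≤ h := fun m hm => ⟨hpos m hm, hmax m (by omega)⟩
    have hy0 : yv A B 0 (A 0) = A := by
      funext j
      unfold yv
      split_ifs with h1 h2
      · omega
      · rw [h2]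
      · rfl
    have hx0 : xv A B (i1 + (K - 1 - i1)) (A (i1 + (K - 1 - i1))) = A := by
      have e : i1 + (K - 1 - i1) = K - 1 := by omega
      rw [e]
      funext j
      unfold xv
      split_ifs with h1 h2
      · rfl
      · rw [h2]
      · rw [hA j (by omega), hB j (by omega)]
    have hY := RY_path A B i1 le_rfl
    rw [hy0] at hY
    have hX := RX_path A B (i1 := i1) (K := K) (K - 1 - i1) (by omega)
    rw [hx0] at hX
    obtain ⟨a, y, hya, hyb, hy⟩ := exists_seq hY
    obtain ⟨b, x, hxa, hxb, hx⟩ := exists_seq hX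
    have htot1 : tot K A - tot K (y a) = h := by
      rw [hyb, tot_yv A B (by omega : i1 < K)]; ring
    have htot2 : tot K (x b) - tot K A = h := by
      rw [hxb, tot_xv A B (by omega : i1 < K) hAB]; ring
    have ha0 : a ≠ 0 := by
      intro h1
      rw [h1, hya] at htot1
      omega
    have hb0 : b ≠ 0 := by
      intro h1
      rw [h1, hxa] at htot2
      omega
    have hgy : ∀ i ≤ a, GY A B i1 (y i) := by
      intro i hi
      rcases hi.lt_or_eq with h1 | h1
      · exact (hy i h1).good
      · rw [h1]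
        have h2 := hy (a - 1) (by omega)
        rw [Nat.sub_add_cancel (by omega)] at h2
        exact h2.symm.good
    have hgx : ∀ i ≤ b, GX A B i1 K (x i) := by
      intro i hi
      rcases hi.lt_or_eq with h1 | h1
      · exact (hx i h1).good
      · rw [h1]
        have h2 := hx (b - 1) (by omega)
        rw [Nat.sub_add_cancel (by omega)] at h2
        exact h2.symm.good
    have key := climb (a := a) (b := b) (h := h) (f := fun i => tot K A - tot K (y i.toNat))
      (g := fun i => tot K (x i.toNat) - tot K A) hh (by positivity) (by positivity)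
      (by simp [hya]) (by simp [hxa]) (by simpa using htot1) (by simpa using htot2)
      (fun i hi0 hia => by
        have h1 := (hy i.toNat (by omega)).height (K := K) A B hi1K
        have h2 : (i + 1).toNat = i.toNat + 1 := by omega
        rw [h2]; exact h1)
      (fun i hi0 hib => by
        have h1 := (hx i.toNat (by omega)).height A B hAB
        have h2 : (i + 1).toNat = i.toNat + 1 := by omega
        rw [h2]; exact h1)
      (fun i hi0 hia => GY.bound A B hi1K hbd (hgy i.toNat (by omega)))
      (fun i hi0 hib => GX.bound A B hAB hbd (hgx i.toNat (by omega)))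
    have key2 := key.lift (p := RZ A B K) (fun p : ℤ × ℤ => comb A (y p.1.toNat) (x p.2.toNat)) ?_
    · have e1 : comb A (y (0 : ℤ).toNat) (x (0 : ℤ).toNat) = A := by
        simp only [Int.toNat_zero, hya, hxa]
        funext j
        unfold comb
        omega
      have e2 : comb A (y (a : ℤ).toNat) (x (b : ℤ).toNat) = B := by
        simp only [Int.toNat_natCast, hyb, hxb]
        funext j
        unfold comb yv xv
        rcases lt_trichotomy j i1 with h | h | h
        · rw [if_pos h, if_pos h]; omega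
        · subst h; simp
        · rw [if_neg (by omega : ¬ j < i1), if_neg (by omega : ¬ j = i1),
            if_neg (by omega : ¬ j < i1), if_neg (by omega : ¬ j = i1)]; omega
      simp only [Function.onFun] at key2
      rw [e1, e2] at key2
      exact key2
    · rintro ⟨i, j⟩ ⟨i', j'⟩ ⟨hv1, hv2, hadj⟩
      obtain ⟨h1, h2, h3, h4, h5⟩ := hv1
      obtain ⟨h1', h2', h3', h4', h5'⟩ := hv2
      simp only at h1 h2 h3 h4 h5 h1' h2' h3' h4' h5'
      have gy := hgy i.toNat (by omega)
      have gy' := hgy i'.toNat (by omega)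
      have gx := hgx j.toNat (by omega)
      have gx' := hgx j'.toNat (by omega)
      refine ⟨comb_ZZ A B hi1K gy gx h5, comb_ZZ A B hi1K gy' gx' h5', ?_⟩
      have d1 : ∑ t ∈ range K, |((y i.toNat) t : ℤ) - (y i'.toNat) t| = 1 := by
        rcases hadj.1 with e | e
        · simp only at e
          have e' : i'.toNat = i.toNat + 1 := by omega
          rw [e']
          exact (hy i.toNat (by omega)).dist A B hi1K
        · simp only at e
          have e' : i.toNat = i'.toNat + 1 := by omega
          rw [e']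
          exact (hy i'.toNat (by omega)).symm.dist A B hi1K
      have d2 : ∑ t ∈ range K, |((x j.toNat) t : ℤ) - (x j'.toNat) t| = 1 := by
        rcases hadj.2 with e | e
        · simp only at e
          have e' : j'.toNat = j.toNat + 1 := by omega
          rw [e']
          exact (hx j.toNat (by omega)).dist A B
        · simp only at e
          have e' : j.toNat = j'.toNat + 1 := by omega
          rw [e']
          exact (hx j'.toNat (by omega)).symm.dist A B
      have hc := comb_eq A B gy gx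
      have hc' := comb_eq A B gy' gx'
      calc ∑ t ∈ range K, |((comb A (y i.toNat) (x j.toNat) t : ℕ) : ℤ) -
            (comb A (y i'.toNat) (x j'.toNat) t : ℕ)|
          ≤ ∑ t ∈ range K, (|((y i.toNat) t : ℤ) - (y i'.toNat) t| +
              |((x j.toNat) t : ℤ) - (x j'.toNat) t|) := by
            refine sum_le_sum fun t _ => ?_
            have e1 : (((comb A (y i.toNat) (x j.toNat) t : ℕ) : ℤ) -
                (comb A (y i'.toNat) (x j'.toNat) t : ℕ)) =
                (((y i.toNat) t : ℤ) - (y i'.toNat) t) + (((x j.toNat) t : ℤ) - (x j'.toNat) t) := by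
              have := hc t
              have := hc' t
              omega
            rw [e1]
            exact abs_add_le _ _
        _ = 2 := by rw [sum_add_distrib, d1, d2]; norm_num
        _ ≤ 2 := le_rfl

end Pool.Agent.Helper95.Burnside
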