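import Mathlib
import Pool.Agent.Helper95.Burnside.Interp

/-!
# Interpolation between partitions
-/

set_option autoImplicit false

open Relation Finset

namespace Pool.Agent.Helper95.Burnside

/-- partitions of `n` with all parts at least `3` -/
def PP (n : ℕ) : Finset (Multiset ℕ) :=
  ((Finset.univ : Finset (Nat.Partition n)).image Nat.Partition.parts).filter
    (fun m => ∀ x ∈ m, 3 ≤ x)

lemma mem_PP {n : ℕ} {m : Multiset ℕ} : m ∈ PP n ↔ m.sum = n ∧ ∀ x ∈ m, 3 ≤ x := by
  unfold PP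
  simp only [mem_filter, mem_image, mem_univ, true_and]
  constructor
  · rintro ⟨⟨p, rfl⟩, h⟩
    exact ⟨p.parts_sum, h⟩
  · rintro ⟨h1, h2⟩
    exact ⟨⟨⟨m, fun {i} hi => by have := h2 i hi; omega, h1⟩, rfl⟩, h2⟩

lemma le_of_mem_PP {n : ℕ} {m : Multiset ℕ} (h : m ∈ PP n) {x : ℕ} (hx : x ∈ m) : x ≤ n := by
  rw [mem_PP] at h
  rw [← h.1]
  exact Multiset.single_le_sum (fun _ _ => Nat.zero_le _) x hx

/-- weights -/
def WW (m : Multiset ℕ) (k : ℕ) : ℕ := k * m.count k

lemma sum_eq_sum_WW {K : ℕ} {m : Multiset ℕ} (h : ∀ x ∈ m, x < K) :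
    m.sum = ∑ k ∈ range K, WW m k := by
  rw [Finset.sum_multiset_count]
  have h1 : m.toFinset ⊆ range K := fun x hx => by
    rw [Multiset.mem_toFinset] at hx
    exact mem_range.2 (h x hx)
  rw [← Finset.sum_subset h1]
  · refine sum_congr rfl fun k _ => ?_
    unfold WW
    rw [smul_eq_mul, mul_comm]
  · intro k _ hk
    rw [Multiset.mem_toFinset] at hk
    unfold WW
    rw [Multiset.count_eq_zero_of_notMem hk, mul_zero]

lemma sum_WW {n : ℕ} {m : Multiset ℕ} (h : m ∈ PP n) : ∑ k ∈ range (n + 1), WW m k = n := by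
  rw [← sum_eq_sum_WW (fun x hx => by have := le_of_mem_PP h hx; omega)]
  exact (mem_PP.1 h).1

lemma WW_large {n : ℕ} {m : Multiset ℕ} (h : m ∈ PP n) {k : ℕ} (hk : n + 1 ≤ k) : WW m k = 0 := by
  unfold WW
  rw [Multiset.count_eq_zero_of_notMem, mul_zero]
  intro h1
  have := le_of_mem_PP h h1
  omega

lemma WW_small {n : ℕ} {m : Multiset ℕ} (h : m ∈ PP n) {k : ℕ} (hk : k < 3) : WW m k = 0 := by
  unfold WW
  rw [Multiset.count_eq_zero_of_notMem, mul_zero]
  intro h1
  have := (mem_PP.1 h).2 k h1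
  omega

lemma WW_le {n : ℕ} {m : Multiset ℕ} (h : m ∈ PP n) (k : ℕ) : WW m k ≤ n := by
  rcases lt_or_ge k (n + 1) with hk | hk
  · have h1 := sum_WW h
    calc WW m k ≤ ∑ k ∈ range (n + 1), WW m k :=
          Finset.single_le_sum (f := fun k => WW m k) (fun _ _ => Nat.zero_le _) (mem_range.2 hk)
      _ = n := h1
  · rw [WW_large h hk]; omega

/-- window sums of periodic functions -/
lemma window {M : Type*} [AddCommMonoid M] {K : ℕ} (hK : 0 < K) (F : ℕ → M) (s : ℕ) :
    ∑ j ∈ range K, F ((j + s) % K) = ∑ j ∈ range K, F j := by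
  have h0 : ∀ s, ∑ j ∈ range K, F ((j + s) % K) = ∑ j ∈ range K, F ((j + (s + 1)) % K) := by
    intro s
    obtain ⟨K', rfl⟩ : ∃ K', K = K' + 1 := ⟨K - 1, by omega⟩
    rw [sum_range_succ', sum_range_succ (fun j => F ((j + (s + 1)) % (K' + 1)))]
    congr 1
    · refine sum_congr rfl fun j _ => ?_
      congr 2; ring
    · congr 1
      rw [show K' + (s + 1) = 0 + s + (K' + 1) by ring, Nat.add_mod_right]
  induction s with
  | zero =>
    refine sum_congr rfl fun j hj => ?_
    rw [add_zero, Nat.mod_eq_of_lt (mem_range.1 hj)]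
  | succ s ih => rw [← h0 s, ih]

/-- the cycle lemma -/
lemma cycle_lemma {K : ℕ} (hK : 0 < K) (v : ℕ → ℤ) (hv : ∑ j ∈ range K, v j = 0) :
    ∃ r < K, ∀ m ≤ K, 0 ≤ ∑ j ∈ range m, v ((j + r) % K) := by
  set P : ℕ → ℤ := fun i => ∑ j ∈ range i, v (j % K) with hP
  have hper : ∀ i, P (i + K) = P i := by
    intro i
    simp only [hP]
    rw [sum_range_add (fun j => v (j % K)) i K]
    have h1 := window hK v i
    rw [hv] at h1
    have h2 : ∑ x ∈ range K, v ((i + x) % K) = 0 := by
      rw [← h1]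
      refine sum_congr rfl fun j _ => ?_
      rw [add_comm]
    rw [h2, add_zero]
  obtain ⟨r, hr, hmin⟩ := Finset.exists_min_image (range K) P ⟨0, mem_range.2 hK⟩
  rw [mem_range] at hr
  refine ⟨r, hr, fun m hm => ?_⟩
  have h1 : ∑ j ∈ range m, v ((j + r) % K) = P (r + m) - P r := by
    simp only [hP]
    rw [sum_range_add (fun j => v (j % K)) r m, add_sub_cancel_left]
    refine sum_congr rfl fun j _ => ?_
    rw [add_comm]
  rw [h1, sub_nonneg]
  rcases lt_or_ge (r + m) K with h2 | h2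
  · exact hmin _ (mem_range.2 h2)
  · have h3 : r + m = (r + m - K) + K := by omega
    rw [h3, hper]
    exact hmin _ (mem_range.2 (by omega))

/-- The interpolating vectors in terms of sizes. -/
def Z2 (n : ℕ) (a b : Multiset ℕ) (s l l' : ℕ) (z : ℕ → ℕ) : Prop :=
  (∀ k < n + 1, ((k + s) % (n + 1) < l ∨ l' < (k + s) % (n + 1)) → z k = WW b k) ∧
  (∀ k < n + 1, l < (k + s) % (n + 1) → (k + s) % (n + 1) < l' → z k = WW a k) ∧
  (∀ k, z k ≤ max (WW a k) (WW b k)) ∧ ∑ k ∈ range (n + 1), z k = n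

/-- The steps. -/
def RZ2 (n : ℕ) (a b : Multiset ℕ) (z z' : ℕ → ℕ) : Prop :=
  (∃ s l l', s < n + 1 ∧ l < n + 1 ∧ l' < n + 1 ∧ Z2 n a b s l l' z) ∧
  (∃ s l l', s < n + 1 ∧ l < n + 1 ∧ l' < n + 1 ∧ Z2 n a b s l l' z') ∧
  ∑ k ∈ range (n + 1), |(z k : ℤ) - z' k| ≤ 2

lemma shift_inv {K r k : ℕ} (hr : r < K) (hk : k < K) :
    ((k + (K - r) % K) % K + r) % K = k := by
  rw [Nat.add_mod_mod, Nat.mod_add_mod, show k + (K - r) + r = k + K by omega, Nat.add_mod_right,
    Nat.mod_eq_of_lt hk]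

theorem interp2 {n : ℕ} {a b : Multiset ℕ} (ha : a ∈ PP n) (hb : b ∈ PP n) :
    ReflTransGen (RZ2 n a b) (WW a) (WW b) := by
  set K := n + 1 with hK
  have hK0 : 0 < K := by omega
  have hv : ∑ j ∈ range K, ((WW a j : ℤ) - WW b j) = 0 := by
    rw [sum_sub_distrib]
    have h1 := sum_WW ha
    have h2 := sum_WW hb
    rw [← Nat.cast_sum, ← Nat.cast_sum, h1, h2, sub_self]
  obtain ⟨r, hr, hpos⟩ := cycle_lemma hK0 (fun j => (WW a j : ℤ) - WW b j) hv
  set A : ℕ → ℕ := fun l => if l < K then WW a ((l + r) % K) else 0 with hA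
  set B : ℕ → ℕ := fun l => if l < K then WW b ((l + r) % K) else 0 with hB
  have hAt : tot K A = n := by
    unfold tot
    have h1 : ∀ j ∈ range K, ((A j : ℕ) : ℤ) = ((WW a ((j + r) % K) : ℕ) : ℤ) := by
      intro j hj
      simp only [hA, if_pos (mem_range.1 hj)]
    rw [sum_congr rfl h1, window hK0 (fun k => ((WW a k : ℕ) : ℤ)) r, ← Nat.cast_sum, sum_WW ha]
  have hBt : tot K B = n := by
    unfold tot
    have h1 : ∀ j ∈ range K, ((B j : ℕ) : ℤ) = ((WW b ((j + r) % K) : ℕ) : ℤ) := by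
      intro j hj
      simp only [hB, if_pos (mem_range.1 hj)]
    rw [sum_congr rfl h1, window hK0 (fun k => ((WW b k : ℕ) : ℤ)) r, ← Nat.cast_sum, sum_WW hb]
  have key := interp A B (K := K) (fun j hj => by simp only [hA]; rw [if_neg (by omega)])
    (fun j hj => by simp only [hB]; rw [if_neg (by omega)]) (hAt.trans hBt.symm) (by
      intro m hm
      have h1 := hpos m hm
      unfold SS
      rw [sum_congr rfl (g := fun j => ((WW a ((j + r) % K) : ℤ) - WW b ((j + r) % K)))]
      · exact h1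
      · intro j hj
        rw [mem_range] at hj
        simp only [hA, hB, if_pos (by omega : j < K)])
  set s := (K - r) % K with hs
  have hsK : s < K := Nat.mod_lt _ hK0
  have key2 := key.lift (p := RZ2 n a b) (fun z => fun k => if k < K then z ((k + s) % K) else 0) ?_
  · simp only [Function.onFun] at key2
    have e1 : (fun k => if k < K then A ((k + s) % K) else 0) = WW a := by
      funext k
      split_ifs with hk
      · simp only [hA, if_pos (Nat.mod_lt _ hK0)]
        rw [hs, shift_inv hr hk]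
      · exact (WW_large ha (by omega)).symm
    have e2 : (fun k => if k < K then B ((k + s) % K) else 0) = WW b := by
      funext k
      split_ifs with hk
      · simp only [hB, if_pos (Nat.mod_lt _ hK0)]
        rw [hs, shift_inv hr hk]
      · exact (WW_large hb (by omega)).symm
    rw [e1, e2] at key2
    exact key2
  · have hZ : ∀ z, ZZ A B K z → ∃ s l l', s < n + 1 ∧ l < n + 1 ∧ l' < n + 1 ∧
        Z2 n a b s l l' (fun k => if k < K then z ((k + s) % K) else 0) ∧ s = (K - r) % K := by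
      rintro z ⟨⟨l, l', hl, hl', h1, h2⟩, h3, h4⟩
      refine ⟨s, l, l', hsK, hl, hl', ⟨?_, ?_, ?_, ?_⟩, hs⟩
      · intro k hk h5
        simp only [if_pos (show k < K from hk)]
        rw [h1 _ (Nat.mod_lt _ hK0) h5]
        simp only [hB, if_pos (Nat.mod_lt _ hK0)]
        rw [hs, shift_inv hr hk]
      · intro k hk h5 h6
        simp only [if_pos (show k < K from hk)]
        rw [h2 _ (Nat.mod_lt _ hK0) h5 h6]
        simp only [hA, if_pos (Nat.mod_lt _ hK0)]
        rw [hs, shift_inv hr hk]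
      · intro k
        simp only
        split_ifs with hk
        · have h5 := h3 ((k + s) % K)
          simp only [hA, hB, if_pos (Nat.mod_lt (k + s) hK0)] at h5
          rw [hs, shift_inv hr hk] at h5
          exact h5
        · exact Nat.zero_le _
      · have h5 : ∑ k ∈ range (n + 1), (fun k => if k < K then z ((k + s) % K) else 0) k =
            ∑ k ∈ range K, z ((k + s) % K) := by
          refine sum_congr rfl fun k hk => ?_
          simp only [if_pos (mem_range.1 hk)]
        rw [h5, window hK0 z s]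
        unfold tot at h4 hAt
        rw [hAt] at h4
        exact_mod_cast h4
    rintro z z' ⟨hz, hz', hd⟩
    obtain ⟨s1, l1, l1', ha1, ha2, ha3, ha4, ha5⟩ := hZ z hz
    obtain ⟨s2, l2, l2', hb1, hb2, hb3, hb4, hb5⟩ := hZ z' hz'
    rw [← hs] at ha5 hb5
    subst ha5 hb5
    refine ⟨⟨_, l1, l1', ha1, ha2, ha3, ha4⟩, ⟨_, l2, l2', hb1, hb2, hb3, hb4⟩, ?_⟩
    have h5 : ∑ k ∈ range (n + 1), |(((fun k => if k < K then z ((k + s) % K) else 0) k : ℕ) : ℤ) -
        ((fun k => if k < K then z' ((k + s) % K) else 0) k : ℕ)| =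
        ∑ k ∈ range K, (fun j => |(z j : ℤ) - z' j|) ((k + s) % K) := by
      refine sum_congr rfl fun k hk => ?_
      simp only [if_pos (mem_range.1 hk)]
    rw [h5, window hK0 (fun j => |(z j : ℤ) - z' j|) s]
    exact hd

end Pool.Agent.Helper95.Burnside
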