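import Mathlib
import Pool.Agent.Helper95.Burnside.Core

/-!
# Realizing interpolating vectors by partitions
-/

set_option autoImplicit false

open Relation Finset

namespace Pool.Agent.Helper95.Burnside

/-- the multiset with `z k / k` parts of size `k`. -/
def BB (n : ℕ) (z : ℕ → ℕ) : Multiset ℕ := ∑ k ∈ range (n + 1), Multiset.replicate (z k / k) k

lemma count_sum_replicate {K : ℕ} (c : ℕ → ℕ) (k : ℕ) :
    (∑ j ∈ range K, Multiset.replicate (c j) j).count k = if k < K then c k else 0 := by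
  rw [Multiset.count_sum']
  simp only [Multiset.count_replicate]
  rw [Finset.sum_ite_eq' (range K) k c]
  simp only [mem_range]

lemma count_BB (n : ℕ) (z : ℕ → ℕ) (k : ℕ) :
    (BB n z).count k = if k < n + 1 then z k / k else 0 := count_sum_replicate _ k

lemma sum_BB (n : ℕ) (z : ℕ → ℕ) : (BB n z).sum = ∑ k ∈ range (n + 1), z k / k * k := by
  unfold BB
  rw [Multiset.sum_sum]
  refine sum_congr rfl fun k _ => ?_
  rw [Multiset.sum_replicate, smul_eq_mul]

lemma BB_WW {n : ℕ} {m : Multiset ℕ} (h : m ∈ PP n) : BB n (WW m) = m := by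
  ext k
  rw [count_BB]
  split_ifs with hk
  · unfold WW
    rcases Nat.eq_zero_or_pos k with h0 | h0
    · subst h0
      rw [Nat.div_zero, Multiset.count_eq_zero_of_notMem]
      intro h1
      have := (mem_PP.1 h).2 0 h1
      omega
    · rw [Nat.mul_div_cancel_left _ h0]
  · rw [Multiset.count_eq_zero_of_notMem]
    intro h1
    have := le_of_mem_PP h h1
    omega

/-- `g` realizes `z`. -/
def Re (n : ℕ) (z : ℕ → ℕ) (g : Multiset ℕ) : Prop :=
  g ∈ PP n ∧ (g - BB n z).card ≤ 1 ∧ (BB n z - g).card ≤ 1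

lemma Re_WW {n : ℕ} {m : Multiset ℕ} (h : m ∈ PP n) : Re n (WW m) m := by
  refine ⟨h, ?_, ?_⟩ <;> rw [BB_WW h] <;> simp

lemma mem_BB {n : ℕ} {z : ℕ → ℕ} (h3 : ∀ k < 3, z k = 0) {x : ℕ} (hx : x ∈ BB n z) : 3 ≤ x := by
  have h1 := Multiset.count_pos.2 hx
  rw [count_BB] at h1
  by_contra h
  rw [h3 x (by omega)] at h1
  simp at h1

lemma exists_Re {n : ℕ} (hn : 3 ≤ n) {z : ℕ → ℕ} (h3 : ∀ k < 3, z k = 0)
    (hs : ∑ k ∈ range (n + 1), z k = n) : ∃ g, Re n z g := by
  have hle : (BB n z).sum ≤ n := by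
    rw [sum_BB]
    calc ∑ k ∈ range (n + 1), z k / k * k ≤ ∑ k ∈ range (n + 1), z k :=
          sum_le_sum fun k _ => Nat.div_mul_le_self _ _
      _ = n := hs
  obtain ⟨ρ, hρ⟩ : ∃ ρ, (BB n z).sum + ρ = n := ⟨n - (BB n z).sum, by omega⟩
  rcases Nat.eq_zero_or_pos ρ with h0 | h0
  · refine ⟨BB n z, mem_PP.2 ⟨by omega, fun x hx => mem_BB h3 hx⟩, ?_, ?_⟩ <;> simp
  · rcases lt_or_ge ρ 3 with h1 | h1
    · have hne : BB n z ≠ 0 := by
        intro h
        rw [h] at hρ
        simp at hρ
        omega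
      obtain ⟨x, hx⟩ := Multiset.exists_mem_of_ne_zero hne
      have hx3 := mem_BB h3 hx
      have hsum : ((BB n z).erase x).sum + x = (BB n z).sum := by
        conv_rhs => rw [← Multiset.cons_erase hx]
        rw [Multiset.sum_cons, add_comm]
      refine ⟨(x + ρ) ::ₘ (BB n z).erase x, mem_PP.2 ⟨?_, ?_⟩, ?_, ?_⟩
      · rw [Multiset.sum_cons]; omega
      · intro y hy
        rw [Multiset.mem_cons] at hy
        rcases hy with hy | hy
        · omega
        · exact mem_BB h3 (Multiset.mem_of_mem_erase hy)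
      · have h4 : (x + ρ) ::ₘ (BB n z).erase x - BB n z ≤ {x + ρ} := by
          rw [tsub_le_iff_right, ← Multiset.singleton_add]
          exact add_le_add_right (Multiset.erase_le _ _) _
        have := Multiset.card_le_card h4
        simpa using this
      · have h4 : BB n z - (x + ρ) ::ₘ (BB n z).erase x ≤ {x} := by
          rw [tsub_le_iff_right]
          calc BB n z = {x} + (BB n z).erase x := by
                rw [Multiset.singleton_add, Multiset.cons_erase hx]
            _ ≤ {x} + (x + ρ) ::ₘ (BB n z).erase x :=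
                add_le_add_right (Multiset.le_cons_self _ _) _
        have := Multiset.card_le_card h4
        simpa using this
    · refine ⟨ρ ::ₘ BB n z, mem_PP.2 ⟨?_, ?_⟩, ?_, ?_⟩
      · rw [Multiset.sum_cons]; omega
      · intro y hy
        rw [Multiset.mem_cons] at hy
        rcases hy with hy | hy
        · omega
        · exact mem_BB h3 hy
      · have h4 : ρ ::ₘ BB n z - BB n z ≤ {ρ} := by
          rw [tsub_le_iff_right, ← Multiset.singleton_add]
        have := Multiset.card_le_card h4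
        simpa using this
      · have h4 : BB n z - ρ ::ₘ BB n z ≤ 0 := by
          rw [tsub_le_iff_right, zero_add]
          exact Multiset.le_cons_self _ _
        have := Multiset.card_le_card h4
        simp at this
        simp [this]

/-- closeness -/
def Cl (g g' : Multiset ℕ) : Prop := (g - g').card ≤ 4 ∧ (g' - g).card ≤ 4

lemma Cl.symm {g g' : Multiset ℕ} (h : Cl g g') : Cl g' g := ⟨h.2, h.1⟩

lemma card_sub_triangle (a b c : Multiset ℕ) :
    (a - c).card ≤ (a - b).card + (b - c).card := by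
  have h : a - c ≤ (a - b) + (b - c) := by
    rw [tsub_le_iff_right]
    calc a ≤ (a - b) + b := le_tsub_add
      _ ≤ (a - b) + ((b - c) + c) := add_le_add_right le_tsub_add _
      _ = (a - b) + (b - c) + c := by rw [add_assoc]
  have := Multiset.card_le_card h
  rwa [Multiset.card_add] at this

lemma div_sub_div_le (u v k : ℕ) : ((u / k - v / k : ℕ) : ℤ) ≤ |(u : ℤ) - v| := by
  rcases Nat.eq_zero_or_pos k with h | h
  · subst h; simp
  · rcases le_total u v with h1 | h1
    · have := Nat.div_le_div_right (c := k) h1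
      rw [Nat.sub_eq_zero_of_le this]
      simp
    · have h2 : u / k ≤ v / k + (u - v) := by
        calc u / k ≤ (v + (u - v) * k) / k := by
              apply Nat.div_le_div_right
              have : (u - v) ≤ (u - v) * k := Nat.le_mul_of_pos_right _ h
              omega
          _ = v / k + (u - v) := Nat.add_mul_div_right _ _ h
      rw [abs_of_nonneg (by omega)]
      omega

lemma card_eq_sum_count {K : ℕ} {m : Multiset ℕ} (h : ∀ x ∈ m, x < K) :
    m.card = ∑ k ∈ range K, m.count k := by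
  rw [← Multiset.toFinset_sum_count_eq]
  have h1 : m.toFinset ⊆ range K := fun x hx => by
    rw [Multiset.mem_toFinset] at hx
    exact mem_range.2 (h x hx)
  rw [← Finset.sum_subset h1]
  intro k _ hk
  rw [Multiset.mem_toFinset] at hk
  exact Multiset.count_eq_zero_of_notMem hk

lemma mem_BB_lt {n : ℕ} {z : ℕ → ℕ} {x : ℕ} (hx : x ∈ BB n z) : x < n + 1 := by
  have h1 := Multiset.count_pos.2 hx
  rw [count_BB] at h1
  by_contra h
  rw [if_neg h] at h1
  exact lt_irrefl _ h1

lemma card_BB_sub {n : ℕ} (z z' : ℕ → ℕ) :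
    (((BB n z - BB n z').card : ℕ) : ℤ) ≤ ∑ k ∈ range (n + 1), |(z k : ℤ) - z' k| := by
  rw [card_eq_sum_count (K := n + 1) (fun x hx => mem_BB_lt (Multiset.mem_of_le
    tsub_le_self hx)), Nat.cast_sum]
  refine sum_le_sum fun k hk => ?_
  rw [Multiset.count_sub, count_BB, count_BB, if_pos (mem_range.1 hk), if_pos (mem_range.1 hk)]
  exact div_sub_div_le _ _ _

lemma Re.cl {n : ℕ} {z z' : ℕ → ℕ} {g g' : Multiset ℕ} (h : Re n z g) (h' : Re n z' g')
    (hd : ∑ k ∈ range (n + 1), |(z k : ℤ) - z' k| ≤ 2) : Cl g g' := by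
  have h1 := card_BB_sub (n := n) z z'
  have h2 := card_BB_sub (n := n) z' z
  have hd' : ∑ k ∈ range (n + 1), |(z' k : ℤ) - z k| ≤ 2 := by
    rw [sum_congr rfl (fun k _ => abs_sub_comm (z' k : ℤ) (z k))]
    exact hd
  have h3 : (BB n z - BB n z').card ≤ 2 := by exact_mod_cast h1.trans hd
  have h4 : (BB n z' - BB n z).card ≤ 2 := by exact_mod_cast h2.trans hd'
  have h5 := card_sub_triangle g (BB n z) g'
  have h6 := card_sub_triangle (BB n z) (BB n z') g'
  have h7 := card_sub_triangle g' (BB n z') g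
  have h8 := card_sub_triangle (BB n z') (BB n z) g
  unfold Cl
  have := h.2.1
  have := h.2.2
  have := h'.2.1
  have := h'.2.2
  constructor <;> omega

/-- the interpolating partitions -/
def Int (n : ℕ) (a b g : Multiset ℕ) : Prop :=
  ∃ z s l l', s < n + 1 ∧ l < n + 1 ∧ l' < n + 1 ∧ Z2 n a b s l l' z ∧ Re n z g

lemma Z2.small {n : ℕ} {a b : Multiset ℕ} (ha : a ∈ PP n) (hb : b ∈ PP n) {s l l' : ℕ}
    {z : ℕ → ℕ} (h : Z2 n a b s l l' z) : ∀ k < 3, z k = 0 := by
  intro k hk
  have h1 := h.2.2.1 k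
  rw [WW_small ha hk, WW_small hb hk] at h1
  omega

/-- chain of interpolating partitions -/
theorem interp3 {n : ℕ} (hn : 3 ≤ n) {a b : Multiset ℕ} (ha : a ∈ PP n) (hb : b ∈ PP n) :
    ReflTransGen (fun g g' => Int n a b g ∧ Int n a b g' ∧ Cl g g') a b := by
  have key := interp2 ha hb
  have hR : ∀ z, (∃ s l l', s < n + 1 ∧ l < n + 1 ∧ l' < n + 1 ∧ Z2 n a b s l l' z) →
      ∃ g, Re n z g := by
    rintro z ⟨s, l, l', hs, hl, hl', hz⟩
    exact exists_Re hn (hz.small ha hb) hz.2.2.2
  have hself : ∀ z : ℕ → ℕ, ∑ k ∈ range (n + 1), |(z k : ℤ) - z k| ≤ 2 := by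
    intro z; simp
  -- the statement to prove by induction
  have main : ∀ z, ReflTransGen (RZ2 n a b) (WW a) z → ∀ g, Re n z g →
      ReflTransGen (fun g g' => Int n a b g ∧ Int n a b g' ∧ Cl g g') a g := by
    intro z hz
    induction hz with
    | refl =>
      intro g hg
      rcases ReflTransGen.cases_head key with h | ⟨z', hz', _⟩
      · -- a = b as weights
        by_cases hga : g = a
        · rw [hga]
        · refine ReflTransGen.single ?_
          have hZ : Z2 n a b 0 0 n (WW a) := by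
            refine ⟨?_, ?_, ?_, ?_⟩
            · intro k hk h1
              rw [h]
            · intro k hk _ _; rfl
            · intro k; exact le_max_left _ _
            · exact sum_WW ha
          exact ⟨⟨WW a, 0, 0, n, by omega, by omega, by omega, hZ, Re_WW ha⟩,
            ⟨WW a, 0, 0, n, by omega, by omega, by omega, hZ, hg⟩, (Re_WW ha).cl hg (hself _)⟩
      · obtain ⟨s, l, l', hs, hl, hl', hZ⟩ := hz'.1
        exact ReflTransGen.single ⟨⟨WW a, s, l, l', hs, hl, hl', hZ, Re_WW ha⟩,
          ⟨WW a, s, l, l', hs, hl, hl', hZ, hg⟩, (Re_WW ha).cl hg (hself _)⟩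
    | @tail z z' _ hzz' ih =>
      intro g' hg'
      obtain ⟨g, hg⟩ := hR z hzz'.1
      refine (ih g hg).tail ?_
      obtain ⟨s, l, l', hs, hl, hl', hZ⟩ := hzz'.1
      obtain ⟨t, m, m', ht, hm, hm', hZ'⟩ := hzz'.2.1
      exact ⟨⟨z, s, l, l', hs, hl, hl', hZ, hg⟩, ⟨z', t, m, m', ht, hm, hm', hZ', hg'⟩,
        hg.cl hg' hzz'.2.2⟩
  exact main _ key b (Re_WW hb)

end Pool.Agent.Helper95.Burnside
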