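import Mathlib
import Pool.Agent.Helper95.Burnside.Realize

/-!
# Counting: congestion of the canonical paths
-/

set_option autoImplicit false

open Relation Finset

namespace Pool.Agent.Helper95.Burnside

/-! ### paths -/

lemma exists_min_seq {α : Type*} {R : α → α → Prop} {x y : α} (h : ReflTransGen R x y) :
    ∃ (m : ℕ) (s : ℕ → α), s 0 = x ∧ s m = y ∧ (∀ i < m, R (s i) (s (i + 1))) ∧
      ∀ i j, i < j → j < m → s i ≠ s j := by
  classical
  have hex : ∃ m, ∃ s : ℕ → α, s 0 = x ∧ s m = y ∧ ∀ i < m, R (s i) (s (i + 1)) := exists_seq h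
  obtain ⟨s, h0, hm, hs⟩ := Nat.find_spec hex
  refine ⟨Nat.find hex, s, h0, hm, hs, ?_⟩
  intro i j hij hj heq
  set m := Nat.find hex with hmdef
  refine Nat.find_min hex (m := m - (j - i)) (by omega) ⟨fun t => if t ≤ i then s t else
    s (t + (j - i)), by simp [h0], ?_, ?_⟩
  · simp only
    rw [if_neg (by omega), show m - (j - i) + (j - i) = m by omega, hm]
  · intro t ht
    simp only
    rcases lt_trichotomy t i with h1 | h1 | h1
    · rw [if_pos (by omega), if_pos (by omega)]
      exact hs t (by omega)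
    · subst h1
      rw [if_pos le_rfl, if_neg (by omega), heq, show t + 1 + (j - t) = j + 1 by omega]
      exact hs j hj
    · rw [if_neg (by omega), if_neg (by omega), show t + 1 + (j - i) = t + (j - i) + 1 by omega]
      exact hs _ (by omega)

open Classical in
lemma path_ineq {α : Type*} (S : Finset α) (R : α → α → Prop) (F : α → ℝ) {a b : α}
    (h : ReflTransGen (fun x y => x ∈ S ∧ y ∈ S ∧ R x y) a b) :
    (F a - F b) ^ 2 ≤ S.card * ∑ x ∈ S, ∑ y ∈ S with R x y, (F x - F y) ^ 2 := by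
  obtain ⟨m, s, h0, hm, hs, hinj⟩ := exists_min_seq h
  have hinj' : ∀ i ∈ range m, ∀ j ∈ range m, s i = s j → i = j := by
    intro i hi j hj hij
    rw [mem_range] at hi hj
    rcases lt_trichotomy i j with h1 | h1 | h1
    · exact absurd hij (hinj i j h1 hj)
    · exact h1
    · exact absurd hij.symm (hinj j i h1 hi)
  have hcard : m ≤ S.card := by
    have h1 : ((range m).image s).card = m := by
      rw [Finset.card_image_of_injOn (fun i hi j hj hij => hinj' i hi j hj hij), card_range]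
    rw [← h1]
    apply card_le_card
    intro x hx
    rw [mem_image] at hx
    obtain ⟨i, hi, rfl⟩ := hx
    exact (hs i (mem_range.1 hi)).1
  have htel : F a - F b = ∑ i ∈ range m, (F (s i) - F (s (i + 1))) := by
    rw [Finset.sum_range_sub' (fun i => F (s i)), h0, hm]
  rw [htel]
  have h1 := sq_sum_le_card_mul_sum_sq (s := range m) (f := fun i => F (s i) - F (s (i + 1)))
  rw [card_range] at h1
  refine h1.trans ?_
  have h2 : ∑ i ∈ range m, (F (s i) - F (s (i + 1))) ^ 2 ≤
      ∑ x ∈ S, ∑ y ∈ S with R x y, (F x - F y) ^ 2 := by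
    have h3 : ∑ x ∈ S, ∑ y ∈ S with R x y, (F x - F y) ^ 2 =
        ∑ p ∈ (S ×ˢ S).filter (fun p => R p.1 p.2), (F p.1 - F p.2) ^ 2 := by
      rw [Finset.sum_filter, Finset.sum_product]
      refine sum_congr rfl fun x _ => ?_
      rw [Finset.sum_filter]
    rw [h3]
    have h4 : ∑ i ∈ range m, (F (s i) - F (s (i + 1))) ^ 2 =
        ∑ p ∈ (range m).image (fun i => (s i, s (i + 1))), (F p.1 - F p.2) ^ 2 := by
      rw [Finset.sum_image]
      intro i hi j hj hij
      simp only [Prod.mk.injEq] at hij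
      exact hinj' i hi j hj hij.1
    rw [h4]
    refine Finset.sum_le_sum_of_subset_of_nonneg ?_ (fun _ _ _ => sq_nonneg _)
    intro p hp
    rw [mem_image] at hp
    obtain ⟨i, hi, rfl⟩ := hp
    have h5 := hs i (mem_range.1 hi)
    simp only [mem_filter, mem_product]
    exact ⟨⟨h5.1, h5.2.1⟩, h5.2.2⟩
  have h5 : (0 : ℝ) ≤ ∑ i ∈ range m, (F (s i) - F (s (i + 1))) ^ 2 :=
    sum_nonneg fun _ _ => sq_nonneg _
  have h6 : (m : ℝ) ≤ S.card := by exact_mod_cast hcard
  exact mul_le_mul h6 h2 h5 (by positivity)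

/-! ### small multisets -/

/-- multisets with at most `c` elements, all less than `K` -/
def SM (K : ℕ) : ℕ → Finset (Multiset ℕ)
  | 0 => {0}
  | c + 1 => SM K c ∪ (range K ×ˢ SM K c).image (fun p => p.1 ::ₘ p.2)

lemma card_SM (K c : ℕ) : (SM K c).card ≤ (K + 1) ^ c := by
  induction c with
  | zero => simp [SM]
  | succ c ih =>
    calc (SM K (c + 1)).card ≤ (SM K c).card + (range K ×ˢ SM K c).card :=
          (card_union_le _ _).trans (Nat.add_le_add_left card_image_le _)
      _ = (K + 1) * (SM K c).card := by rw [card_product, card_range]; ring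
      _ ≤ (K + 1) * (K + 1) ^ c := Nat.mul_le_mul_left _ ih
      _ = (K + 1) ^ (c + 1) := by ring

lemma mem_SM {K c : ℕ} {m : Multiset ℕ} (hc : m.card ≤ c) (hK : ∀ x ∈ m, x < K) :
    m ∈ SM K c := by
  induction c generalizing m with
  | zero =>
    have : m = 0 := Multiset.card_eq_zero.1 (by omega)
    rw [this]; simp [SM]
  | succ c ih =>
    rcases Nat.eq_zero_or_pos m.card with h | h
    · have h0 : m = 0 := Multiset.card_eq_zero.1 h
      rw [SM, mem_union]
      exact Or.inl (ih (by omega) hK)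
    · obtain ⟨x, hx⟩ := Multiset.card_pos_iff_exists_mem.1 h
      obtain ⟨t, rfl⟩ := Multiset.exists_cons_of_mem hx
      rw [SM, mem_union]
      refine Or.inr (mem_image.2 ⟨(x, t), mem_product.2 ⟨mem_range.2 (hK x hx), ih ?_ ?_⟩, rfl⟩)
      · rw [Multiset.card_cons] at hc
        show t.card ≤ c
        omega
      · intro y hy
        exact hK y (Multiset.mem_cons_of_mem hy)

lemma repair (g B : Multiset ℕ) : B - (B - g) + (g - B) = g := by
  ext k
  simp only [Multiset.count_add, Multiset.count_sub]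
  omega

/-- multiset with given counts -/
def mk (K : ℕ) (c : ℕ → ℕ) : Multiset ℕ := ∑ k ∈ range K, Multiset.replicate (c k) k

lemma mk_eq {n : ℕ} {m : Multiset ℕ} (h : m ∈ PP n) {c : ℕ → ℕ}
    (hc : ∀ k < n + 1, c k = m.count k) : mk (n + 1) c = m := by
  ext k
  unfold mk
  rw [count_sum_replicate]
  split_ifs with hk
  · exact hc k hk
  · rw [Multiset.count_eq_zero_of_notMem]
    intro h1
    have := le_of_mem_PP h h1
    omega

lemma count_lt {n : ℕ} {m : Multiset ℕ} (h : m ∈ PP n) (k : ℕ) : m.count k < n + 1 := by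
  rcases Nat.eq_zero_or_pos (m.count k) with h0 | h0
  · omega
  · have h1 := (mem_PP.1 h).2 k (Multiset.count_pos.1 h0)
    have h2 := WW_le h k
    unfold WW at h2
    nlinarith

lemma WW_div {n : ℕ} {m : Multiset ℕ} (h : m ∈ PP n) (k : ℕ) : WW m k / k = m.count k := by
  rcases Nat.eq_zero_or_pos k with h0 | h0
  · subst h0
    rw [Nat.div_zero, Multiset.count_eq_zero_of_notMem]
    intro h1
    have := (mem_PP.1 h).2 0 h1
    omega
  · unfold WW
    rw [Nat.mul_div_cancel_left _ h0]

lemma pos_inj {K s k l : ℕ} (hs : s < K) (hk : k < K) (h : (k + s) % K = l) :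
    k = (l + (K - s)) % K := by
  subst h
  rw [Nat.mod_add_mod, show k + s + (K - s) = k + K by omega, Nat.add_mod_right,
    Nat.mod_eq_of_lt hk]

/-! ### encoding -/

/-- encoded vector -/
def zenc (n : ℕ) (a b : Multiset ℕ) (s l l' u v : ℕ) (k : ℕ) : ℕ :=
  if (k + s) % (n + 1) = l then u else if (k + s) % (n + 1) = l' then v else
    if (k + s) % (n + 1) < l ∨ l' < (k + s) % (n + 1) then WW b k else WW a k

open Classical in
/-- the set of interpolating partitions -/
noncomputable def IntF (n : ℕ) (a b : Multiset ℕ) : Finset (Multiset ℕ) :=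
  (PP n).filter (fun g => Int n a b g)

lemma Re.mem_le {n : ℕ} {z : ℕ → ℕ} {g : Multiset ℕ} (h : Re n z g) {x : ℕ}
    (hx : x ∈ g - BB n z ∨ x ∈ BB n z - g) : x < n + 1 := by
  rcases hx with hx | hx
  · have := le_of_mem_PP h.1 (Multiset.mem_of_le tsub_le_self hx)
    omega
  · exact mem_BB_lt (Multiset.mem_of_le tsub_le_self hx)

lemma BB_congr {n : ℕ} {z z' : ℕ → ℕ} (h : ∀ k < n + 1, z k = z' k) : BB n z = BB n z' := by
  unfold BB
  exact sum_congr rfl fun k hk => by rw [h k (mem_range.1 hk)]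

lemma card_IntF {n : ℕ} {a b : Multiset ℕ} (ha : a ∈ PP n) (hb : b ∈ PP n) :
    (IntF n a b).card ≤ (n + 2) ^ 7 := by
  classical
  set I := range (n + 1) ×ˢ range (n + 1) ×ˢ range (n + 1) ×ˢ range (n + 1) ×ˢ range (n + 1) ×ˢ
    SM (n + 1) 1 ×ˢ SM (n + 1) 1 with hI
  have hsub : IntF n a b ⊆ I.image (fun p => BB n (zenc n a b p.1 p.2.1 p.2.2.1 p.2.2.2.1
      p.2.2.2.2.1) - p.2.2.2.2.2.1 + p.2.2.2.2.2.2) := by
    intro g hg
    simp only [IntF, mem_filter] at hg
    obtain ⟨hgP, z, s, l, l', hs, hl, hl', hZ, hRe⟩ := hg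
    have hmax : ∀ k, z k < n + 1 := by
      intro k
      have h1 := hZ.2.2.1 k
      have h2 := WW_le ha k
      have h3 := WW_le hb k
      omega
    rw [mem_image]
    refine ⟨(s, l, l', z ((l + (n + 1 - s)) % (n + 1)), z ((l' + (n + 1 - s)) % (n + 1)),
      BB n z - g, g - BB n z), ?_, ?_⟩
    · simp only [hI, mem_product, mem_range]
      exact ⟨hs, hl, hl', hmax _, hmax _, mem_SM hRe.2.2 (fun x hx => hRe.mem_le (Or.inr hx)),
        mem_SM hRe.2.1 (fun x hx => hRe.mem_le (Or.inl hx))⟩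
    · simp only
      have h1 : BB n (zenc n a b s l l' (z ((l + (n + 1 - s)) % (n + 1)))
          (z ((l' + (n + 1 - s)) % (n + 1)))) = BB n z := by
        apply BB_congr
        intro k hk
        unfold zenc
        split_ifs with h1 h2 h3
        · rw [← pos_inj hs hk h1]
        · rw [← pos_inj hs hk h2]
        · exact (hZ.1 k hk h3).symm
        · push Not at h3
          exact (hZ.2.1 k hk (by omega) (by omega)).symm
      rw [h1]
      exact repair g (BB n z)
  refine (card_le_card hsub).trans (card_image_le.trans ?_)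
  rw [hI]
  simp only [card_product, card_range]
  have h1 := card_SM (n + 1) 1
  rw [pow_one] at h1
  calc (n + 1) * ((n + 1) * ((n + 1) * ((n + 1) * ((n + 1) * ((SM (n + 1) 1).card *
        (SM (n + 1) 1).card)))))
      = (n + 1) ^ 5 * (SM (n + 1) 1).card ^ 2 := by ring
    _ ≤ (n + 2) ^ 5 * (n + 2) ^ 2 :=
        Nat.mul_le_mul (Nat.pow_le_pow_left (by omega) _) (Nat.pow_le_pow_left (by omega) _)
    _ = (n + 2) ^ 7 := by ring

/-- decoded counts -/
def cdec (n : ℕ) (s l l' u v : ℕ) (B B' : Multiset ℕ) (k : ℕ) : ℕ :=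
  if (k + s) % (n + 1) = l then u else if (k + s) % (n + 1) = l' then v else
    if (k + s) % (n + 1) < l ∨ l' < (k + s) % (n + 1) then B'.count k else B.count k

open Classical in
lemma card_pairs {n : ℕ} (hn : 3 ≤ n) (g : Multiset ℕ) :
    ((PP n ×ˢ PP n).filter (fun p => Int n p.1 p.2 g)).card ≤ (n + 2) ^ 11 * (PP n).card := by
  set I := range (n + 1) ×ˢ range (n + 1) ×ˢ range (n + 1) ×ˢ range (n + 1) ×ˢ range (n + 1) ×ˢ
    range (n + 1) ×ˢ range (n + 1) ×ˢ
    SM (n + 1) 1 ×ˢ SM (n + 1) 1 ×ˢ SM (n + 1) 1 ×ˢ SM (n + 1) 1 ×ˢ PP n with hI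
  let dec : ℕ × ℕ × ℕ × ℕ × ℕ × ℕ × ℕ × Multiset ℕ × Multiset ℕ × Multiset ℕ × Multiset ℕ ×
      Multiset ℕ → Multiset ℕ × Multiset ℕ := fun ⟨s, l, l', a1, a2, b1, b2, X, Y, X', Y', g'⟩ =>
    (mk (n + 1) (cdec n s l l' a1 a2 (g - Y + X) (g' - Y' + X')),
     mk (n + 1) (cdec n s l l' b1 b2 (g' - Y' + X') (g - Y + X)))
  have hsub : (PP n ×ˢ PP n).filter (fun p => Int n p.1 p.2 g) ⊆ I.image dec := by
    rintro ⟨a, b⟩ hab
    simp only [mem_filter, mem_product] at hab
    obtain ⟨⟨ha, hb⟩, z, s, l, l', hs, hl, hl', hZ, hRe⟩ := hab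
    -- the complementary vector
    set zc : ℕ → ℕ := fun k => WW a k + WW b k - z k with hzc
    have hzc1 : ∀ k, zc k + z k = WW a k + WW b k := by
      intro k
      have := hZ.2.2.1 k
      simp only [hzc]
      omega
    have hzcs : ∑ k ∈ range (n + 1), zc k = n := by
      have h1 : ∑ k ∈ range (n + 1), zc k + ∑ k ∈ range (n + 1), z k =
          ∑ k ∈ range (n + 1), WW a k + ∑ k ∈ range (n + 1), WW b k := by
        rw [← sum_add_distrib, ← sum_add_distrib]
        exact sum_congr rfl fun k _ => hzc1 k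
      rw [hZ.2.2.2, sum_WW ha, sum_WW hb] at h1
      omega
    have hzc3 : ∀ k < 3, zc k = 0 := by
      intro k hk
      have := hzc1 k
      rw [WW_small ha hk, WW_small hb hk] at this
      omega
    obtain ⟨g', hRe'⟩ := exists_Re hn hzc3 hzcs
    rw [mem_image]
    refine ⟨(s, l, l', a.count ((l + (n + 1 - s)) % (n + 1)), a.count ((l' + (n + 1 - s)) % (n + 1)),
      b.count ((l + (n + 1 - s)) % (n + 1)), b.count ((l' + (n + 1 - s)) % (n + 1)),
      BB n z - g, g - BB n z, BB n zc - g', g' - BB n zc, g'), ?_, ?_⟩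
    · simp only [hI, mem_product, mem_range]
      exact ⟨hs, hl, hl', count_lt ha _, count_lt ha _, count_lt hb _, count_lt hb _,
        mem_SM hRe.2.2 (fun x hx => hRe.mem_le (Or.inr hx)),
        mem_SM hRe.2.1 (fun x hx => hRe.mem_le (Or.inl hx)),
        mem_SM hRe'.2.2 (fun x hx => hRe'.mem_le (Or.inr hx)),
        mem_SM hRe'.2.1 (fun x hx => hRe'.mem_le (Or.inl hx)), hRe'.1⟩
    · simp only [dec]
      have e1 : g - (g - BB n z) + (BB n z - g) = BB n z := repair (BB n z) g
      have e2 : g' - (g' - BB n zc) + (BB n zc - g') = BB n zc := repair (BB n zc) g'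
      rw [e1, e2]
      have h1 : mk (n + 1) (cdec n s l l' (a.count ((l + (n + 1 - s)) % (n + 1)))
          (a.count ((l' + (n + 1 - s)) % (n + 1))) (BB n z) (BB n zc)) = a := by
        apply mk_eq ha
        intro k hk
        unfold cdec
        split_ifs with h1 h2 h3
        · rw [← pos_inj hs hk h1]
        · rw [← pos_inj hs hk h2]
        · have h4 := hZ.1 k hk h3
          have h5 := hzc1 k
          have h6 : zc k = WW a k := by omega
          rw [count_BB, if_pos hk, h6, WW_div ha]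
        · push Not at h3
          have h4 := hZ.2.1 k hk (by omega) (by omega)
          rw [count_BB, if_pos hk, h4, WW_div ha]
      have h2 : mk (n + 1) (cdec n s l l' (b.count ((l + (n + 1 - s)) % (n + 1)))
          (b.count ((l' + (n + 1 - s)) % (n + 1))) (BB n zc) (BB n z)) = b := by
        apply mk_eq hb
        intro k hk
        unfold cdec
        split_ifs with h1 h2 h3
        · rw [← pos_inj hs hk h1]
        · rw [← pos_inj hs hk h2]
        · have h4 := hZ.1 k hk h3
          rw [count_BB, if_pos hk, h4, WW_div hb]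
        · push Not at h3
          have h4 := hZ.2.1 k hk (by omega) (by omega)
          have h5 := hzc1 k
          have h6 : zc k = WW b k := by omega
          rw [count_BB, if_pos hk, h6, WW_div hb]
      rw [h1, h2]
  refine (card_le_card hsub).trans (card_image_le.trans ?_)
  rw [hI]
  simp only [card_product, card_range]
  have h1 := card_SM (n + 1) 1
  rw [pow_one] at h1
  set c := (SM (n + 1) 1).card with hc
  set N := (PP n).card with hN
  calc (n + 1) * ((n + 1) * ((n + 1) * ((n + 1) * ((n + 1) * ((n + 1) * ((n + 1) *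
        (c * (c * (c * (c * N))))))))))
      = (n + 1) ^ 7 * (c ^ 4 * N) := by ring
    _ ≤ (n + 2) ^ 7 * ((n + 2) ^ 4 * N) :=
        Nat.mul_le_mul (Nat.pow_le_pow_left (by omega) _)
          (Nat.mul_le_mul_right _ (Nat.pow_le_pow_left (by omega) _))
    _ = (n + 2) ^ 11 * N := by ring

open Classical in
/-- number of close partitions -/
lemma card_close {n : ℕ} {g : Multiset ℕ} (hg : g ∈ PP n) :
    ((PP n).filter (fun g' => Cl g g')).card ≤ (n + 2) ^ 8 := by
  have hsub : (PP n).filter (fun g' => Cl g g') ⊆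
      (SM (n + 1) 4 ×ˢ SM (n + 1) 4).image (fun p => g - p.1 + p.2) := by
    intro g' hg'
    rw [mem_filter] at hg'
    rw [mem_image]
    refine ⟨(g - g', g' - g), ?_, repair g' g⟩
    rw [mem_product]
    refine ⟨mem_SM hg'.2.1 fun x hx => ?_, mem_SM hg'.2.2 fun x hx => ?_⟩
    · have := le_of_mem_PP hg (Multiset.mem_of_le tsub_le_self hx)
      omega
    · have := le_of_mem_PP hg'.1 (Multiset.mem_of_le tsub_le_self hx)
      omega
  refine (card_le_card hsub).trans (card_image_le.trans ?_)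
  rw [card_product]
  have h1 := card_SM (n + 1) 4
  calc (SM (n + 1) 4).card * (SM (n + 1) 4).card ≤ (n + 1 + 1) ^ 4 * (n + 1 + 1) ^ 4 :=
        Nat.mul_le_mul h1 h1
    _ = (n + 2) ^ 8 := by ring

open Classical in
lemma swap_sum {α : Type*} (S : Finset α) (P : α → α → α → Prop) (G : α → ℝ) :
    ∑ a ∈ S, ∑ b ∈ S, ∑ x ∈ S, (if P a b x then G x else 0) =
      ∑ x ∈ S, (((S ×ˢ S).filter (fun p => P p.1 p.2 x)).card : ℝ) * G x := by
  have h1 : ∀ x, (((S ×ˢ S).filter (fun p => P p.1 p.2 x)).card : ℝ) * G x =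
      ∑ a ∈ S, ∑ b ∈ S, (if P a b x then G x else 0) := by
    intro x
    rw [← nsmul_eq_mul, ← sum_const, sum_filter, sum_product]
  rw [sum_congr rfl (fun x _ => h1 x)]
  calc ∑ a ∈ S, ∑ b ∈ S, ∑ x ∈ S, (if P a b x then G x else 0)
      = ∑ a ∈ S, ∑ x ∈ S, ∑ b ∈ S, (if P a b x then G x else 0) :=
        sum_congr rfl fun a _ => Finset.sum_comm
    _ = ∑ x ∈ S, ∑ a ∈ S, ∑ b ∈ S, (if P a b x then G x else 0) := Finset.sum_comm

open Classical in
/-- **Poincaré inequality for partitions** with respect to changes of at most four parts. -/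
theorem core {n : ℕ} (hn : 3 ≤ n) (F : Multiset ℕ → ℝ) :
    ∑ a ∈ PP n, ∑ b ∈ PP n, (F a - F b) ^ 2 ≤
      ((n : ℝ) + 2) ^ 18 * (PP n).card *
        ∑ x ∈ PP n, ∑ y ∈ PP n with Cl x y, (F x - F y) ^ 2 := by
  have h1 : ∀ a ∈ PP n, ∀ b ∈ PP n, (F a - F b) ^ 2 ≤
      ((n : ℝ) + 2) ^ 7 * ∑ x ∈ PP n, (if Int n a b x then
        ∑ y ∈ PP n with Cl x y, (F x - F y) ^ 2 else 0) := by
    intro a ha b hb
    have h2 : ReflTransGen (fun x y => x ∈ IntF n a b ∧ y ∈ IntF n a b ∧ Cl x y) a b := by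
      refine ReflTransGen.mono ?_ _ _ (interp3 hn ha hb)
      intro g g' hgg'
      obtain ⟨h1, h2, h3⟩ := hgg'
      refine ⟨?_, ?_, h3⟩
      · unfold IntF
        rw [mem_filter]
        obtain ⟨z, s, l, l', _, _, _, _, hRe⟩ := h1
        exact ⟨hRe.1, ⟨z, s, l, l', by assumption, by assumption, by assumption, by assumption,
          hRe⟩⟩
      · unfold IntF
        rw [mem_filter]
        obtain ⟨z, s, l, l', _, _, _, _, hRe⟩ := h2
        exact ⟨hRe.1, ⟨z, s, l, l', by assumption, by assumption, by assumption, by assumption,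
          hRe⟩⟩
    have h3 := path_ineq (IntF n a b) Cl F h2
    have h4 : ((IntF n a b).card : ℝ) ≤ ((n : ℝ) + 2) ^ 7 := by
      have := card_IntF ha hb
      exact_mod_cast this
    have h5 : ∑ x ∈ IntF n a b, ∑ y ∈ IntF n a b with Cl x y, (F x - F y) ^ 2 ≤
        ∑ x ∈ PP n, (if Int n a b x then ∑ y ∈ PP n with Cl x y, (F x - F y) ^ 2 else 0) := by
      rw [← Finset.sum_filter]
      refine sum_le_sum fun x _ => ?_
      refine Finset.sum_le_sum_of_subset_of_nonneg ?_ (fun _ _ _ => sq_nonneg _)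
      intro y hy
      rw [mem_filter] at hy ⊢
      refine ⟨?_, hy.2⟩
      have := hy.1
      unfold IntF at this
      exact (mem_filter.1 this).1
    refine h3.trans (mul_le_mul h4 h5 ?_ (by positivity))
    exact sum_nonneg fun _ _ => sum_nonneg fun _ _ => sq_nonneg _
  set G : Multiset ℕ → ℝ := fun x => ∑ y ∈ PP n with Cl x y, (F x - F y) ^ 2 with hG
  have hG0 : ∀ x, 0 ≤ G x := fun x => sum_nonneg fun _ _ => sq_nonneg _
  have h2 := swap_sum (PP n) (fun a b x => Int n a b x) G
  calc ∑ a ∈ PP n, ∑ b ∈ PP n, (F a - F b) ^ 2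
      ≤ ∑ a ∈ PP n, ∑ b ∈ PP n, (((n : ℝ) + 2) ^ 7 *
          ∑ x ∈ PP n, (if Int n a b x then G x else 0)) :=
        sum_le_sum fun a ha => sum_le_sum fun b hb => h1 a ha b hb
    _ = ((n : ℝ) + 2) ^ 7 * ∑ a ∈ PP n, ∑ b ∈ PP n,
          ∑ x ∈ PP n, (if Int n a b x then G x else 0) := by
        rw [mul_sum]
        refine sum_congr rfl fun a _ => ?_
        rw [mul_sum]
    _ = ((n : ℝ) + 2) ^ 7 * ∑ x ∈ PP n, ((((PP n ×ˢ PP n).filter
          (fun p => Int n p.1 p.2 x)).card : ℝ) * G x) := by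
        rw [h2]
    _ ≤ ((n : ℝ) + 2) ^ 7 * ∑ x ∈ PP n, ((((n : ℝ) + 2) ^ 11 * (PP n).card) * G x) := by
        refine mul_le_mul_of_nonneg_left (sum_le_sum fun x _ => ?_) (by positivity)
        refine mul_le_mul_of_nonneg_right ?_ (hG0 x)
        have := card_pairs hn x
        exact_mod_cast this
    _ = _ := by
        rw [← Finset.mul_sum]; ring

end Pool.Agent.Helper95.Burnside
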