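import Mathlib
import Pool.Agent.Helper95.Burnside.Chain

/-!
# Local energies and a criterion for the Poincaré inequality of the Burnside chain
-/

set_option autoImplicit false
set_option linter.unusedSectionVars false

namespace Pool.Agent.Helper95.Burnside

open MulAction Finset

open Classical

variable {G : Type*} {Ω : Type*} [Group G] [Fintype G] [Fintype Ω] [MulAction G Ω]

lemma card_transport (a b : Ω) : ((univ.filter (fun σ : G => σ • a = b)).card : ℝ) =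
    if b ∈ orbit G a then ((St G a).card : ℝ) else 0 := by
  split_ifs with h
  · obtain ⟨τ, rfl⟩ := h
    have h1 : (univ.filter (fun σ : G => σ • a = τ • a)).card = (St G a).card := by
      refine Finset.card_bij' (fun σ _ => τ⁻¹ * σ) (fun σ _ => τ * σ) ?_ ?_ ?_ ?_
      · intro σ hσ
        simp only [mem_filter, mem_univ, true_and] at hσ
        rw [mem_St, mul_smul, hσ, inv_smul_smul]
      · intro σ hσ
        rw [mem_St] at hσ
        simp only [mem_filter, mem_univ, true_and]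
        rw [mul_smul, hσ]
      · intro σ _
        simp
      · intro σ _
        simp
    exact_mod_cast h1
  · rw [Nat.cast_eq_zero, Finset.card_eq_zero, Finset.filter_eq_empty_iff]
    intro σ _ h1
    exact h ⟨σ, h1⟩

lemma sum_orbit (F : Ω → ℝ) (a : Ω) : ∑ σ : G, F (σ • a) =
    ∑ b, (if b ∈ orbit G a then ((St G a).card : ℝ) else 0) * F b := by
  have h1 : ∀ σ : G, F (σ • a) = ∑ b, if σ • a = b then F b else 0 := by
    intro σ
    rw [Finset.sum_ite_eq univ (σ • a) F, if_pos (mem_univ _)]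
  rw [sum_congr rfl (fun σ _ => h1 σ), Finset.sum_comm]
  refine sum_congr rfl fun b _ => ?_
  rw [← card_transport, ← sum_filter, sum_const, nsmul_eq_mul]

/-- a system of representatives of the orbits -/
def IsRep (G : Type*) {Ω : Type*} [Group G] [MulAction G Ω] {ι : Type*} (I : Finset ι)
    (rep : ι → Ω) : Prop := ∀ α, ∃! i, i ∈ I ∧ α ∈ orbit G (rep i)

variable {ι : Type*} {I : Finset ι} {rep : ι → Ω}

lemma sum_rep (hrep : IsRep G I rep) (F : Ω → ℝ) :
    ∑ α, F α = ∑ i ∈ I, (∑ σ : G, F (σ • rep i)) / (St G (rep i)).card := by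
  have h1 : ∀ i ∈ I, (∑ σ : G, F (σ • rep i)) / (St G (rep i)).card =
      ∑ b, (if b ∈ orbit G (rep i) then F b else 0) := by
    intro i _
    have h5 : (0 : ℝ) < (St G (rep i)).card := by exact_mod_cast St_card_pos G (rep i)
    rw [sum_orbit, Finset.sum_div]
    refine sum_congr rfl fun b _ => ?_
    split_ifs with h
    · field_simp
    · simp
  rw [sum_congr rfl h1, Finset.sum_comm]
  refine sum_congr rfl fun b _ => ?_
  obtain ⟨i, ⟨hi, hib⟩, huniq⟩ := hrep b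
  rw [Finset.sum_eq_single i]
  · rw [if_pos hib]
  · intro j hj hji
    rw [if_neg]
    intro h
    exact hji (huniq j ⟨hj, h⟩)
  · intro h; exact absurd hi h

lemma St_smul_card (τ : G) (α : Ω) : (St G (τ • α)).card = (St G α).card := by
  refine Finset.card_bij' (fun σ _ => τ⁻¹ * σ * τ) (fun σ _ => τ * σ * τ⁻¹) ?_ ?_ ?_ ?_
  · intro σ hσ
    rw [mem_St] at hσ ⊢
    rw [mul_smul, mul_smul, hσ, inv_smul_smul]
  · intro σ hσ
    rw [mem_St] at hσ ⊢
    rw [mul_smul, mul_smul, inv_smul_smul, hσ]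
  · intro σ _
    group
  · intro σ _
    group

lemma sum_smul_right (F : Ω → ℝ) (τ : G) (α : Ω) :
    ∑ σ : G, F (σ • τ • α) = ∑ σ : G, F (σ • α) := by
  have h1 : ∀ σ : G, F (σ • τ • α) = (fun ρ : G => F (ρ • α)) (σ * τ) := by
    intro σ
    simp only [mul_smul]
  rw [sum_congr rfl (fun σ _ => h1 σ)]
  exact Fintype.sum_equiv (Equiv.mulRight τ) _ _ (fun σ => rfl)

lemma nOrb_eq [Nonempty Ω] (hrep : IsRep G I rep) : nOrb G Ω = I.card := by
  have h1 := burnside_count (G := G) (Ω := Ω)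
  rw [sum_rep hrep] at h1
  have h2 : ∀ i ∈ I, (∑ σ : G, ((St G (σ • rep i)).card : ℝ)) / (St G (rep i)).card = gc G := by
    intro i _
    have h5 : (0 : ℝ) < (St G (rep i)).card := by exact_mod_cast St_card_pos G (rep i)
    have h6 : ∀ σ : G, ((St G (σ • rep i)).card : ℝ) = (St G (rep i)).card := fun σ => by
      rw [St_smul_card]
    rw [sum_congr rfl (fun σ _ => h6 σ), sum_const, card_univ, nsmul_eq_mul]
    unfold gc
    field_simp
  rw [sum_congr rfl h2, sum_const, nsmul_eq_mul, mul_comm] at h1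
  have h4 := gc_pos G
  exact (mul_left_cancel₀ h4.ne' h1).symm

variable (G) in
/-- energy of the orbit of `α` -/
noncomputable def EO (f : Ω → ℝ) (α : Ω) : ℝ := (∑ σ : G, ee G f (σ • α)) / (St G α).card

lemma EO_nonneg (f : Ω → ℝ) (α : Ω) : 0 ≤ EO G f α :=
  div_nonneg (sum_nonneg fun _ _ => ee_nonneg _ _) (Nat.cast_nonneg _)

lemma EO_smul (f : Ω → ℝ) (τ : G) (α : Ω) : EO G f (τ • α) = EO G f α := by
  unfold EO
  rw [St_smul_card, sum_smul_right (fun β => ee G f β) τ α]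

lemma EO_mul (f : Ω → ℝ) (α : Ω) : ∑ σ : G, ee G f (σ • α) = (St G α).card * EO G f α := by
  have h5 : (0 : ℝ) < (St G α).card := by exact_mod_cast St_card_pos G α
  unfold EO
  field_simp

lemma conj_sum_le (f : Ω → ℝ) (α : Ω) (H : Finset G) (hH : H ⊆ St G α) (σ : G) :
    ∑ h ∈ H, (f (σ • α) - UU f (σ * h * σ⁻¹)) ^ 2 ≤ ee G f (σ • α) := by
  unfold ee
  have h1 : ∑ h ∈ St G α, (f (σ • α) - UU f (σ * h * σ⁻¹)) ^ 2 =
      ∑ g ∈ St G (σ • α), (f (σ • α) - UU f g) ^ 2 := by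
    refine Finset.sum_bij' (fun h _ => σ * h * σ⁻¹) (fun g _ => σ⁻¹ * g * σ) ?_ ?_ ?_ ?_ ?_
    · intro h hh
      rw [mem_St] at hh ⊢
      rw [mul_smul, mul_smul, inv_smul_smul, hh]
    · intro g hg
      rw [mem_St] at hg ⊢
      rw [mul_smul, mul_smul, hg, inv_smul_smul]
    · intro h _
      group
    · intro g _
      group
    · intro h _
      rfl
  rw [← h1]
  exact sum_le_sum_of_subset_of_nonneg hH fun _ _ _ => sq_nonneg _

lemma local_energy (f : Ω → ℝ) (α β : Ω) (H : Finset G) (hα : H ⊆ St G α) (hβ : H ⊆ St G β) :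
    (H.card : ℝ) * ∑ σ : G, (f (σ • α) - f (σ • β)) ^ 2 ≤
      2 * ((St G α).card * EO G f α) + 2 * ((St G β).card * EO G f β) := by
  rw [← EO_mul, ← EO_mul, mul_sum, mul_sum, mul_sum, ← sum_add_distrib]
  refine sum_le_sum fun σ _ => ?_
  have h1 : (H.card : ℝ) * (f (σ • α) - f (σ • β)) ^ 2 =
      ∑ h ∈ H, (f (σ • α) - f (σ • β)) ^ 2 := by
    rw [sum_const, nsmul_eq_mul]
  rw [h1]
  have h2 := conj_sum_le f α H hα σ
  have h3 := conj_sum_le f β H hβ σ
  calc ∑ h ∈ H, (f (σ • α) - f (σ • β)) ^ 2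
      ≤ ∑ h ∈ H, (2 * (f (σ • α) - UU f (σ * h * σ⁻¹)) ^ 2 +
          2 * (f (σ • β) - UU f (σ * h * σ⁻¹)) ^ 2) := by
        refine sum_le_sum fun h _ => ?_
        nlinarith [sq_nonneg ((f (σ • α) - UU f (σ * h * σ⁻¹)) +
          (f (σ • β) - UU f (σ * h * σ⁻¹)))]
    _ = 2 * ∑ h ∈ H, (f (σ • α) - UU f (σ * h * σ⁻¹)) ^ 2 +
          2 * ∑ h ∈ H, (f (σ • β) - UU f (σ * h * σ⁻¹)) ^ 2 := by
        rw [sum_add_distrib, mul_sum, mul_sum]
    _ ≤ _ := by linarith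

/-- main local estimate -/
lemma local_energy' (f : Ω → ℝ) (α β : Ω) (H : Finset G) (hα : H ⊆ St G α) (hβ : H ⊆ St G β)
    {D : ℝ} (hH : 0 < H.card) (h1 : ((St G α).card : ℝ) ≤ D * H.card)
    (h2 : ((St G β).card : ℝ) ≤ D * H.card) :
    ∑ σ : G, (f (σ • α) - f (σ • β)) ^ 2 ≤ 2 * D * (EO G f α + EO G f β) := by
  have h3 := local_energy f α β H hα hβ
  have h4 : (0 : ℝ) < H.card := by exact_mod_cast hH
  have h5 := EO_nonneg (G := G) f α
  have h6 := EO_nonneg (G := G) f β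
  have h7 : (H.card : ℝ) * ∑ σ : G, (f (σ • α) - f (σ • β)) ^ 2 ≤
      H.card * (2 * D * (EO G f α + EO G f β)) := by
    have h8 := mul_le_mul_of_nonneg_right h1 h5
    have h9 := mul_le_mul_of_nonneg_right h2 h6
    nlinarith
  exact le_of_mul_le_mul_left h7 h4

variable (G) in
/-- orbit average -/
noncomputable def Fb (f : Ω → ℝ) (a : Ω) : ℝ := (∑ σ : G, f (σ • a)) / gc G

lemma gc_mul_Fb (f : Ω → ℝ) (a : Ω) : gc G * Fb G f a = ∑ σ : G, f (σ • a) := by
  have := gc_pos G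
  unfold Fb
  field_simp

lemma sum_const_G (c : ℝ) : ∑ _σ : G, c = gc G * c := by
  rw [sum_const, card_univ, nsmul_eq_mul]; rfl

/-- variance within an orbit -/
lemma var_orbit (f : Ω → ℝ) (a : Ω) {C : ℝ}
    (h : ∀ ρ : G, ∑ σ : G, (f (σ • a) - f (σ • ρ • a)) ^ 2 ≤ C) :
    ∑ σ : G, f (σ • a) ^ 2 ≤ C / 2 + gc G * Fb G f a ^ 2 := by
  have hg := gc_pos G
  have h1 : ∑ ρ : G, ∑ σ : G, (f (σ • a) - f (σ • ρ • a)) ^ 2 ≤ gc G * C := by
    rw [← sum_const_G]
    exact sum_le_sum fun ρ _ => h ρ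
  have h2 : ∑ ρ : G, ∑ σ : G, (f (σ • a) - f (σ • ρ • a)) ^ 2 =
      ∑ σ : G, ∑ τ : G, (f (σ • a) - f (τ • a)) ^ 2 := by
    rw [Finset.sum_comm]
    refine sum_congr rfl fun σ _ => ?_
    have h3 : ∀ ρ : G, (f (σ • a) - f (σ • ρ • a)) ^ 2 =
        (fun τ : G => (f (σ • a) - f (τ • a)) ^ 2) (σ * ρ) := by
      intro ρ
      simp only [mul_smul]
    rw [sum_congr rfl (fun ρ _ => h3 ρ)]
    exact Fintype.sum_equiv (Equiv.mulLeft σ) _ _ (fun ρ => rfl)
  have h3 : ∑ σ : G, ∑ τ : G, (f (σ • a) - f (τ • a)) ^ 2 =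
      2 * gc G * ∑ σ : G, f (σ • a) ^ 2 - 2 * (∑ σ : G, f (σ • a)) ^ 2 := by
    have h4 : ∀ σ : G, ∑ τ : G, (f (σ • a) - f (τ • a)) ^ 2 =
        gc G * f (σ • a) ^ 2 - 2 * f (σ • a) * ∑ τ : G, f (τ • a) + ∑ τ : G, f (τ • a) ^ 2 := by
      intro σ
      rw [← sum_const_G, mul_sum, ← sum_sub_distrib, ← sum_add_distrib]
      exact sum_congr rfl fun τ _ => by ring
    rw [sum_congr rfl (fun σ _ => h4 σ), sum_add_distrib, sum_sub_distrib, ← mul_sum,
      ← sum_mul, ← mul_sum, sum_const_G]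
    ring
  rw [h2, h3, ← gc_mul_Fb] at h1
  have h5 : 2 * gc G * (∑ σ : G, f (σ • a) ^ 2) ≤ 2 * gc G * (C / 2 + gc G * Fb G f a ^ 2) := by
    nlinarith
  exact le_of_mul_le_mul_left h5 (by positivity)

/-- variance of a mean zero function on a finite set -/
lemma var_pairs (F : ι → ℝ) (h0 : ∑ i ∈ I, F i = 0) :
    ∑ a ∈ I, ∑ b ∈ I, (F a - F b) ^ 2 = 2 * I.card * ∑ i ∈ I, F i ^ 2 := by
  have h4 : ∀ a ∈ I, ∑ b ∈ I, (F a - F b) ^ 2 =
      I.card * F a ^ 2 - 2 * F a * ∑ b ∈ I, F b + ∑ b ∈ I, F b ^ 2 := by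
    intro a _
    have h5 : (I.card : ℝ) * F a ^ 2 = ∑ b ∈ I, F a ^ 2 := by rw [sum_const, nsmul_eq_mul]
    rw [h5, mul_sum, ← sum_sub_distrib, ← sum_add_distrib]
    exact sum_congr rfl fun b _ => by ring
  rw [sum_congr rfl h4, h0]
  simp only [mul_zero, sub_zero]
  rw [sum_add_distrib, ← mul_sum, sum_const, nsmul_eq_mul]
  ring

/-- **Criterion** for the Poincaré inequality. -/
theorem gap_criterion [Nonempty Ω] (hrep : IsRep G I rep) (R : ι → ι → Prop) {C1 C2 B : ℝ} {d : ℕ}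
    (hC2 : 0 ≤ C2) (hB : 0 ≤ B)
    (hT : ∀ f : Ω → ℝ, ∀ i ∈ I, ∀ ρ : G,
      ∑ σ : G, (f (σ • rep i) - f (σ • ρ • rep i)) ^ 2 ≤ C1 * EO G f (rep i))
    (hC : ∀ f : Ω → ℝ, ∀ x ∈ I, ∀ y ∈ I, R x y →
      gc G * (Fb G f (rep x) - Fb G f (rep y)) ^ 2 ≤
        C2 * (EO G f (rep x) + EO G f (rep y)))
    (hd : ∀ x ∈ I, (I.filter (fun y => R x y)).card ≤ d) (hsymm : ∀ x y, R x y → R y x)
    (hcore : ∀ F : ι → ℝ, ∑ a ∈ I, ∑ b ∈ I, (F a - F b) ^ 2 ≤
      B * I.card * ∑ x ∈ I, ∑ y ∈ I with R x y, (F x - F y) ^ 2) :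
    Poinc G Ω (C1 / 2 + B * C2 * d) := by
  intro f hf
  have hg := gc_pos G
  have hN := nOrb_eq hrep
  have hNpos := nOrb_pos (G := G) (Classical.arbitrary Ω)
  have hgN : (0 : ℝ) < gc G * nOrb G Ω := by positivity
  -- the norm
  have e1 : gc G * nOrb G Ω * nrm G f = ∑ i ∈ I, ∑ σ : G, f (σ • rep i) ^ 2 := by
    unfold nrm
    rw [mul_sum, sum_rep hrep]
    refine sum_congr rfl fun i _ => ?_
    have h5 : (0 : ℝ) < (St G (rep i)).card := by exact_mod_cast St_card_pos G (rep i)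
    rw [Finset.sum_div]
    refine sum_congr rfl fun σ _ => ?_
    rw [statio_eq, St_smul_card]
    field_simp
  -- mean zero
  have e2 : ∑ i ∈ I, Fb G f (rep i) = 0 := by
    have h1 : gc G * nOrb G Ω * ∑ α, statio G α * f α = gc G * ∑ i ∈ I, Fb G f (rep i) := by
      rw [mul_sum, sum_rep hrep, mul_sum]
      refine sum_congr rfl fun i _ => ?_
      have h5 : (0 : ℝ) < (St G (rep i)).card := by exact_mod_cast St_card_pos G (rep i)
      rw [gc_mul_Fb, Finset.sum_div]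
      refine sum_congr rfl fun σ _ => ?_
      rw [statio_eq, St_smul_card]
      field_simp
    rw [hf, mul_zero] at h1
    rcases mul_eq_zero.1 h1.symm with h | h
    · exact absurd h hg.ne'
    · exact h
  have e3 : ∑ α, ee G f α = ∑ i ∈ I, EO G f (rep i) := sum_rep hrep _
  have e4 : ∀ i ∈ I, ∑ σ : G, f (σ • rep i) ^ 2 ≤
      C1 * EO G f (rep i) / 2 + gc G * Fb G f (rep i) ^ 2 := fun i hi =>
    var_orbit f (rep i) (hT f i hi)
  have hI : (0 : ℝ) < I.card := by rw [← hN]; exact hNpos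
  have e5 : ∑ i ∈ I, Fb G f (rep i) ^ 2 ≤
      B / 2 * ∑ x ∈ I, ∑ y ∈ I with R x y, (Fb G f (rep x) - Fb G f (rep y)) ^ 2 := by
    have h1 := hcore (fun i => Fb G f (rep i))
    rw [var_pairs (fun i => Fb G f (rep i)) e2] at h1
    have h2 : (2 * (I.card : ℝ)) * ∑ i ∈ I, Fb G f (rep i) ^ 2 ≤ (2 * (I.card : ℝ)) *
        (B / 2 * ∑ x ∈ I, ∑ y ∈ I with R x y, (Fb G f (rep x) - Fb G f (rep y)) ^ 2) := by
      calc (2 * (I.card : ℝ)) * ∑ i ∈ I, Fb G f (rep i) ^ 2 ≤ _ := h1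
        _ = _ := by ring
    exact le_of_mul_le_mul_left h2 (by positivity)
  have e6 : gc G * ∑ x ∈ I, ∑ y ∈ I with R x y, (Fb G f (rep x) - Fb G f (rep y)) ^ 2 ≤
      2 * C2 * d * ∑ i ∈ I, EO G f (rep i) := by
    calc gc G * ∑ x ∈ I, ∑ y ∈ I with R x y, (Fb G f (rep x) - Fb G f (rep y)) ^ 2
        = ∑ x ∈ I, ∑ y ∈ I with R x y,
            gc G * (Fb G f (rep x) - Fb G f (rep y)) ^ 2 := by
          rw [mul_sum]
          exact sum_congr rfl fun x _ => mul_sum _ _ _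
      _ ≤ ∑ x ∈ I, ∑ y ∈ I with R x y, C2 * (EO G f (rep x) + EO G f (rep y)) := by
          refine sum_le_sum fun x hx => sum_le_sum fun y hy => ?_
          rw [mem_filter] at hy
          exact hC f x hx y hy.1 hy.2
      _ = C2 * (∑ x ∈ I, ∑ y ∈ I with R x y, EO G f (rep x)) +
            C2 * (∑ x ∈ I, ∑ y ∈ I with R x y, EO G f (rep y)) := by
          rw [mul_sum, mul_sum, ← sum_add_distrib]
          refine sum_congr rfl fun x _ => ?_
          rw [mul_sum, mul_sum, ← sum_add_distrib]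
          exact sum_congr rfl fun y _ => by ring
      _ ≤ C2 * (∑ x ∈ I, d * EO G f (rep x)) + C2 * (∑ x ∈ I, d * EO G f (rep x)) := by
          have h1 : ∑ x ∈ I, ∑ y ∈ I with R x y, EO G f (rep x) ≤
              ∑ x ∈ I, d * EO G f (rep x) := by
            refine sum_le_sum fun x hx => ?_
            rw [sum_const, nsmul_eq_mul]
            exact mul_le_mul_of_nonneg_right (by exact_mod_cast hd x hx) (EO_nonneg _ _)
          have h2 : ∑ x ∈ I, ∑ y ∈ I with R x y, EO G f (rep y) =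
              ∑ x ∈ I, ∑ y ∈ I with R x y, EO G f (rep x) := by
            simp only [sum_filter]
            rw [sum_comm]
            refine sum_congr rfl fun x _ => sum_congr rfl fun y _ => ?_
            by_cases h : R x y
            · rw [if_pos h, if_pos (hsymm x y h)]
            · rw [if_neg h, if_neg (fun h' => h (hsymm y x h'))]
          rw [h2]
          exact add_le_add (mul_le_mul_of_nonneg_left h1 hC2) (mul_le_mul_of_nonneg_left h1 hC2)
      _ = 2 * C2 * d * ∑ i ∈ I, EO G f (rep i) := by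
          rw [← mul_sum]; ring
  rw [e1, e3]
  calc ∑ i ∈ I, ∑ σ : G, f (σ • rep i) ^ 2
      ≤ ∑ i ∈ I, (C1 * EO G f (rep i) / 2 + gc G * Fb G f (rep i) ^ 2) := sum_le_sum e4
    _ = C1 / 2 * ∑ i ∈ I, EO G f (rep i) + gc G * ∑ i ∈ I, Fb G f (rep i) ^ 2 := by
        rw [sum_add_distrib, ← mul_sum]
        congr 1
        rw [mul_sum]
        refine sum_congr rfl fun i _ => ?_
        ring
    _ ≤ C1 / 2 * ∑ i ∈ I, EO G f (rep i) + gc G * (B / 2 *
          ∑ x ∈ I, ∑ y ∈ I with R x y, (Fb G f (rep x) - Fb G f (rep y)) ^ 2) := by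
        have := mul_le_mul_of_nonneg_left e5 hg.le
        linarith
    _ = C1 / 2 * ∑ i ∈ I, EO G f (rep i) + B / 2 * (gc G *
          ∑ x ∈ I, ∑ y ∈ I with R x y, (Fb G f (rep x) - Fb G f (rep y)) ^ 2) := by ring
    _ ≤ C1 / 2 * ∑ i ∈ I, EO G f (rep i) + B / 2 * (2 * C2 * d *
          ∑ i ∈ I, EO G f (rep i)) := by
        have := mul_le_mul_of_nonneg_left e6 (by positivity : (0 : ℝ) ≤ B / 2)
        linarith
    _ = (C1 / 2 + B * C2 * d) * ∑ i ∈ I, EO G f (rep i) := by ring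

/-- from representatives of an edge to orbit averages -/
lemma Fb_diff_le (f : Ω → ℝ) (a b α β : Ω) (hα : α ∈ orbit G a) (hβ : β ∈ orbit G b) {C : ℝ}
    (h : ∑ σ : G, (f (σ • α) - f (σ • β)) ^ 2 ≤ C) :
    gc G * (Fb G f a - Fb G f b) ^ 2 ≤ C := by
  have hg := gc_pos G
  obtain ⟨τ, rfl⟩ := hα
  obtain ⟨τ', rfl⟩ := hβ
  have h1 : gc G * (Fb G f a - Fb G f b) = ∑ σ : G, (f (σ • τ • a) - f (σ • τ' • b)) := by
    rw [sum_sub_distrib, sum_smul_right f, sum_smul_right f, mul_sub, gc_mul_Fb, gc_mul_Fb]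
  have h2 := sq_sum_le_card_mul_sum_sq (s := (univ : Finset G))
    (f := fun σ => f (σ • τ • a) - f (σ • τ' • b))
  rw [← h1, card_univ] at h2
  have h3 : gc G * (gc G * (Fb G f a - Fb G f b) ^ 2) ≤ gc G * C := by
    calc gc G * (gc G * (Fb G f a - Fb G f b) ^ 2) = (gc G * (Fb G f a - Fb G f b)) ^ 2 := by ring
      _ ≤ gc G * ∑ σ : G, (f (σ • τ • a) - f (σ • τ' • b)) ^ 2 := h2
      _ ≤ gc G * C := mul_le_mul_of_nonneg_left h hg.le
  exact le_of_mul_le_mul_left h3 hg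

end Pool.Agent.Helper95.Burnside
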