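import Mathlib
import Pool.Agent.Helper95.Burnside.Defs
import Pool.Agent.Helper95.Burnside.Core

/-!
# 2-regular graphs and permutations with long cycles
-/

set_option autoImplicit false
set_option linter.unusedSectionVars false

namespace Pool.Agent.Helper95.Burnside

open Equiv.Perm

section

variable {V : Type*} [Fintype V] [DecidableEq V]

/-- all cycles have length at least three -/
def Good (s : Equiv.Perm V) : Prop := ∀ x, s x ≠ x ∧ s (s x) ≠ x

/-- the graph of a permutation -/
def gr (s : Equiv.Perm V) : SimpleGraph V where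
  Adj x y := x ≠ y ∧ (s x = y ∨ s y = x)
  symm := ⟨fun _ _ h => ⟨h.1.symm, h.2.symm⟩⟩
  loopless := ⟨fun _ h => h.1 rfl⟩

lemma gr_adj {s : Equiv.Perm V} {x y : V} : (gr s).Adj x y ↔ x ≠ y ∧ (s x = y ∨ s y = x) := Iff.rfl

lemma Good.adj {s : Equiv.Perm V} (h : Good s) {x y : V} : (gr s).Adj x y ↔ s x = y ∨ s y = x := by
  rw [gr_adj]
  constructor
  · exact fun h => h.2
  · rintro (h1 | h1)
    · exact ⟨fun e => (h x).1 (by rw [h1, ← e]), Or.inl h1⟩
    · exact ⟨fun e => (h y).1 (by rw [h1, e]), Or.inr h1⟩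

lemma Good.ncard {s : Equiv.Perm V} (h : Good s) (v : V) : ((gr s).neighborSet v).ncard = 2 := by
  have h1 : (gr s).neighborSet v = {s v, s⁻¹ v} := by
    ext w
    rw [SimpleGraph.mem_neighborSet, h.adj]
    simp only [Set.mem_insert_iff, Set.mem_singleton_iff]
    constructor
    · rintro (h1 | h1)
      · exact Or.inl h1.symm
      · right; rw [← h1]; simp
    · rintro (h1 | h1)
      · exact Or.inl h1.symm
      · right; rw [h1]; simp
  rw [h1, Set.ncard_pair]
  intro h2
  apply (h (s⁻¹ v)).2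
  have h3 : s (s⁻¹ v) = v := by simp
  rw [h3, h2]

lemma Good.conj {s : Equiv.Perm V} (h : Good s) (σ : Equiv.Perm V) : Good (σ * s * σ⁻¹) := by
  intro x
  have h1 := h (σ⁻¹ x)
  simp only [Equiv.Perm.mul_apply]
  constructor
  · intro h2
    exact h1.1 (Equiv.Perm.eq_inv_iff_eq.2 h2)
  · intro h2
    apply h1.2
    have h3 : σ⁻¹ (σ (s (σ⁻¹ x))) = s (σ⁻¹ x) := by simp
    rw [h3] at h2
    exact Equiv.Perm.eq_inv_iff_eq.2 h2

lemma sum_cycleType_good {s : Equiv.Perm V} (h : Good s) :
    s.cycleType.sum = Fintype.card V := by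
  rw [sum_cycleType]
  have : s.support = Finset.univ := by
    ext x
    simp only [mem_support, Finset.mem_univ, iff_true]
    exact (h x).1
  rw [this, Finset.card_univ]

lemma three_le_of_good {s : Equiv.Perm V} (h : Good s) {k : ℕ} (hk : k ∈ s.cycleType) : 3 ≤ k := by
  have h2 := two_le_of_mem_cycleType hk
  by_contra h3
  have hk2 : k = 2 := by omega
  subst hk2
  rw [cycleType_def, Multiset.mem_map] at hk
  obtain ⟨c, hc, hc2⟩ := hk
  have hc' : c ∈ s.cycleFactorsFinset := hc
  rw [mem_cycleFactorsFinset_iff] at hc'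
  obtain ⟨hcyc, hagree⟩ := hc'
  simp only [Function.comp] at hc2
  have hord := hcyc.orderOf
  rw [hc2] at hord
  have hpow : c ^ 2 = 1 := by rw [← hord]; exact pow_orderOf_eq_one c
  obtain ⟨x, hx⟩ : ∃ x, x ∈ c.support := by
    have : 0 < c.support.card := by omega
    exact Finset.card_pos.1 this
  have h4 : c x ∈ c.support := apply_mem_support.2 hx
  have h5 : c (c x) = x := by
    have := congrArg (fun p => p x) hpow
    simpa [sq] using this
  apply (h x).2
  rw [← hagree x hx, ← hagree (c x) h4, h5]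

lemma good_of_cycleType {s : Equiv.Perm V} (h1 : s.cycleType.sum = Fintype.card V)
    (h2 : ∀ k ∈ s.cycleType, 3 ≤ k) : Good s := by
  have hsupp : s.support = Finset.univ := by
    rw [sum_cycleType] at h1
    exact (Finset.card_eq_iff_eq_univ _).1 h1
  have hne : ∀ x, s x ≠ x := by
    intro x
    have : x ∈ s.support := by rw [hsupp]; exact Finset.mem_univ _
    exact mem_support.1 this
  intro x
  refine ⟨hne x, ?_⟩
  intro h3
  have hx : x ∈ s.support := mem_support.2 (hne x)
  have hc := cycleOf_mem_cycleFactorsFinset_iff.2 hx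
  have hcyc := (mem_cycleFactorsFinset_iff.1 hc).1
  have hag := (mem_cycleFactorsFinset_iff.1 hc).2
  have h4 : (s.cycleOf x).support.card ∈ s.cycleType := by
    rw [cycleType_def, Multiset.mem_map]
    exact ⟨s.cycleOf x, hc, rfl⟩
  have h5 := h2 _ h4
  have hxs : x ∈ (s.cycleOf x).support := mem_support_cycleOf_iff.2 ⟨SameCycle.refl _ _, hx⟩
  have h6 : (s.cycleOf x) ^ 2 = 1 := by
    rw [hcyc.pow_eq_one_iff]
    refine ⟨x, mem_support.1 hxs, ?_⟩
    rw [sq, Equiv.Perm.mul_apply, hag x hxs, hag (s x), h3]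
    rw [← hag x hxs]
    exact apply_mem_support.2 hxs
  have h7 := orderOf_dvd_of_pow_eq_one h6
  rw [hcyc.orderOf] at h7
  have := Nat.le_of_dvd (by norm_num) h7
  omega

/-- the graph determines the cycles -/
lemma sameCycle_of_gr_eq {s t : Equiv.Perm V} (hs : Good s) (ht : Good t) (h : gr s = gr t)
    {x y : V} (hxy : s.SameCycle x y) : t.SameCycle x y := by
  obtain ⟨i, hlt, hi⟩ := hxy.exists_pow_eq'
  rw [← hi]
  clear hi hlt
  induction i with
  | zero => exact SameCycle.refl _ _
  | succ i ih =>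
    rw [pow_succ', Equiv.Perm.mul_apply]
    refine ih.trans ?_
    set z := (s ^ i) x
    have h1 : (gr s).Adj z (s z) := hs.adj.2 (Or.inl rfl)
    rw [h, ht.adj] at h1
    rcases h1 with h1 | h1
    · exact ⟨1, by simpa using h1⟩
    · exact ⟨-1, by
        rw [zpow_neg_one, Equiv.Perm.inv_eq_iff_eq]
        exact h1.symm⟩

lemma cycleType_eq_image {s : Equiv.Perm V} (hs : Good s) : s.cycleType =
    ((Finset.univ.image (fun x => (s.cycleOf x).support)).1).map Finset.card := by
  rw [cycleType_def]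
  have h1 : (Finset.univ.image (fun x => (s.cycleOf x).support)) =
      s.cycleFactorsFinset.image support := by
    ext S
    simp only [Finset.mem_image, Finset.mem_univ, true_and]
    constructor
    · rintro ⟨x, rfl⟩
      exact ⟨s.cycleOf x, cycleOf_mem_cycleFactorsFinset_iff.2 (mem_support.2 (hs x).1), rfl⟩
    · rintro ⟨c, hc, rfl⟩
      have hcyc := (mem_cycleFactorsFinset_iff.1 hc).1
      obtain ⟨x, hx⟩ : ∃ x, x ∈ c.support := by
        have := hcyc.two_le_card_support
        exact Finset.card_pos.1 (by omega)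
      refine ⟨x, ?_⟩
      rw [cycle_is_cycleOf hx hc]
  have h2 : Set.InjOn support (s.cycleFactorsFinset : Set (Equiv.Perm V)) := by
    intro c hc c' hc' hcc
    have hc1 := mem_cycleFactorsFinset_iff.1 (Finset.mem_coe.1 hc)
    have hc2 := mem_cycleFactorsFinset_iff.1 (Finset.mem_coe.1 hc')
    ext x
    by_cases hx : x ∈ c.support
    · rw [hc1.2 x hx, hc2.2 x (hcc ▸ hx)]
    · have hx' : x ∉ c'.support := fun h => hx (hcc ▸ h)
      rw [notMem_support.1 hx, notMem_support.1 hx']
  rw [h1, Finset.image_val_of_injOn h2, Multiset.map_map]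

lemma cycleType_eq_of_gr_eq {s t : Equiv.Perm V} (hs : Good s) (ht : Good t) (h : gr s = gr t) :
    s.cycleType = t.cycleType := by
  rw [cycleType_eq_image hs, cycleType_eq_image ht]
  congr 2
  apply Finset.image_congr
  intro x _
  ext y
  rw [mem_support_cycleOf_iff, mem_support_cycleOf_iff]
  constructor
  · rintro ⟨h1, _⟩
    exact ⟨sameCycle_of_gr_eq hs ht h h1, mem_support.2 (ht x).1⟩
  · rintro ⟨h1, _⟩
    exact ⟨sameCycle_of_gr_eq ht hs h.symm h1, mem_support.2 (hs x).1⟩

end

/-- the 2-regular graph of a good permutation -/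
def toTR {n : ℕ} (s : Equiv.Perm (Fin n)) (h : Good s) : TwoRegular n := ⟨gr s, h.ncard⟩

lemma smul_toTR {n : ℕ} (s : Equiv.Perm (Fin n)) (h : Good s) (σ : Equiv.Perm (Fin n)) :
    σ • toTR s h = toTR (σ * s * σ⁻¹) (h.conj σ) := by
  apply Subtype.ext
  ext u v
  change (gr s).Adj (σ⁻¹ u) (σ⁻¹ v) ↔ (gr (σ * s * σ⁻¹)).Adj u v
  rw [h.adj, (h.conj σ).adj]
  simp only [Equiv.Perm.mul_apply]
  constructor
  · rintro (h1 | h1)
    · left; rw [h1]; simp
    · right; rw [h1]; simp
  · rintro (h1 | h1)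
    · left; rw [← h1]; simp
    · right; rw [← h1]; simp

end Pool.Agent.Helper95.Burnside
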