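import Mathlib
import Pool.Agent.Helper95.Burnside.Graph

/-!
# Orienting the cycles of a 2-regular graph
-/

set_option autoImplicit false
set_option linter.unusedSectionVars false

namespace Pool.Agent.Helper95.Burnside

open Equiv.Perm

section

variable {V : Type*} [Fintype V] [DecidableEq V] {A : SimpleGraph V}

lemma exists_other (h : ∀ v, (A.neighborSet v).ncard = 2) {v u : V} (huv : A.Adj v u) :
    ∃ w, A.Adj v w ∧ w ≠ u ∧ ∀ x, A.Adj v x → x ≠ u → x = w := by
  obtain ⟨a, b, hab, hN⟩ := Set.ncard_eq_two.1 (h v)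
  have hm : ∀ x, A.Adj v x ↔ x = a ∨ x = b := by
    intro x
    rw [← SimpleGraph.mem_neighborSet, hN]
    simp
  rcases (hm u).1 huv with rfl | rfl
  · refine ⟨b, (hm b).2 (Or.inr rfl), hab.symm, ?_⟩
    intro x hx hxu
    rcases (hm x).1 hx with h1 | h1
    · exact absurd h1 hxu
    · exact h1
  · refine ⟨a, (hm a).2 (Or.inl rfl), hab, ?_⟩
    intro x hx hxu
    rcases (hm x).1 hx with h1 | h1
    · exact h1
    · exact absurd h1 hxu

/-- darts -/
abbrev Dart (A : SimpleGraph V) : Type _ := {p : V × V // A.Adj p.1 p.2}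

/-- reversal -/
def rev (d : Dart A) : Dart A := ⟨(d.1.2, d.1.1), d.2.symm⟩

lemma rev_rev (d : Dart A) : rev (rev d) = d := rfl

/-- next dart -/
noncomputable def nxt (h : ∀ v, (A.neighborSet v).ncard = 2) (d : Dart A) : Dart A :=
  ⟨(d.1.2, (exists_other h d.2.symm).choose), (exists_other h d.2.symm).choose_spec.1⟩

lemma nxt_fst (h : ∀ v, (A.neighborSet v).ncard = 2) (d : Dart A) : (nxt h d).1.1 = d.1.2 := rfl

lemma nxt_ne (h : ∀ v, (A.neighborSet v).ncard = 2) (d : Dart A) : (nxt h d).1.2 ≠ d.1.1 :=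
  (exists_other h d.2.symm).choose_spec.2.1

lemma nxt_unique (h : ∀ v, (A.neighborSet v).ncard = 2) (d e : Dart A) (h1 : e.1.1 = d.1.2)
    (h2 : e.1.2 ≠ d.1.1) : e = nxt h d := by
  obtain ⟨⟨u, v⟩, he⟩ := e
  simp only at h1 h2 he
  subst h1
  apply Subtype.ext
  have := (exists_other h d.2.symm).choose_spec.2.2 v he h2
  exact Prod.ext rfl this

lemma nxt_rev_nxt (h : ∀ v, (A.neighborSet v).ncard = 2) (d : Dart A) :
    nxt h (rev (nxt h d)) = rev d := by
  symm
  apply nxt_unique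
  · rfl
  · show d.1.1 ≠ (nxt h d).1.2
    exact (nxt_ne h d).symm

lemma nxt_injective (h : ∀ v, (A.neighborSet v).ncard = 2) : Function.Injective (nxt h) := by
  intro d e hde
  have h1 := nxt_rev_nxt h d
  have h2 := nxt_rev_nxt h e
  rw [hde, h2] at h1
  have := congrArg rev h1
  rw [rev_rev, rev_rev] at this
  exact this.symm

/-- next dart as a permutation -/
noncomputable def Nx (h : ∀ v, (A.neighborSet v).ncard = 2) : Equiv.Perm (Dart A) :=
  Equiv.ofBijective (nxt h) (Finite.injective_iff_bijective.1 (nxt_injective h))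

lemma Nx_apply (h : ∀ v, (A.neighborSet v).ncard = 2) (d : Dart A) : Nx h d = nxt h d := rfl

lemma Nx_pow (h : ∀ v, (A.neighborSet v).ncard = 2) (k : ℕ) (d : Dart A) :
    (Nx h ^ k) (rev ((Nx h ^ k) d)) = rev d := by
  induction k with
  | zero => simp
  | succ k ih =>
    rw [pow_succ, Equiv.Perm.mul_apply]
    have h1 : (Nx h ^ k * Nx h) d = Nx h ((Nx h ^ k) d) := by
      rw [← pow_succ, pow_succ', Equiv.Perm.mul_apply]
    rw [h1, Nx_apply, Nx_apply, nxt_rev_nxt, ih]

lemma not_sameCycle_rev (h : ∀ v, (A.neighborSet v).ncard = 2) (d : Dart A) :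
    ¬ (Nx h).SameCycle d (rev d) := by
  intro hs
  obtain ⟨i, _, hi⟩ := hs.exists_pow_eq'
  obtain ⟨j, hj⟩ := Nat.even_or_odd' i
  have h1 := Nx_pow h j d
  rcases hj with hj | hj
  · rw [hj, two_mul, pow_add, Equiv.Perm.mul_apply] at hi
    rw [← h1] at hi
    have h2 := (Nx h ^ j).injective hi
    have h3 : ((Nx h ^ j) d).1.1 = (rev ((Nx h ^ j) d)).1.1 := by rw [← h2]
    exact ((Nx h ^ j) d).2.ne h3
  · rw [hj, show 2 * j + 1 = j + (j + 1) by ring, pow_add, Equiv.Perm.mul_apply, pow_succ',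
      Equiv.Perm.mul_apply] at hi
    rw [← h1] at hi
    have h2 := (Nx h ^ j).injective hi
    rw [Nx_apply] at h2
    have h3 := nxt_ne h ((Nx h ^ j) d)
    rw [h2] at h3
    exact h3 rfl

/-- key of a dart -/
noncomputable def key (h : ∀ v, (A.neighborSet v).ncard = 2) (d : Dart A) : ℕ :=
  (Finite.equivFin (Quotient (SameCycle.setoid (Nx h))) (Quotient.mk _ d) : ℕ)

lemma key_eq_iff (h : ∀ v, (A.neighborSet v).ncard = 2) (d e : Dart A) :
    key h d = key h e ↔ (Nx h).SameCycle d e := by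
  unfold key
  rw [Fin.val_inj, EmbeddingLike.apply_eq_iff_eq, Quotient.eq]
  rfl

/-- positive darts -/
def posD (h : ∀ v, (A.neighborSet v).ncard = 2) (d : Dart A) : Prop := key h d < key h (rev d)

lemma posD_rev (h : ∀ v, (A.neighborSet v).ncard = 2) (d : Dart A) :
    posD h (rev d) ↔ ¬ posD h d := by
  unfold posD
  rw [rev_rev]
  have h1 : key h d ≠ key h (rev d) := fun h1 => not_sameCycle_rev h d ((key_eq_iff h _ _).1 h1)
  omega

lemma posD_nxt (h : ∀ v, (A.neighborSet v).ncard = 2) (d : Dart A) :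
    posD h (nxt h d) ↔ posD h d := by
  unfold posD
  have h1 : key h (nxt h d) = key h d := by
    rw [key_eq_iff]
    exact ⟨-1, by rw [zpow_neg_one, Equiv.Perm.inv_eq_iff_eq, Nx_apply]⟩
  have h2 : key h (rev (nxt h d)) = key h (rev d) := by
    rw [key_eq_iff]
    exact ⟨1, by rw [zpow_one, Nx_apply, nxt_rev_nxt]⟩
  rw [h1, h2]

/-- two different darts from the same vertex: exactly one is positive -/
lemma posD_other (h : ∀ v, (A.neighborSet v).ncard = 2) (d e : Dart A) (h1 : d.1.1 = e.1.1)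
    (h2 : d.1.2 ≠ e.1.2) : posD h e ↔ ¬ posD h d := by
  have h3 : e = nxt h (rev d) := nxt_unique h (rev d) e h1.symm h2.symm
  rw [h3, posD_nxt, posD_rev]

lemma exists_pos (h : ∀ v, (A.neighborSet v).ncard = 2) (u : V) :
    ∃ v, ∃ huv : A.Adj u v, posD h ⟨(u, v), huv⟩ := by
  obtain ⟨a, b, hab, hN⟩ := Set.ncard_eq_two.1 (h u)
  have ha : A.Adj u a := by
    rw [← SimpleGraph.mem_neighborSet, hN]; simp
  have hb : A.Adj u b := by
    rw [← SimpleGraph.mem_neighborSet, hN]; simp
  have h1 := posD_other h ⟨(u, a), ha⟩ ⟨(u, b), hb⟩ rfl hab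
  by_cases h2 : posD h ⟨(u, a), ha⟩
  · exact ⟨a, ha, h2⟩
  · exact ⟨b, hb, h1.2 h2⟩

/-- successor -/
noncomputable def suc (h : ∀ v, (A.neighborSet v).ncard = 2) (u : V) : V := (exists_pos h u).choose

lemma suc_adj (h : ∀ v, (A.neighborSet v).ncard = 2) (u : V) : A.Adj u (suc h u) :=
  (exists_pos h u).choose_spec.choose

lemma suc_pos (h : ∀ v, (A.neighborSet v).ncard = 2) (u : V) :
    posD h ⟨(u, suc h u), suc_adj h u⟩ := (exists_pos h u).choose_spec.choose_spec

lemma suc_unique (h : ∀ v, (A.neighborSet v).ncard = 2) {u v : V} (huv : A.Adj u v)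
    (hp : posD h ⟨(u, v), huv⟩) : suc h u = v := by
  by_contra hne
  have h1 := posD_other h ⟨(u, suc h u), suc_adj h u⟩ ⟨(u, v), huv⟩ rfl hne
  exact h1.1 hp (suc_pos h u)

lemma suc_injective (h : ∀ v, (A.neighborSet v).ncard = 2) : Function.Injective (suc h) := by
  intro u u' huu
  by_contra hne
  have h1 : ∀ w, ¬ posD h (⟨(suc h w, w), (suc_adj h w).symm⟩ : Dart A) := by
    intro w
    exact (posD_rev h ⟨(w, suc h w), suc_adj h w⟩).not.2 (not_not.2 (suc_pos h w))
  have h2 := h1 u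
  have h3 := h1 u'
  have h4 := posD_other h (⟨(suc h u, u), (suc_adj h u).symm⟩ : Dart A)
    (⟨(suc h u', u'), (suc_adj h u').symm⟩ : Dart A) huu hne
  exact h3 (h4.2 h2)

/-- Every 2-regular graph is the graph of a permutation with cycles of length at least three. -/
theorem exists_orient (h : ∀ v, (A.neighborSet v).ncard = 2) :
    ∃ s : Equiv.Perm V, Good s ∧ gr s = A := by
  set s : Equiv.Perm V := Equiv.ofBijective (suc h)
    (Finite.injective_iff_bijective.1 (suc_injective h)) with hs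
  have hsa : ∀ u, s u = suc h u := fun u => rfl
  have hgood : Good s := by
    intro u
    refine ⟨fun h1 => (suc_adj h u).ne (by rw [← hsa, h1]), fun h1 => ?_⟩
    rw [hsa, hsa] at h1
    have h2 := suc_pos h (suc h u)
    have h3 : ¬ posD h (⟨(suc h u, u), (suc_adj h u).symm⟩ : Dart A) :=
      (posD_rev h ⟨(u, suc h u), suc_adj h u⟩).not.2 (not_not.2 (suc_pos h u))
    apply h3
    convert h2 using 3
    exact h1.symm
  refine ⟨s, hgood, ?_⟩
  ext u v
  rw [hgood.adj, hsa, hsa]
  constructor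
  · rintro (h1 | h1)
    · rw [← h1]; exact suc_adj h u
    · rw [← h1]; exact (suc_adj h v).symm
  · intro huv
    by_cases hp : posD h ⟨(u, v), huv⟩
    · exact Or.inl (suc_unique h huv hp)
    · right
      apply suc_unique h huv.symm
      exact (posD_rev h ⟨(u, v), huv⟩).2 hp

end

end Pool.Agent.Helper95.Burnside
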