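import Mathlib
import Pool.Agent.Helper95.Burnside.Energy

/-!
# Relabelling moves
-/

set_option autoImplicit false
set_option linter.unusedSectionVars false

namespace Pool.Agent.Helper95.Burnside

open MulAction Finset

open Classical

lemma minkowski_sq {ι : Type*} (s : Finset ι) (a b : ι → ℝ) {A B : ℝ} (hA : 0 ≤ A) (hB : 0 ≤ B)
    (ha : ∑ i ∈ s, a i ^ 2 ≤ A ^ 2) (hb : ∑ i ∈ s, b i ^ 2 ≤ B ^ 2) :
    ∑ i ∈ s, (a i + b i) ^ 2 ≤ (A + B) ^ 2 := by
  have h1 := Finset.sum_mul_sq_le_sq_mul_sq s a b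
  have h2 : (∑ i ∈ s, a i * b i) ^ 2 ≤ (A * B) ^ 2 := by
    refine h1.trans ?_
    rw [mul_pow]
    exact mul_le_mul ha hb (sum_nonneg fun _ _ => sq_nonneg _) (sq_nonneg _)
  have h3 : ∑ i ∈ s, a i * b i ≤ A * B := abs_le_of_sq_le_sq' h2 (by positivity) |>.2
  have h4 : ∑ i ∈ s, (a i + b i) ^ 2 = ∑ i ∈ s, a i ^ 2 + 2 * ∑ i ∈ s, a i * b i +
      ∑ i ∈ s, b i ^ 2 := by
    rw [mul_sum, ← sum_add_distrib, ← sum_add_distrib]
    exact sum_congr rfl fun i _ => by ring
  rw [h4]
  nlinarith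

section

variable {V Ω : Type*} [Fintype V] [DecidableEq V] [Fintype Ω] [MulAction (Equiv.Perm V) Ω]

lemma perm_path (f : Ω → ℝ) (α : Ω) {q : ℝ} (hq : 0 ≤ q)
    (h : ∀ x y : V, ∑ σ : Equiv.Perm V, (f (σ • α) - f (σ • Equiv.swap x y • α)) ^ 2 ≤ q ^ 2) :
    ∀ (m : ℕ) (ρ : Equiv.Perm V), ρ.support.card ≤ m →
      ∑ σ : Equiv.Perm V, (f (σ • α) - f (σ • ρ • α)) ^ 2 ≤ (m * q) ^ 2 := by
  intro m
  induction m with
  | zero =>
    intro ρ hρ
    have h1 : ρ = 1 := by
      rw [← Equiv.Perm.support_eq_empty_iff, ← Finset.card_eq_zero]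
      omega
    subst h1
    simp
  | succ m ih =>
    intro ρ hρ
    by_cases h1 : ρ = 1
    · subst h1
      simp only [one_smul, sub_self]
      simp only [ne_eq, OfNat.ofNat_ne_zero, not_false_eq_true, zero_pow, sum_const_zero]
      positivity
    · have h2 : ∃ x, ρ x ≠ x := by
        by_contra h3
        push Not at h3
        exact h1 (Equiv.ext h3)
      obtain ⟨x, hx⟩ := h2
      have h3 := Equiv.Perm.card_support_swap_mul hx
      set ρ' := Equiv.swap x (ρ x) * ρ with hρ'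
      have h4 : ρ = Equiv.swap x (ρ x) * ρ' := by
        rw [hρ', ← mul_assoc, Equiv.swap_mul_self, one_mul]
      have h5 := ih ρ' (by omega)
      have h6 : ∑ σ : Equiv.Perm V, (f (σ • Equiv.swap x (ρ x) • α) -
          f (σ • Equiv.swap x (ρ x) • ρ' • α)) ^ 2 ≤ (m * q) ^ 2 := by
        have h7 : ∀ σ : Equiv.Perm V, (f (σ • Equiv.swap x (ρ x) • α) -
            f (σ • Equiv.swap x (ρ x) • ρ' • α)) ^ 2 =
            (fun τ : Equiv.Perm V => (f (τ • α) - f (τ • ρ' • α)) ^ 2)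
              (σ * Equiv.swap x (ρ x)) := by
          intro σ
          simp only [mul_smul]
        rw [sum_congr rfl (fun σ _ => h7 σ)]
        have h10 : ∑ σ : Equiv.Perm V, (fun τ : Equiv.Perm V =>
            (f (τ • α) - f (τ • ρ' • α)) ^ 2) (σ * Equiv.swap x (ρ x)) =
            ∑ τ : Equiv.Perm V, (f (τ • α) - f (τ • ρ' • α)) ^ 2 :=
          Fintype.sum_equiv (Equiv.mulRight (Equiv.swap x (ρ x))) _ _ (fun σ => rfl)
        rw [h10]
        exact h5
      have h8 := minkowski_sq univ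
        (fun σ : Equiv.Perm V => f (σ • α) - f (σ • Equiv.swap x (ρ x) • α))
        (fun σ : Equiv.Perm V => f (σ • Equiv.swap x (ρ x) • α) -
          f (σ • Equiv.swap x (ρ x) • ρ' • α)) hq (by positivity : (0 : ℝ) ≤ m * q) (h x (ρ x)) h6
      have h9 : ∀ σ : Equiv.Perm V, (f (σ • α) - f (σ • ρ • α)) ^ 2 =
          (f (σ • α) - f (σ • Equiv.swap x (ρ x) • α) + (f (σ • Equiv.swap x (ρ x) • α) -
          f (σ • Equiv.swap x (ρ x) • ρ' • α))) ^ 2 := by
        intro σ
        have h10 : ρ • α = Equiv.swap x (ρ x) • ρ' • α := by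
          conv_lhs => rw [h4]
          rw [mul_smul]
        rw [h10, sub_add_sub_cancel]
      rw [sum_congr rfl (fun σ _ => h9 σ)]
      refine h8.trans (le_of_eq ?_)
      push_cast
      ring

/-- index bound -/
lemma index_bound (α : Ω) (P : Finset V) (H : Finset (Equiv.Perm V))
    (hH : ∀ g ∈ St (Equiv.Perm V) α, (∀ p ∈ P, g p = p) → g ∈ H) :
    (St (Equiv.Perm V) α).card ≤ Fintype.card V ^ P.card * H.card := by
  have h1 := Finset.card_le_mul_card_image (s := St (Equiv.Perm V) α)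
    (f := fun h => (fun p : P => h p : P → V)) (n := H.card) ?_
  · refine h1.trans ?_
    rw [mul_comm]
    apply Nat.mul_le_mul_right
    refine (card_le_univ _).trans ?_
    rw [Fintype.card_fun, Fintype.card_coe]
  · intro φ hφ
    rw [mem_image] at hφ
    obtain ⟨g0, hg0, hφ⟩ := hφ
    refine Finset.card_le_card_of_injOn (fun g => g0⁻¹ * g) ?_ ?_
    · intro g hg
      simp only [coe_filter, Set.mem_ofPred_eq] at hg
      refine hH _ ?_ ?_
      · rw [mem_St] at hg0 ⊢
        have h2 := mem_St.1 hg.1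
        rw [mul_smul, h2, inv_smul_eq_iff, hg0]
      · intro p hp
        have h2 := congrFun hg.2 ⟨p, hp⟩
        have h3 := congrFun hφ ⟨p, hp⟩
        simp only at h2 h3
        rw [Equiv.Perm.mul_apply, h2, ← h3]
        simp
    · intro g _ g' _ h2
      simpa using h2

end

end Pool.Agent.Helper95.Burnside
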