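import Mathlib
import Pool.Agent.Helper95.Burnside.Orient
import Pool.Agent.Helper95.Burnside.Sym
import Pool.Agent.Helper95.Burnside.Count

/-!
# Orbit representatives of 2-regular graphs
-/

set_option autoImplicit false
set_option linter.unusedSectionVars false

namespace Pool.Agent.Helper95.Burnside

open Equiv.Perm MulAction

noncomputable instance (n : ℕ) : Fintype (TwoRegular n) := Fintype.ofFinite _

open Classical in
/-- representative of the graphs with cycle lengths `x` -/
noncomputable def repM (n : ℕ) [Nonempty (TwoRegular n)] (x : Multiset ℕ) : TwoRegular n :=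
  if h : ∃ s : Equiv.Perm (Fin n), Good s ∧ s.cycleType = x then toTR h.choose h.choose_spec.1
  else Classical.arbitrary _

lemma mem_PP_of_good {n : ℕ} {s : Equiv.Perm (Fin n)} (h : Good s) : s.cycleType ∈ PP n := by
  rw [mem_PP]
  refine ⟨?_, fun k hk => three_le_of_good h hk⟩
  rw [sum_cycleType_good h, Fintype.card_fin]

lemma exists_good {n : ℕ} {x : Multiset ℕ} (hx : x ∈ PP n) :
    ∃ s : Equiv.Perm (Fin n), Good s ∧ s.cycleType = x := by
  rw [mem_PP] at hx
  obtain ⟨s, hs⟩ := (exists_with_cycleType_iff (Fin n) (m := x)).2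
    ⟨by rw [hx.1, Fintype.card_fin], fun a ha => by have := hx.2 a ha; omega⟩
  refine ⟨s, good_of_cycleType ?_ ?_, hs⟩
  · rw [hs, hx.1, Fintype.card_fin]
  · rw [hs]; exact hx.2

lemma nonempty_TR {n : ℕ} (hn : 3 ≤ n) : Nonempty (TwoRegular n) := by
  have h1 : ({n} : Multiset ℕ) ∈ PP n := by
    rw [mem_PP]
    refine ⟨by simp, fun x hx => ?_⟩
    rw [Multiset.mem_singleton] at hx
    omega
  obtain ⟨s, hs, _⟩ := exists_good h1
  exact ⟨toTR s hs⟩

variable {n : ℕ}

lemma repM_spec [Nonempty (TwoRegular n)] {x : Multiset ℕ} (hx : x ∈ PP n) :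
    ∃ (s : Equiv.Perm (Fin n)) (h : Good s), s.cycleType = x ∧ repM n x = toTR s h := by
  have h := exists_good hx
  refine ⟨h.choose, h.choose_spec.1, h.choose_spec.2, ?_⟩
  unfold repM
  rw [dif_pos h]

lemma toTR_mem_orbit [Nonempty (TwoRegular n)] {x : Multiset ℕ} (hx : x ∈ PP n)
    {s : Equiv.Perm (Fin n)} (h : Good s) (hs : s.cycleType = x) :
    toTR s h ∈ orbit (Equiv.Perm (Fin n)) (repM n x) := by
  obtain ⟨s', h', hs', hrep⟩ := repM_spec hx
  have h1 : IsConj s' s := isConj_iff_cycleType_eq.2 (hs'.trans hs.symm)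
  obtain ⟨c, hc⟩ := isConj_iff.1 h1
  refine ⟨c, ?_⟩
  show c • repM n x = toTR s h
  rw [hrep, smul_toTR]
  subst hc
  rfl

lemma isRep [Nonempty (TwoRegular n)] :
    IsRep (Equiv.Perm (Fin n)) (PP n) (repM n) := by
  intro α
  obtain ⟨s, hs, hgr⟩ := exists_orient α.2
  have hα : α = toTR s hs := Subtype.ext hgr.symm
  refine ⟨s.cycleType, ⟨mem_PP_of_good hs, ?_⟩, ?_⟩
  · rw [hα]
    exact toTR_mem_orbit (mem_PP_of_good hs) hs rfl
  · rintro y ⟨hy, σ, hσ⟩
    obtain ⟨t, ht, hty, hrep⟩ := repM_spec hy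
    simp only at hσ
    rw [hrep, smul_toTR, hα] at hσ
    have h1 : gr (σ * t * σ⁻¹) = gr s := congrArg Subtype.val hσ
    have h2 := cycleType_eq_of_gr_eq (ht.conj σ) hs h1
    rw [← h2, ← hty]
    exact (isConj_iff_cycleType_eq.1 (isConj_iff.2 ⟨σ, rfl⟩))

/-! ### automorphisms -/

lemma stab_iff {s : Equiv.Perm (Fin n)} (h : Good s) (g : Equiv.Perm (Fin n)) :
    g • toTR s h = toTR s h ↔ ∀ u v, (gr s).Adj (g u) (g v) ↔ (gr s).Adj u v := by
  constructor
  · intro h1 u v
    have h2 : (g • toTR s h).1.Adj (g u) (g v) ↔ (gr s).Adj (g u) (g v) := by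
      rw [h1]; rfl
    rw [← h2]
    change (gr s).Adj (g⁻¹ (g u)) (g⁻¹ (g v)) ↔ _
    simp
  · intro h1
    apply Subtype.ext
    ext u v
    change (gr s).Adj (g⁻¹ u) (g⁻¹ v) ↔ (gr s).Adj u v
    rw [← h1]
    simp

/-- an automorphism fixing two consecutive vertices of a cycle fixes the cycle -/
lemma fix_cycle {s : Equiv.Perm (Fin n)} (h : Good s) {g : Equiv.Perm (Fin n)}
    (hg : g • toTR s h = toTR s h) {p t : Fin n} (h1 : g p = p) (h2 : g (s p) = s p)
    (hpt : s.SameCycle p t) : g t = t := by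
  rw [stab_iff] at hg
  obtain ⟨i, _, hi⟩ := hpt.exists_pow_eq'
  have key : ∀ i : ℕ, g ((s ^ i) p) = (s ^ i) p ∧ g ((s ^ (i + 1)) p) = (s ^ (i + 1)) p := by
    intro i
    induction i with
    | zero => simpa using ⟨h1, h2⟩
    | succ i ih =>
      refine ⟨ih.2, ?_⟩
      set a := (s ^ i) p with ha
      have e1 : (s ^ (i + 1)) p = s a := by rw [pow_succ', Equiv.Perm.mul_apply]
      have e2 : (s ^ (i + 1 + 1)) p = s (s a) := by
        rw [pow_succ', Equiv.Perm.mul_apply, e1]
      rw [e1] at ih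
      rw [e2]
      have h3 : (gr s).Adj (s a) (s (s a)) := h.adj.2 (Or.inl rfl)
      rw [← hg, ih.2, h.adj] at h3
      rcases h3 with h3 | h3
      · exact h3.symm
      · have h4 : g (s (s a)) = a := s.injective h3
        exact absurd (g.injective (h4.trans ih.1.symm)) (h a).2
  rw [← hi]
  exact (key i).1

open Classical in
/-- few points meeting all cycles -/
lemma exists_points {V : Type*} [Fintype V] [DecidableEq V] (s : Equiv.Perm V)
    (h : ∀ x, s x ≠ x) : ∃ P : Finset V, P.card ≤ Multiset.card s.cycleType ∧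
      ∀ t, ∃ p ∈ P, s.SameCycle p t := by
  by_cases hne : Nonempty V
  · refine ⟨s.cycleFactorsFinset.image (fun c => if hc : ∃ x, x ∈ c.support then hc.choose
      else hne.some), ?_, ?_⟩
    · refine Finset.card_image_le.trans ?_
      rw [cycleType_def, Multiset.card_map]
      rfl
    · intro t
      have ht : t ∈ s.support := mem_support.2 (h t)
      have hc := cycleOf_mem_cycleFactorsFinset_iff.2 ht
      have hex : ∃ x, x ∈ (s.cycleOf t).support :=
        ⟨t, mem_support_cycleOf_iff.2 ⟨SameCycle.refl _ _, ht⟩⟩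
      refine ⟨hex.choose, ?_, ?_⟩
      · rw [Finset.mem_image]
        exact ⟨s.cycleOf t, hc, dif_pos hex⟩
      · exact (mem_support_cycleOf_iff.1 hex.choose_spec).1.symm
  · refine ⟨∅, by simp, fun t => absurd ⟨t⟩ hne⟩

/-! ### local modifications -/

/-- a permutation of a subtype times one of its complement -/
noncomputable def glue {T : Fin n → Prop} [DecidablePred T] (a : Equiv.Perm {i // T i})
    (b : Equiv.Perm {i // ¬ T i}) : Equiv.Perm (Fin n) := ofSubtype a * ofSubtype b

section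

variable {T : Fin n → Prop} [DecidablePred T] (a a' : Equiv.Perm {i // T i})
    (b : Equiv.Perm {i // ¬ T i})

lemma glue_of_mem {i : Fin n} (hi : T i) : glue a b i = (a ⟨i, hi⟩ : Fin n) := by
  unfold glue
  rw [Equiv.Perm.mul_apply, ofSubtype_apply_of_not_mem b (not_not.2 hi),
    ofSubtype_apply_of_mem a hi]

lemma glue_of_not_mem {i : Fin n} (hi : ¬ T i) : glue a b i = (b ⟨i, hi⟩ : Fin n) := by
  unfold glue
  rw [Equiv.Perm.mul_apply, ofSubtype_apply_of_mem b hi,
    ofSubtype_apply_of_not_mem a (b ⟨i, hi⟩).2]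

lemma glue_T {i : Fin n} (hi : T i) : T (glue a b i) := by
  rw [glue_of_mem a b hi]; exact (a ⟨i, hi⟩).2

lemma glue_not_T {i : Fin n} (hi : ¬ T i) : ¬ T (glue a b i) := by
  rw [glue_of_not_mem a b hi]; exact (b ⟨i, hi⟩).2

lemma glue_cycleType : (glue a b).cycleType = a.cycleType + b.cycleType := by
  unfold glue
  rw [Disjoint.cycleType_mul, cycleType_ofSubtype, cycleType_ofSubtype]
  intro i
  by_cases hi : T i
  · right; exact ofSubtype_apply_of_not_mem b (not_not.2 hi)
  · left; exact ofSubtype_apply_of_not_mem a hi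

lemma glue_pow (i : ℕ) (t : {i // T i}) : ((glue a b) ^ i) t = ((a ^ i) t : Fin n) := by
  induction i with
  | zero => simp
  | succ i ih =>
    rw [pow_succ', Equiv.Perm.mul_apply, ih, pow_succ', Equiv.Perm.mul_apply,
      glue_of_mem a b ((a ^ i) t).2]

lemma glue_sameCycle {p t : {i // T i}} (h : a.SameCycle p t) :
    (glue a b).SameCycle (p : Fin n) (t : Fin n) := by
  obtain ⟨i, _, hi⟩ := h.exists_pow_eq'
  exact ⟨i, by rw [zpow_natCast, glue_pow, hi]⟩

variable {a a' b}

/-- automorphisms of one graph fixing `T` pointwise are automorphisms of the other. -/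
lemma stab_transfer (h : Good (glue a b)) (h' : Good (glue a' b)) {g : Equiv.Perm (Fin n)}
    (hg : g • toTR (glue a b) h = toTR (glue a b) h) (hT : ∀ i, T i → g i = i) :
    g • toTR (glue a' b) h' = toTR (glue a' b) h' := by
  rw [stab_iff] at hg ⊢
  have hnT : ∀ i, ¬ T i → ¬ T (g i) := by
    intro i hi h1
    have h2 := hT (g i) h1
    have h3 := g.injective h2
    rw [h3] at h1
    exact hi h1
  intro u v
  rw [h'.adj, h'.adj]
  by_cases hu : T u
  · rw [hT u hu]
    by_cases hv : T v
    · rw [hT v hv]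
    · have e1 : glue a' b u ≠ g v := fun e => hnT v hv (e ▸ glue_T a' b hu)
      have e2 : glue a' b (g v) ≠ u := fun e => glue_not_T a' b (hnT v hv) (by rw [e]; exact hu)
      have e3 : glue a' b u ≠ v := fun e => hv (e ▸ glue_T a' b hu)
      have e4 : glue a' b v ≠ u := fun e => glue_not_T a' b hv (by rw [e]; exact hu)
      simp [e1, e2, e3, e4]
  · by_cases hv : T v
    · rw [hT v hv]
      have e1 : glue a' b (g u) ≠ v := fun e =>
        glue_not_T a' b (hnT u hu) (by rw [e]; exact hv)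
      have e2 : glue a' b v ≠ g u := fun e => hnT u hu (e ▸ glue_T a' b hv)
      have e3 : glue a' b u ≠ v := fun e => glue_not_T a' b hu (by rw [e]; exact hv)
      have e4 : glue a' b v ≠ u := fun e => hu (e ▸ glue_T a' b hv)
      simp [e1, e2, e3, e4]
    · have key : ∀ i, ¬ T i → glue a' b i = glue a b i := by
        intro i hi
        rw [glue_of_not_mem a' b hi, glue_of_not_mem a b hi]
      rw [key u hu, key v hv, key (g u) (hnT u hu), key (g v) (hnT v hv), ← h.adj, ← h.adj]
      exact hg u v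

/-- index of the pointwise stabilizer of `T` -/
lemma index_T (hn : 0 < n) (h : Good (glue a b)) {c : ℕ} (hc : Multiset.card a.cycleType ≤ c)
    (H : Finset (Equiv.Perm (Fin n)))
    (hH : ∀ g ∈ St (Equiv.Perm (Fin n)) (toTR (glue a b) h), (∀ i, T i → g i = i) → g ∈ H) :
    (St (Equiv.Perm (Fin n)) (toTR (glue a b) h)).card ≤ n ^ (2 * c) * H.card := by
  have hne : ∀ x, a x ≠ x := by
    intro x hx
    apply (h x).1
    rw [glue_of_mem a b x.2]
    exact congrArg Subtype.val hx
  obtain ⟨P, hP, hPt⟩ := exists_points a hne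
  set Q : Finset (Fin n) := P.image Subtype.val ∪ P.image (fun p => ((a p : {i // T i}) : Fin n))
    with hQ
  have hQc : Q.card ≤ 2 * c := by
    have h1 := Finset.card_union_le (P.image Subtype.val)
      (P.image (fun p => ((a p : {i // T i}) : Fin n)))
    have h2 : (P.image Subtype.val).card ≤ P.card := Finset.card_image_le
    have h3 : (P.image (fun p => ((a p : {i // T i}) : Fin n))).card ≤ P.card :=
      Finset.card_image_le
    rw [hQ]
    omega
  refine (index_bound (toTR (glue a b) h) Q H ?_).trans ?_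
  rotate_left
  · rw [Fintype.card_fin]
    exact Nat.mul_le_mul (Nat.pow_le_pow_right hn hQc) le_rfl
  intro g hg1 hg2
  refine hH g hg1 fun i hi => ?_
  obtain ⟨p, hp, hpt⟩ := hPt ⟨i, hi⟩
  refine fix_cycle h (mem_St.1 hg1) (p := (p : Fin n)) (hg2 _ ?_) (hg2 _ ?_)
    (glue_sameCycle a b hpt)
  · rw [hQ, Finset.mem_union]
    exact Or.inl (Finset.mem_image_of_mem _ hp)
  · rw [hQ, Finset.mem_union, glue_of_mem a b p.2]
    exact Or.inr (Finset.mem_image.2 ⟨p, hp, rfl⟩)

end

end Pool.Agent.Helper95.Burnside
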