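import Mathlib
import Pool.Agent.Helper95.Burnside.Rep

/-!
# Rapid mixing of the Burnside process on 2-regular graphs
-/

set_option autoImplicit false
set_option linter.unusedSectionVars false

namespace Pool.Agent.Helper95.Burnside

open Equiv.Perm MulAction

variable {n : ℕ}

/-- the group -/
abbrev Gn (n : ℕ) : Type := Equiv.Perm (Fin n)

lemma swap_energy (hn : 0 < n) (f : TwoRegular n → ℝ) (α : TwoRegular n) (x y : Fin n) :
    ∑ σ : Gn n, (f (σ • α) - f (σ • Equiv.swap x y • α)) ^ 2 ≤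
      4 * (n : ℝ) ^ 2 * EO (Gn n) f α := by
  classical
  set β := Equiv.swap x y • α with hβ
  set H : Finset (Gn n) := (St (Gn n) α).filter (fun g => g x = x ∧ g y = y) with hH
  have hHα : H ⊆ St (Gn n) α := Finset.filter_subset _ _
  have hHβ : H ⊆ St (Gn n) β := by
    intro g hg
    rw [hH, Finset.mem_filter, mem_St] at hg
    rw [mem_St, hβ]
    have h1 : g * Equiv.swap x y = Equiv.swap x y * g := by
      have := Equiv.mul_swap_eq_swap_mul g x y
      rw [hg.2.1, hg.2.2] at this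
      exact this
    rw [← mul_smul, h1, mul_smul, hg.1]
  have h1H : (1 : Gn n) ∈ H := by
    rw [hH, Finset.mem_filter]
    exact ⟨one_mem_St _, rfl, rfl⟩
  have hcard : (St (Gn n) α).card ≤ n ^ 2 * H.card := by
    refine (index_bound α {x, y} H ?_).trans ?_
    · intro g hg h2
      rw [hH, Finset.mem_filter]
      exact ⟨hg, h2 x (by simp), h2 y (by simp)⟩
    · rw [Fintype.card_fin]
      exact Nat.mul_le_mul (Nat.pow_le_pow_right hn Finset.card_le_two) le_rfl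
  have hcardβ : (St (Gn n) β).card ≤ n ^ 2 * H.card := by
    rw [hβ, St_smul_card]; exact hcard
  have h2 := local_energy' f α β H hHα hHβ (D := (n : ℝ) ^ 2) (Finset.card_pos.2 ⟨1, h1H⟩)
    (by exact_mod_cast hcard) (by exact_mod_cast hcardβ)
  have h3 : EO (Gn n) f β = EO (Gn n) f α := EO_smul f _ _
  rw [h3] at h2
  linarith

lemma hT (hn : 0 < n) (f : TwoRegular n → ℝ) (α : TwoRegular n) (ρ : Gn n) :
    ∑ σ : Gn n, (f (σ • α) - f (σ • ρ • α)) ^ 2 ≤ 4 * (n : ℝ) ^ 4 * EO (Gn n) f α := by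
  have hE := EO_nonneg (G := Gn n) f α
  have h1 := perm_path f α (q := √(4 * (n : ℝ) ^ 2 * EO (Gn n) f α)) (Real.sqrt_nonneg _)
    (fun x y => by
      rw [Real.sq_sqrt (by positivity)]
      exact swap_energy hn f α x y) n ρ (by
        refine (Finset.card_le_univ _).trans ?_
        rw [Fintype.card_fin])
  rw [mul_pow, Real.sq_sqrt (by positivity)] at h1
  calc _ ≤ _ := h1
    _ = 4 * (n : ℝ) ^ 4 * EO (Gn n) f α := by ring

lemma hC [Nonempty (TwoRegular n)] (hn : 0 < n) (f : TwoRegular n → ℝ) {x y : Multiset ℕ}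
    (hx : x ∈ PP n) (hy : y ∈ PP n) (hxy : Cl x y) :
    gc (Gn n) * (Fb (Gn n) f (repM n x) - Fb (Gn n) f (repM n y)) ^ 2 ≤
      2 * (n : ℝ) ^ 8 * (EO (Gn n) f (repM n x) + EO (Gn n) f (repM n y)) := by
  classical
  have hx' := mem_PP.1 hx
  have hy' := mem_PP.1 hy
  set A := x - y with hA
  set A' := y - x with hA'
  set R := x ∩ y with hR
  have e1 : A + R = x := by
    ext k
    simp only [hA, hR, Multiset.count_add, Multiset.count_sub, Multiset.count_inter]
    omega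
  have e2 : A' + R = y := by
    ext k
    simp only [hA', hR, Multiset.count_add, Multiset.count_sub, Multiset.count_inter]
    omega
  have hs1 : A.sum + R.sum = n := by
    rw [← Multiset.sum_add, e1, hx'.1]
  have hs2 : A'.sum + R.sum = n := by
    rw [← Multiset.sum_add, e2, hy'.1]
  set w := A.sum with hw
  have hw' : A'.sum = w := by omega
  let T : Fin n → Prop := fun i => i.1 < w
  have hcT : Fintype.card {i : Fin n // T i} = w := by
    rw [Fintype.card_subtype]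
    have h1 : (Finset.univ.filter T) = (Finset.univ.filter (fun i : Fin n => i.1 < w)) := rfl
    rw [h1, Fin.card_filter_val_lt]
    omega
  have hcT' : Fintype.card {i : Fin n // ¬ T i} = R.sum := by
    rw [Fintype.card_subtype_compl, hcT, Fintype.card_fin]
    omega
  have h2A : ∀ a ∈ A, 3 ≤ a := fun a ha => hx'.2 a (Multiset.mem_of_le tsub_le_self ha)
  have h2A' : ∀ a ∈ A', 3 ≤ a := fun a ha => hy'.2 a (Multiset.mem_of_le tsub_le_self ha)
  have h2R : ∀ a ∈ R, 3 ≤ a := fun a ha => hx'.2 a (Multiset.mem_of_le (Multiset.inter_le_left) ha)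
  obtain ⟨a, ha⟩ := (exists_with_cycleType_iff {i : Fin n // T i} (m := A)).2
    ⟨by rw [hcT], fun k hk => by have := h2A k hk; omega⟩
  obtain ⟨a', ha'⟩ := (exists_with_cycleType_iff {i : Fin n // T i} (m := A')).2
    ⟨by rw [hcT, hw'], fun k hk => by have := h2A' k hk; omega⟩
  obtain ⟨b, hb⟩ := (exists_with_cycleType_iff {i : Fin n // ¬ T i} (m := R)).2
    ⟨by rw [hcT'], fun k hk => by have := h2R k hk; omega⟩
  have ht1 : (glue a b).cycleType = x := by rw [glue_cycleType, ha, hb, e1]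
  have ht2 : (glue a' b).cycleType = y := by rw [glue_cycleType, ha', hb, e2]
  have g1 : Good (glue a b) := good_of_cycleType (by rw [ht1, hx'.1, Fintype.card_fin])
    (by rw [ht1]; exact hx'.2)
  have g2 : Good (glue a' b) := good_of_cycleType (by rw [ht2, hy'.1, Fintype.card_fin])
    (by rw [ht2]; exact hy'.2)
  set α := toTR (glue a b) g1 with hα
  set β := toTR (glue a' b) g2 with hβ
  set H : Finset (Gn n) := (St (Gn n) α).filter (fun g => ∀ i, T i → g i = i) with hH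
  have memH : ∀ g, g ∈ H ↔ g • α = α ∧ ∀ i, T i → g i = i := by
    intro g
    rw [hH, Finset.mem_filter, mem_St]
  have hHα : H ⊆ St (Gn n) α := Finset.filter_subset _ _
  have hHβ : H ⊆ St (Gn n) β := by
    intro g hg
    rw [memH] at hg
    rw [mem_St]
    exact stab_transfer g1 g2 hg.1 hg.2
  have h1H : (1 : Gn n) ∈ H := by
    rw [memH]
    exact ⟨one_smul _ _, fun i _ => rfl⟩
  have hc1 : (St (Gn n) α).card ≤ n ^ 8 * H.card := by
    refine index_T hn g1 (c := 4) (by rw [ha]; exact hxy.1) H ?_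
    intro g hg h3
    exact (memH g).2 ⟨mem_St.1 hg, h3⟩
  have hc2 : (St (Gn n) β).card ≤ n ^ 8 * H.card := by
    refine index_T hn g2 (c := 4) (by rw [ha']; exact hxy.2) H ?_
    intro g hg h3
    exact (memH g).2 ⟨stab_transfer g2 g1 (mem_St.1 hg) h3, h3⟩
  have h2 := local_energy' f α β H hHα hHβ (D := (n : ℝ) ^ 8) (Finset.card_pos.2 ⟨1, h1H⟩)
    (by exact_mod_cast hc1) (by exact_mod_cast hc2)
  have hoα : α ∈ orbit (Gn n) (repM n x) := toTR_mem_orbit hx g1 ht1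
  have hoβ : β ∈ orbit (Gn n) (repM n y) := toTR_mem_orbit hy g2 ht2
  have hEα : EO (Gn n) f α = EO (Gn n) f (repM n x) := by
    obtain ⟨τ, hτ⟩ := hoα
    rw [← hτ]
    exact EO_smul f τ _
  have hEβ : EO (Gn n) f β = EO (Gn n) f (repM n y) := by
    obtain ⟨τ, hτ⟩ := hoβ
    rw [← hτ]
    exact EO_smul f τ _
  rw [hEα, hEβ] at h2
  exact Fb_diff_le f _ _ α β hoα hoβ h2

open Classical in
theorem poinc (hn : 3 ≤ n) : Poinc (Gn n) (TwoRegular n) (((n : ℝ) + 2) ^ 36) := by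
  have hne := nonempty_TR hn
  have h1 := gap_criterion (G := Gn n) (Ω := TwoRegular n) (I := PP n) (rep := repM n) isRep
    Cl (C1 := 4 * (n : ℝ) ^ 4) (C2 := 2 * (n : ℝ) ^ 8) (B := ((n : ℝ) + 2) ^ 18)
    (d := (n + 2) ^ 8) (by positivity) (by positivity)
    (fun f i _ ρ => hT (by omega) f (repM n i) ρ)
    (fun f x hx y hy hxy => hC (by omega) f hx hy hxy)
    (fun x hx => card_close hx) (fun x y h => h.symm) (fun F => core hn F)
  intro f hf
  refine (h1 f hf).trans ?_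
  refine mul_le_mul_of_nonneg_right ?_ (Finset.sum_nonneg fun _ _ => ee_nonneg _ _)
  have hn0 : (0 : ℝ) ≤ n := by positivity
  have h2 : (n : ℝ) ^ 8 ≤ ((n : ℝ) + 2) ^ 8 := pow_le_pow_left₀ hn0 (by linarith) 8
  have h3 : (n : ℝ) ^ 4 ≤ ((n : ℝ) + 2) ^ 34 :=
    (pow_le_pow_left₀ hn0 (by linarith) 4).trans (pow_le_pow_right₀ (by linarith) (by norm_num))
  push_cast
  calc 4 * (n : ℝ) ^ 4 / 2 + ((n : ℝ) + 2) ^ 18 * (2 * (n : ℝ) ^ 8) * ((n : ℝ) + 2) ^ 8
      = 2 * (n : ℝ) ^ 4 + 2 * ((n : ℝ) + 2) ^ 26 * (n : ℝ) ^ 8 := by ring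
    _ ≤ 2 * ((n : ℝ) + 2) ^ 34 + 2 * ((n : ℝ) + 2) ^ 26 * ((n : ℝ) + 2) ^ 8 := by
        have h4 := mul_le_mul_of_nonneg_left h2
          (by positivity : (0 : ℝ) ≤ 2 * ((n : ℝ) + 2) ^ 26)
        linarith
    _ = 2 ^ 2 * ((n : ℝ) + 2) ^ 34 := by ring
    _ ≤ ((n : ℝ) + 2) ^ 2 * ((n : ℝ) + 2) ^ 34 := by
        refine mul_le_mul_of_nonneg_right (pow_le_pow_left₀ (by norm_num) (by linarith) 2)
          (by positivity)
    _ = ((n : ℝ) + 2) ^ 36 := by ring

lemma card_TR_le : Fintype.card (TwoRegular n) ≤ 2 ^ (n * n) := by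
  classical
  have h1 : Function.Injective (fun (A : TwoRegular n) (p : Fin n × Fin n) =>
      decide (A.1.Adj p.1 p.2)) := by
    intro A B hAB
    apply Subtype.ext
    ext u v
    have := congrFun hAB (u, v)
    simpa using this
  have h2 := Fintype.card_le_of_injective _ h1
  refine h2.trans ?_
  rw [Fintype.card_fun, Fintype.card_bool, Fintype.card_prod, Fintype.card_fin]

lemma inv_statio_le (α : TwoRegular n) :
    1 / statio (Gn n) α ≤ Real.exp (2 * (n : ℝ) ^ 2) := by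
  have h1 : (Nat.card (orbit (Gn n) α) : ℝ) ≤ 2 ^ (n * n) := by
    have h2 : Nat.card (orbit (Gn n) α) ≤ Nat.card (TwoRegular n) :=
      Nat.card_le_card_of_injective Subtype.val Subtype.val_injective
    have h3 := card_TR_le (n := n)
    rw [Nat.card_eq_fintype_card (α := TwoRegular n)] at h2
    exact_mod_cast h2.trans h3
  have h2 : (Nat.card (orbitRel.Quotient (Gn n) (TwoRegular n)) : ℝ) ≤ 2 ^ (n * n) := by
    have h2 : Nat.card (orbitRel.Quotient (Gn n) (TwoRegular n)) ≤ Nat.card (TwoRegular n) :=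
      Nat.card_le_card_of_surjective (Quotient.mk (orbitRel (Gn n) (TwoRegular n)))
        (Quotient.mk_surjective)
    have h3 := card_TR_le (n := n)
    rw [Nat.card_eq_fintype_card (α := TwoRegular n)] at h2
    exact_mod_cast h2.trans h3
  have h3 : ((2 : ℝ) ^ (n * n)) ≤ Real.exp ((n : ℝ) ^ 2) := by
    have h4 : (2 : ℝ) ≤ Real.exp 1 := by
      have := Real.add_one_le_exp (1 : ℝ)
      linarith
    calc ((2 : ℝ) ^ (n * n)) ≤ (Real.exp 1) ^ (n * n) := pow_le_pow_left₀ (by norm_num) h4 _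
      _ = Real.exp ((n : ℝ) ^ 2) := by
        rw [← Real.exp_nat_mul]; congr 1; push_cast; ring
  unfold statio
  rw [one_div_one_div]
  calc (Nat.card (orbit (Gn n) α) : ℝ) * (Nat.card (orbitRel.Quotient (Gn n) (TwoRegular n)) : ℝ)
      ≤ Real.exp ((n : ℝ) ^ 2) * Real.exp ((n : ℝ) ^ 2) :=
        mul_le_mul (h1.trans h3) (h2.trans h3) (by positivity) (Real.exp_pos _).le
    _ = Real.exp (2 * (n : ℝ) ^ 2) := by rw [← Real.exp_add]; congr 1; ring

/-- explicit mixing bound -/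
theorem mixing (hn : 3 ≤ n) {ε : ℝ} (hε : 0 < ε) (α₀ : TwoRegular n) (t : ℕ)
    (ht : ((n : ℝ) + 2) ^ 36 * (2 * (n : ℝ) ^ 2 + 2 * Real.log (1 / ε)) ≤ t) :
    dtv (Gn n) α₀ t ≤ ε := by
  set A := ((n : ℝ) + 2) ^ 36 with hA
  have hA1 : 1 ≤ A := one_le_pow₀ (by have : (0 : ℝ) ≤ n := by positivity
                                      linarith)
  have hA0 : 0 < A := by linarith
  have h1 := dtv_sq_le hA1 (poinc hn) α₀ t
  have h2 : (1 - 1 / A) ^ t ≤ Real.exp (-(t / A)) := by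
    have h3 : 0 ≤ 1 - 1 / A := by rw [sub_nonneg, div_le_one hA0]; exact hA1
    have h4 : 1 - 1 / A ≤ Real.exp (-(1 / A)) := by
      have := Real.add_one_le_exp (-(1 / A))
      linarith
    calc (1 - 1 / A) ^ t ≤ (Real.exp (-(1 / A))) ^ t := pow_le_pow_left₀ h3 h4 t
      _ = Real.exp (-(t / A)) := by rw [← Real.exp_nat_mul]; congr 1; ring
  have h3 := inv_statio_le α₀
  have h4 : dtv (Gn n) α₀ t ^ 2 ≤ ε ^ 2 := by
    calc dtv (Gn n) α₀ t ^ 2 ≤ (1 - 1 / A) ^ t * (1 / statio (Gn n) α₀) := h1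
      _ ≤ Real.exp (-(t / A)) * Real.exp (2 * (n : ℝ) ^ 2) :=
          mul_le_mul h2 h3 (by have := statio_pos (G := Gn n) α₀; positivity) (Real.exp_pos _).le
      _ = Real.exp (-(t / A) + 2 * (n : ℝ) ^ 2) := by rw [← Real.exp_add]
      _ ≤ Real.exp (2 * Real.log ε) := by
          apply Real.exp_le_exp.2
          have h5 : 2 * (n : ℝ) ^ 2 + 2 * Real.log (1 / ε) ≤ t / A := by
            rw [le_div_iff₀ hA0, mul_comm]; exact ht
          rw [one_div, Real.log_inv] at h5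
          linarith
      _ = ε ^ 2 := by
          rw [two_mul, Real.exp_add, Real.exp_log hε]; ring
  have h5 : 0 ≤ dtv (Gn n) α₀ t := by
    unfold dtv
    have : 0 ≤ ∑' β : TwoRegular n, |(law (Gn n) α₀ t β).toReal - statio (Gn n) β| :=
      tsum_nonneg fun _ => abs_nonneg _
    linarith
  exact (sq_le_sq₀ h5 hε.le).1 h4

/-- explicit bound for the mixing time -/
theorem tau_le (hn : 3 ≤ n) {ε : ℝ} (hε0 : 0 < ε) :
    tau (Equiv.Perm (Fin n)) (TwoRegular n) ε ≤
      (⌈((n : ℝ) + 2) ^ 36 * (2 * (n : ℝ) ^ 2 + 2 * Real.log (1 / ε))⌉₊ : ℕ) := by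
  set Q := ((n : ℝ) + 2) ^ 36 * (2 * (n : ℝ) ^ 2 + 2 * Real.log (1 / ε)) with hQ
  unfold tau
  refine iSup_le fun α₀ => ?_
  unfold tauFrom
  refine iInf₂_le_of_le ⌈Q⌉₊ ?_ le_rfl
  intro t' ht'
  refine mixing hn hε0 α₀ t' ?_
  have h1 := Nat.le_ceil Q
  have h2 : ((⌈Q⌉₊ : ℕ) : ℝ) ≤ t' := by exact_mod_cast ht'
  linarith

/-- **Rapid mixing** of the Burnside process on 2-regular graphs -/
theorem main : ∃ p : MvPolynomial (Fin 2) ℝ, ∀ n : ℕ, 3 ≤ n → ∀ ε : ℝ, 0 < ε → ε ≤ 1 →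
    ∃ t : ℕ, (t : ℝ) ≤ MvPolynomial.eval ![(n : ℝ), Real.log (1 / ε)] p ∧
      tau (Equiv.Perm (Fin n)) (TwoRegular n) ε ≤ t := by
  refine ⟨(MvPolynomial.X 0 + 2) ^ 36 * (2 * MvPolynomial.X 0 ^ 2 + 2 * MvPolynomial.X 1) + 1,
    fun n hn ε hε0 hε1 => ?_⟩
  set Q := ((n : ℝ) + 2) ^ 36 * (2 * (n : ℝ) ^ 2 + 2 * Real.log (1 / ε)) with hQ
  have hL : 0 ≤ Real.log (1 / ε) := Real.log_nonneg (by rw [one_le_div hε0]; exact hε1)
  have hQ0 : 0 ≤ Q := by positivity
  refine ⟨⌈Q⌉₊, ?_, tau_le hn hε0⟩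
  have h1 := (Nat.ceil_lt_add_one hQ0).le
  simpa [hQ] using h1

end Pool.Agent.Helper95.Burnside
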